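import Pool.Agent.TH498.KB.Core

/-!
# Blocks of factors
-/

set_option autoImplicit false

namespace Pool.Agent.TH498.KB

open Finset Polynomial Pool.Agent.W4.CF Pool.Agent.W4.VC

theorem radp_mul_le (m a b : ℕ) (ha : a ≠ 0) (hb : b ≠ 0) :
    radp m (a * b) ≤ radp m a * radp m b := by
  unfold radp
  have h1 : ((a * b).primeFactors.filter (fun p => ¬ p ∣ m)) =
      (a.primeFactors.filter (fun p => ¬ p ∣ m)) ∪ (b.primeFactors.filter (fun p => ¬ p ∣ m)) := by
    rw [Nat.primeFactors_mul ha hb, filter_union]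
  rw [h1]
  have h2 := prod_union_inter (s₁ := a.primeFactors.filter (fun p => ¬ p ∣ m))
    (s₂ := b.primeFactors.filter (fun p => ¬ p ∣ m)) (f := fun p => p)
  have h3 : 1 ≤ ∏ p ∈ (a.primeFactors.filter (fun p => ¬ p ∣ m)) ∩
      (b.primeFactors.filter (fun p => ¬ p ∣ m)), p := by
    apply Nat.one_le_iff_ne_zero.mpr
    rw [prod_ne_zero_iff]
    intro p hp
    exact (Nat.prime_of_mem_primeFactors (mem_filter.mp (mem_inter.mp hp).1).1).ne_zero
  rw [← h2]
  exact Nat.le_mul_of_pos_right _ h3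

theorem radp_prod_le {ι : Type} [DecidableEq ι] (m : ℕ) (B : Finset ι) (x : ι → ℕ)
    (hx : ∀ k ∈ B, x k ≠ 0) : radp m (∏ k ∈ B, x k) ≤ ∏ k ∈ B, radp m (x k) := by
  induction B using Finset.induction_on with
  | empty => simp [radp]
  | insert i s hi ih =>
    rw [prod_insert hi, prod_insert hi]
    refine (radp_mul_le m _ _ (hx i (mem_insert_self _ _)) ?_).trans ?_
    · rw [prod_ne_zero_iff]
      exact fun k hk => hx k (mem_insert_of_mem hk)
    · exact Nat.mul_le_mul_left _ (ih fun k hk => hx k (mem_insert_of_mem hk))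

/-- the radicals of numbers without common primes outside `m` -/
theorem prod_radp_le {ι : Type} [Fintype ι] [DecidableEq ι] (m : ℕ) (x : ι → ℕ)
    (hx : ∀ k, x k ≠ 0)
    (hc : ∀ k k', k ≠ k' → ∀ p : ℕ, p.Prime → p ∣ x k → p ∣ x k' → p ∣ m) :
    ∏ k, radp m (x k) ≤ radp m (∏ k, x k) := by
  unfold radp
  rw [← prod_biUnion]
  · apply prod_le_prod_of_subset_of_one_le'
    · intro p hp
      rw [mem_biUnion] at hp
      obtain ⟨k, -, hk⟩ := hp
      rw [mem_filter] at hk ⊢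
      refine ⟨?_, hk.2⟩
      have h1 := Nat.prime_of_mem_primeFactors hk.1
      have h2 := Nat.dvd_of_mem_primeFactors hk.1
      rw [Nat.mem_primeFactors]
      refine ⟨h1, h2.trans (dvd_prod_of_mem x (mem_univ k)), ?_⟩
      rw [prod_ne_zero_iff]
      exact fun k _ => hx k
    · intro p hp _
      exact (Nat.prime_of_mem_primeFactors (mem_filter.mp hp).1).one_le
  · intro k _ k' _ hkk'
    rw [Function.onFun, disjoint_left]
    intro p hp hp'
    rw [mem_filter] at hp hp'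
    exact hp.2 (hc k k' hkk' p (Nat.prime_of_mem_primeFactors hp.1)
      (Nat.dvd_of_mem_primeFactors hp.1) (Nat.dvd_of_mem_primeFactors hp'.1))

theorem radp_mono_left (m M n : ℕ) : radp (m * M) n ≤ radp m n := by
  unfold radp
  apply prod_le_prod_of_subset_of_one_le'
  · intro p hp
    rw [mem_filter] at hp ⊢
    exact ⟨hp.1, fun h => hp.2 (h.mul_right M)⟩
  · intro p hp _
    exact (Nat.prime_of_mem_primeFactors (mem_filter.mp hp).1).one_le

/-- **Blocks.** Let `F k`, `k ∈ ι`, be the factors of a form without multiple factors, and let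
`B b`, `b ∈ β`, be sets of factors of total degree at least two such that every factor is in at
most `c` of them. Then there are `O((m Y) ^ ε R ^ (c / |β|))` coprime pairs in the box of size `Y`
where the radical of the form is at most `R`. -/
theorem blocks {ι β : Type} [Fintype ι] [DecidableEq ι] [Fintype β] [DecidableEq β] [Nonempty β]
    (F : ι → ℤ[X]) (d : ι → ℕ) (hd : ∀ k, (F k).natDegree ≤ d k)
    (hsq : Sqf (∏ k, F k) (∑ k, d k)) (B : β → Finset ι) (hB : ∀ b, 2 ≤ ∑ k ∈ B b, d k)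
    (c : ℕ) (hc : ∀ k, (univ.filter (fun b => k ∈ B b)).card ≤ c) (ε : ℝ) (hε : 0 < ε) :
    ∃ C : ℝ, 0 < C ∧ ∀ (m : ℕ) (Y R : ℝ), 1 ≤ m → 1 ≤ Y → 1 ≤ R → ∀ s : Finset (ℤ × ℤ),
      (∀ p ∈ s, IsCoprime p.1 p.2 ∧ |(p.1 : ℝ)| ≤ Y ∧ |(p.2 : ℝ)| ≤ Y ∧
        hom (∏ k, F k) (∑ k, d k) p.1 p.2 ≠ 0 ∧
        (radp m (hom (∏ k, F k) (∑ k, d k) p.1 p.2).natAbs : ℝ) ≤ R) →
      (s.card : ℝ) ≤ C * ((m : ℝ) * Y) ^ ε * R ^ ((c : ℝ) / Fintype.card β) := by
  classical
  -- every subset gives a form without multiple factors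
  have hsub : ∀ J : Finset ι, Sqf (∏ k ∈ J, F k) (∑ k ∈ J, d k) ∧ ∃ M : ℕ, 1 ≤ M ∧
      ∀ a b : ℤ, IsCoprime a b → ∀ p : ℕ, p.Prime →
        (p : ℤ) ∣ ∏ k ∈ J, hom (F k) (d k) a b → (p : ℤ) ∣ ∏ k ∈ Jᶜ, hom (F k) (d k) a b →
        p ∣ M := by
    intro J
    have h1 : (∏ k ∈ J, F k) * (∏ k ∈ Jᶜ, F k) = ∏ k, F k := prod_mul_prod_compl J F
    have h2 : (∑ k ∈ J, d k) + (∑ k ∈ Jᶜ, d k) = ∑ k, d k := sum_add_sum_compl J d
    have hp := fun (K : Finset ι) (a b : ℤ) => hom_prod K F d (fun i _ => hd i) a b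
    have h3 := Pool.Agent.W290.VC.t_RES (∏ k ∈ J, F k) (∏ k ∈ Jᶜ, F k) (∑ k ∈ J, d k)
      (∑ k ∈ Jᶜ, d k) (hp J 0 0).1 (hp Jᶜ 0 0).1 (by rw [h1, h2]; exact hsq)
    obtain ⟨a1, -, M, hM, h4⟩ := h3
    refine ⟨a1, M, hM, ?_⟩
    intro a b hab p hpp x1 x2
    rw [← (hp J a b).2] at x1
    rw [← (hp Jᶜ a b).2] at x2
    exact h4 a b hab p hpp x1 x2
  choose hS M hM hMp using hsub
  set M0 : ℕ := ∏ k : ι, M {k} with hM0
  have hM01 : 1 ≤ M0 := by
    rw [hM0]
    exact Nat.one_le_iff_ne_zero.mpr (prod_ne_zero_iff.mpr fun k _ => by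
      have := hM {k}
      omega)
  have hsm := fun b : β => small (∏ k ∈ B b, F k) (∑ k ∈ B b, d k) (hS (B b)) (hB b) ε hε
  choose D hD hDs using hsm
  have hcard0 : 0 < Fintype.card β := Fintype.card_pos
  refine ⟨(∑ b, D b) * (M0 : ℝ) ^ ε, ?_, ?_⟩
  · have : 0 < ∑ b, D b := sum_pos (fun b _ => hD b) univ_nonempty
    have : (0 : ℝ) < M0 := by exact_mod_cast hM01
    positivity
  intro m Y R hm hY hR s hs
  set T : ℝ := R ^ ((c : ℝ) / Fintype.card β) with hT
  have hR0 : 0 < R := by linarith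
  have hT0 : 0 < T := by rw [hT]; positivity
  have hmM : 1 ≤ m * M0 := Nat.one_le_iff_ne_zero.mpr (by
    have : m ≠ 0 := by omega
    have : M0 ≠ 0 := by omega
    positivity)
  have hval : ∀ p ∈ s, (∀ k, hom (F k) (d k) p.1 p.2 ≠ 0) ∧
      ((∏ k, radp (m * M0) (hom (F k) (d k) p.1 p.2).natAbs : ℕ) : ℝ) ≤ R := by
    intro p hp
    obtain ⟨hcop, b1, b2, b3, b4⟩ := hs p hp
    have hh := (hom_prod univ F d (fun i _ => hd i) p.1 p.2).2
    rw [hh] at b3 b4
    have hne : ∀ k, hom (F k) (d k) p.1 p.2 ≠ 0 := fun k => prod_ne_zero_iff.mp b3 k (mem_univ k)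
    refine ⟨hne, ?_⟩
    refine le_trans ?_ b4
    have e1 : (∏ k, hom (F k) (d k) p.1 p.2).natAbs = ∏ k, (hom (F k) (d k) p.1 p.2).natAbs :=
      map_prod Int.natAbsHom _ _
    rw [e1]
    have e2 : ∏ k, radp (m * M0) (hom (F k) (d k) p.1 p.2).natAbs ≤
        radp (m * M0) (∏ k, (hom (F k) (d k) p.1 p.2).natAbs) := by
      apply prod_radp_le
      · intro k
        exact Int.natAbs_ne_zero.mpr (hne k)
      · intro k k' hkk' q hq q1 q2
        have f1 : (q : ℤ) ∣ ∏ l ∈ ({k} : Finset ι), hom (F l) (d l) p.1 p.2 := by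
          rw [prod_singleton]
          exact Int.natCast_dvd.mpr q1
        have f2 : (q : ℤ) ∣ ∏ l ∈ ({k} : Finset ι)ᶜ, hom (F l) (d l) p.1 p.2 := by
          refine (Int.natCast_dvd.mpr q2).trans (dvd_prod_of_mem _ ?_)
          rw [mem_compl, mem_singleton]
          exact Ne.symm hkk'
        have f3 := hMp {k} p.1 p.2 hcop q hq f1 f2
        exact (f3.trans (dvd_prod_of_mem (fun k => M {k}) (mem_univ k))).mul_left m
    exact_mod_cast e2.trans (radp_mono_left m M0 _)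
  have hex : ∀ p ∈ s, ∃ b : β,
      (radp (m * M0) (hom (∏ k ∈ B b, F k) (∑ k ∈ B b, d k) p.1 p.2).natAbs : ℝ) ≤ T := by
    intro p hp
    obtain ⟨hne, hle⟩ := hval p hp
    by_contra hcon
    push Not at hcon
    have k1 : ∀ b : β, T < ((∏ k ∈ B b, radp (m * M0) (hom (F k) (d k) p.1 p.2).natAbs : ℕ) : ℝ) := by
      intro b
      refine lt_of_lt_of_le (hcon b) ?_
      rw [(hom_prod (B b) F d (fun i _ => hd i) p.1 p.2).2]
      have e1 : (∏ k ∈ B b, hom (F k) (d k) p.1 p.2).natAbs =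
          ∏ k ∈ B b, (hom (F k) (d k) p.1 p.2).natAbs := map_prod Int.natAbsHom _ _
      rw [e1]
      exact_mod_cast radp_prod_le (m * M0) (B b) _ (fun k _ => Int.natAbs_ne_zero.mpr (hne k))
    have k2 : ∏ _b : β, T <
        ∏ b : β, ((∏ k ∈ B b, radp (m * M0) (hom (F k) (d k) p.1 p.2).natAbs : ℕ) : ℝ) :=
      prod_lt_prod_of_nonempty (fun _ _ => hT0) (fun b _ => k1 b) univ_nonempty
    have k3 : ∏ _b : β, T = R ^ c := by
      rw [prod_const, card_univ, hT, ← Real.rpow_natCast, ← Real.rpow_mul hR0.le,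
        div_mul_cancel₀ _ (by exact_mod_cast hcard0.ne'), Real.rpow_natCast]
    have k4 : (∏ b : β, ∏ k ∈ B b, radp (m * M0) (hom (F k) (d k) p.1 p.2).natAbs) ≤
        (∏ k, radp (m * M0) (hom (F k) (d k) p.1 p.2).natAbs) ^ c := by
      have e1 : ∀ b : β, ∏ k ∈ B b, radp (m * M0) (hom (F k) (d k) p.1 p.2).natAbs =
          ∏ k, if k ∈ B b then radp (m * M0) (hom (F k) (d k) p.1 p.2).natAbs else 1 := by
        intro b
        rw [prod_ite_mem, univ_inter]
      rw [prod_congr rfl (fun b _ => e1 b), prod_comm, ← prod_pow]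
      apply prod_le_prod'
      intro k _
      rw [prod_ite, prod_const_one, mul_one, prod_const]
      exact Nat.pow_le_pow_right (radp_pos _ _) (hc k)
    have k5 : ((∏ b : β, ∏ k ∈ B b, radp (m * M0) (hom (F k) (d k) p.1 p.2).natAbs : ℕ) : ℝ) ≤
        R ^ c := by
      calc _ ≤ (((∏ k, radp (m * M0) (hom (F k) (d k) p.1 p.2).natAbs) ^ c : ℕ) : ℝ) := by
            exact_mod_cast k4
        _ = ((∏ k, radp (m * M0) (hom (F k) (d k) p.1 p.2).natAbs : ℕ) : ℝ) ^ c := by push_cast; rfl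
        _ ≤ R ^ c := by gcongr
    rw [k3] at k2
    have k6 : (∏ b : β, ((∏ k ∈ B b, radp (m * M0) (hom (F k) (d k) p.1 p.2).natAbs : ℕ) : ℝ)) =
        ((∏ b : β, ∏ k ∈ B b, radp (m * M0) (hom (F k) (d k) p.1 p.2).natAbs : ℕ) : ℝ) := by
      push_cast
      rfl
    rw [k6] at k2
    linarith
  have hcover : s ⊆ univ.biUnion (fun b : β => s.filter (fun p =>
      (radp (m * M0) (hom (∏ k ∈ B b, F k) (∑ k ∈ B b, d k) p.1 p.2).natAbs : ℝ) ≤ T)) := by
    intro p hp
    obtain ⟨b, hb⟩ := hex p hp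
    rw [mem_biUnion]
    exact ⟨b, mem_univ b, mem_filter.mpr ⟨hp, hb⟩⟩
  have hb : ∀ b : β, ((s.filter (fun p =>
      (radp (m * M0) (hom (∏ k ∈ B b, F k) (∑ k ∈ B b, d k) p.1 p.2).natAbs : ℝ) ≤ T)).card : ℝ) ≤
      D b * (((m * M0 : ℕ) : ℝ) * Y) ^ ε * T := by
    intro b
    apply hDs b (m * M0) Y T hmM hY hT0.le
    intro p hp
    rw [mem_filter] at hp
    obtain ⟨hcop, b1, b2, b3, b4⟩ := hs p hp.1
    refine ⟨hcop, b1, b2, ?_, hp.2⟩
    rw [(hom_prod (B b) F d (fun i _ => hd i) p.1 p.2).2]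
    exact prod_ne_zero_iff.mpr fun k _ => (hval p hp.1).1 k
  calc (s.card : ℝ) ≤ ((univ.biUnion (fun b : β => s.filter (fun p =>
      (radp (m * M0) (hom (∏ k ∈ B b, F k) (∑ k ∈ B b, d k) p.1 p.2).natAbs : ℝ) ≤ T))).card : ℝ) := by
        exact_mod_cast card_le_card hcover
    _ ≤ ∑ b : β, ((s.filter (fun p =>
      (radp (m * M0) (hom (∏ k ∈ B b, F k) (∑ k ∈ B b, d k) p.1 p.2).natAbs : ℝ) ≤ T)).card : ℝ) := by
        exact_mod_cast card_biUnion_le
    _ ≤ ∑ b : β, D b * (((m * M0 : ℕ) : ℝ) * Y) ^ ε * T := sum_le_sum fun b _ => hb b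
    _ = (∑ b, D b) * (M0 : ℝ) ^ ε * ((m : ℝ) * Y) ^ ε * T := by
        rw [← sum_mul, ← sum_mul]
        push_cast
        have : (m : ℝ) * M0 * Y = M0 * ((m : ℝ) * Y) := by ring
        rw [this, Real.mul_rpow (by positivity) (by positivity)]
        ring

/-- **Rational points and other factors.** A form without multiple factors that is the product of
`w` forms of degree at least two and `L ≠ 1` linear forms. -/
theorem paired (w L : ℕ) (hL : L ≠ 1) (hwL : 1 ≤ w + L) (g : Fin w → ℤ[X]) (n : Fin w → ℕ)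
    (hg : ∀ j, (g j).natDegree ≤ n j) (hn : ∀ j, 2 ≤ n j) (h : Fin L → ℤ[X])
    (hh : ∀ i, (h i).natDegree ≤ 1) (hsq : Sqf ((∏ j, g j) * ∏ i, h i) (∑ j, n j + L))
    (ε : ℝ) (hε : 0 < ε) :
    ∃ C : ℝ, 0 < C ∧ ∀ (m : ℕ) (Y R : ℝ), 1 ≤ m → 1 ≤ Y → 1 ≤ R → ∀ s : Finset (ℤ × ℤ),
      (∀ p ∈ s, IsCoprime p.1 p.2 ∧ |(p.1 : ℝ)| ≤ Y ∧ |(p.2 : ℝ)| ≤ Y ∧
        hom ((∏ j, g j) * ∏ i, h i) (∑ j, n j + L) p.1 p.2 ≠ 0 ∧
        (radp m (hom ((∏ j, g j) * ∏ i, h i) (∑ j, n j + L) p.1 p.2).natAbs : ℝ) ≤ R) →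
      (s.card : ℝ) ≤ C * ((m : ℝ) * Y) ^ ε * R ^ ((2 : ℝ) / (L + 2 * w)) := by
  classical
  let F : Fin w ⊕ Fin L → ℤ[X] := Sum.elim g h
  let d : Fin w ⊕ Fin L → ℕ := Sum.elim n (fun _ => 1)
  have hF : ∏ k, F k = (∏ j, g j) * ∏ i, h i := by
    rw [Fintype.prod_sum_type]
    rfl
  have hdd : ∑ k, d k = ∑ j, n j + L := by
    rw [Fintype.sum_sum_type]
    simp [d]
  let B : Fin w ⊕ (Fin w ⊕ Fin L) → Finset (Fin w ⊕ Fin L) :=
    Sum.elim (fun j => {Sum.inl j}) (Sum.elim (fun j => {Sum.inl j})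
      (fun i => {Sum.inr i, Sum.inr (finRotate L i)}))
  have : Nonempty (Fin w ⊕ (Fin w ⊕ Fin L)) := by
    rcases Nat.eq_zero_or_pos w with h0 | h0
    · exact ⟨Sum.inr (Sum.inr ⟨0, by omega⟩)⟩
    · exact ⟨Sum.inl ⟨0, h0⟩⟩
  have hrot : ∀ i : Fin L, i ≠ finRotate L i := by
    intro i
    obtain ⟨k, rfl⟩ : ∃ k, L = k + 2 := ⟨L - 2, by
      have := i.2
      omega⟩
    intro h
    rw [finRotate_apply] at h
    have := congrArg Fin.val h
    rw [Fin.val_add, Fin.val_one] at this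
    have hi := i.2
    rcases Nat.lt_or_ge ((i : ℕ) + 1) (k + 2) with h1 | h1
    · rw [Nat.mod_eq_of_lt h1] at this
      omega
    · have h2 : (i : ℕ) + 1 = k + 2 := by omega
      rw [h2, Nat.mod_self] at this
      omega
  have hB : ∀ b, 2 ≤ ∑ k ∈ B b, d k := by
    rintro (j | j | i)
    · show 2 ≤ ∑ k ∈ {Sum.inl j}, d k
      rw [sum_singleton]
      exact hn j
    · show 2 ≤ ∑ k ∈ {Sum.inl j}, d k
      rw [sum_singleton]
      exact hn j
    · show 2 ≤ ∑ k ∈ {Sum.inr i, Sum.inr (finRotate L i)}, d k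
      rw [sum_pair]
      · simp [d]
      · intro hc
        exact hrot i (Sum.inr_injective hc)
  have hc : ∀ k, (univ.filter (fun b => k ∈ B b)).card ≤ 2 := by
    rintro (j | i)
    · have : (univ.filter (fun b => (Sum.inl j : Fin w ⊕ Fin L) ∈ B b)) ⊆
          {Sum.inl j, Sum.inr (Sum.inl j)} := by
        intro b hb
        rw [mem_filter] at hb
        rcases b with b | b | b
        · have : (Sum.inl j : Fin w ⊕ Fin L) ∈ ({Sum.inl b} : Finset _) := hb.2
          rw [mem_singleton] at this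
          have := Sum.inl_injective this
          subst this
          simp
        · have : (Sum.inl j : Fin w ⊕ Fin L) ∈ ({Sum.inl b} : Finset _) := hb.2
          rw [mem_singleton] at this
          have := Sum.inl_injective this
          subst this
          simp
        · have : (Sum.inl j : Fin w ⊕ Fin L) ∈
            ({Sum.inr b, Sum.inr (finRotate L b)} : Finset _) := hb.2
          simp at this
      exact (card_le_card this).trans card_le_two
    · have : (univ.filter (fun b => (Sum.inr i : Fin w ⊕ Fin L) ∈ B b)) ⊆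
          {Sum.inr (Sum.inr i), Sum.inr (Sum.inr ((finRotate L).symm i))} := by
        intro b hb
        rw [mem_filter] at hb
        rcases b with b | b | b
        · have : (Sum.inr i : Fin w ⊕ Fin L) ∈ ({Sum.inl b} : Finset _) := hb.2
          simp at this
        · have : (Sum.inr i : Fin w ⊕ Fin L) ∈ ({Sum.inl b} : Finset _) := hb.2
          simp at this
        · have : (Sum.inr i : Fin w ⊕ Fin L) ∈
            ({Sum.inr b, Sum.inr (finRotate L b)} : Finset _) := hb.2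
          rw [mem_insert, mem_singleton] at this
          rw [mem_insert, mem_singleton]
          rcases this with h1 | h1
          · left
            rw [Sum.inr_injective h1]
          · right
            rw [Sum.inr_injective h1, Equiv.symm_apply_apply]
      exact (card_le_card this).trans card_le_two
  obtain ⟨C, hC, hmain⟩ := blocks F d (by
    rintro (j | i)
    · exact hg j
    · exact hh i) (by rw [hF, hdd]; exact hsq) B hB 2 hc ε hε
  rw [hF, hdd] at hmain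
  refine ⟨C, hC, ?_⟩
  intro m Y R hm hY hR s hs
  have := hmain m Y R hm hY hR s hs
  have e : ((2 : ℕ) : ℝ) / (Fintype.card (Fin w ⊕ (Fin w ⊕ Fin L)) : ℝ) = 2 / (L + 2 * w) := by
    rw [Fintype.card_sum, Fintype.card_sum, Fintype.card_fin, Fintype.card_fin]
    push_cast
    congr 1
    ring
  rw [e] at this
  exact this

end Pool.Agent.TH498.KB
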