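import Pool.Agent.TH498.KB.Fam

/-!
# Members of a one-parameter family of elliptic curves with a small product of bad primes
-/

set_option autoImplicit false

namespace Pool.Agent.TH498.KB

open Finset Polynomial Pool.Agent.W4.CF Pool.Agent.W4.VC

/-- the curve `y² = x³ - a x - b` is isomorphic to a member of the family
`y² = x³ - A(t) x - B(t)` -/
def Mem (A B : ℤ[X]) (a b : ℤ) : Prop :=
  ∃ t u : ℚ, u ≠ 0 ∧ (a : ℚ) = u ^ 4 * (A.map (Int.castRingHom ℚ)).eval t ∧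
    (b : ℚ) = u ^ 6 * (B.map (Int.castRingHom ℚ)).eval t

/-- the data of a family with multiplicative fibres only: `F = ∏ g_j ∏ h_i` divides the
discriminant -/
structure Fam (A B : ℤ[X]) (k w L : ℕ) : Prop where
  hk : 1 ≤ k
  hA : A.natDegree ≤ 4 * k
  hB : B.natDegree ≤ 6 * k
  hlead : A.natDegree = 4 * k ∨ B.natDegree = 6 * k
  hcop : IsCoprime (A.map (Int.castRingHom ℚ)) (B.map (Int.castRingHom ℚ))
  hL : L ≠ 1
  hwL : 1 ≤ w + L
  data : ∃ (g : Fin w → ℤ[X]) (n : Fin w → ℕ) (h : Fin L → ℤ[X]) (G : ℤ[X]),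
    (∀ j, (g j).natDegree ≤ n j ∧ 2 ≤ n j) ∧ (∀ i, (h i).natDegree ≤ 1) ∧
    Squarefree (((∏ j, g j) * ∏ i, h i).map (Int.castRingHom ℚ)) ∧
    ∑ j, n j + L ≤ ((∏ j, g j) * ∏ i, h i).natDegree + 1 ∧
    ((∏ j, g j) * ∏ i, h i) * G = 4 * A ^ 3 - 27 * B ^ 2 ∧
    G.natDegree + (∑ j, n j + L) ≤ 12 * k

theorem bez2 (A B : ℤ[X]) (k : ℕ) (hk : 1 ≤ k) (hA : A.natDegree ≤ 4 * k)
    (hB : B.natDegree ≤ 6 * k) (hlead : A.natDegree = 4 * k ∨ B.natDegree = 6 * k)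
    (hcop : IsCoprime (A.map (Int.castRingHom ℚ)) (B.map (Int.castRingHom ℚ))) :
    ∃ (M : ℕ) (K : ℝ), 1 ≤ M ∧ 1 ≤ K ∧ ∀ a b : ℤ, IsCoprime a b →
      (∀ d : ℤ, d ∣ hom A (4 * k) a b → d ∣ hom B (6 * k) a b → d ∣ M) ∧
      max |(a : ℝ)| |(b : ℝ)| ≤
        K * (|((hom A (4 * k) a b : ℤ) : ℝ)| + |((hom B (6 * k) a b : ℤ) : ℝ)|) := by
  rcases hlead with h | h
  · refine bez A B (4 * k) (6 * k) (by omega) (by omega) hA hB hcop ?_
    rw [← h]
    intro h0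
    have h1 : A = 0 := leadingCoeff_eq_zero.mp h0
    rw [h1, natDegree_zero] at h
    omega
  · obtain ⟨M, K, h1, h2, h3⟩ := bez B A (6 * k) (4 * k) (by omega) (by omega) hB hA hcop.symm (by
      rw [← h]
      intro h0
      have h1 : B = 0 := leadingCoeff_eq_zero.mp h0
      rw [h1, natDegree_zero] at h
      omega)
    refine ⟨M, K, h1, h2, fun a b hab => ?_⟩
    obtain ⟨h4, h5⟩ := h3 a b hab
    exact ⟨fun d d1 d2 => h4 d d2 d1, by rw [add_comm]; exact h5⟩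

/-- the product of the primes `p ≥ 5` dividing `n` -/
def rad5 (n : ℤ) : ℕ := ∏ p ∈ n.natAbs.primeFactors.filter (fun p => 5 ≤ p), p

theorem core (A B : ℤ[X]) (k w L : ℕ) (hF : Fam A B k w L) (Λ : ℕ) (ε : ℝ) (hε : 0 < ε) :
    ∃ C : ℝ, 0 < C ∧ ∀ (Z R : ℝ), 1 ≤ Z → 1 ≤ R → ∀ s : Finset (ℤ × ℤ),
      (∀ p ∈ s, 4 * p.1 ^ 3 - 27 * p.2 ^ 2 ≠ 0 ∧ Mem A B p.1 p.2 ∧
        (∀ r : ℤ, r ^ 4 ∣ p.1 → r ^ 6 ∣ p.2 → |r| ≤ Λ) ∧
        |(p.1 : ℝ)| ≤ Z ∧ |(p.2 : ℝ)| ≤ Z ∧ (rad5 (4 * p.1 ^ 3 - 27 * p.2 ^ 2) : ℝ) ≤ R) →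
      (s.card : ℝ) ≤ C * Z ^ ε * R ^ ((2 : ℝ) / (L + 2 * w)) := by
  classical
  obtain ⟨hk, hA, hB, hlead, hcop, hL, hwL, g, n, h, G, hg, hh, hsq, hdeg, hFG, hG⟩ := hF
  obtain ⟨M, K, hM, hK, hbez⟩ := bez2 A B k hk hA hB hlead hcop
  set F : ℤ[X] := (∏ j, g j) * ∏ i, h i with hFdef
  set q : ℕ := ∑ j, n j + L with hq
  have hle : F.natDegree ≤ q := by
    refine natDegree_mul_le.trans ?_
    refine add_le_add ((natDegree_prod_le _ _).trans (Finset.sum_le_sum fun j _ => (hg j).1)) ?_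
    refine (natDegree_prod_le _ _).trans ((Finset.sum_le_sum fun i _ => hh i).trans ?_)
    simp
  obtain ⟨C, hC, hmain⟩ := paired w L hL hwL g n (fun j => (hg j).1) (fun j => (hg j).2) h hh
    ⟨hsq, hle, hdeg⟩ ε hε
  rw [← hFdef, ← hq] at hmain
  -- constants
  set Y0 : ℝ := 2 * K * (M : ℝ) ^ 6 with hY0
  have hM1 : (1 : ℝ) ≤ M := by exact_mod_cast hM
  have hM0 : (0 : ℝ) < M := by linarith
  have hY01 : 1 ≤ Y0 := by
    have h1 : (1 : ℝ) ≤ (M : ℝ) ^ 6 := one_le_pow₀ hM1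
    rw [hY0]
    nlinarith
  set W : ℝ := (2 * (Λ : ℝ) + 1) * M with hW
  refine ⟨W * (C * ((6 * M : ℕ) * Y0) ^ ε), by positivity, ?_⟩
  intro Z R hZ hR s hs
  -- choose a parameter for every member
  have hex : ∀ p ∈ s, ∃ (t : ℚ) (r : ℤ) (e : ℕ), 1 ≤ e ∧ (e : ℤ) ∣ (M : ℤ) ∧ |r| ≤ Λ ∧ r ≠ 0 ∧
      p.1 * (e : ℤ) ^ 4 = r ^ 4 * hom A (4 * k) t.num t.den ∧
      p.2 * (e : ℤ) ^ 6 = r ^ 6 * hom B (6 * k) t.num t.den := by
    intro p hp
    obtain ⟨-, ⟨t, u, hu, ha, hb⟩, hr, -⟩ := hs p hp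
    have hden : ((t.den : ℤ) : ℚ) ≠ 0 := by exact_mod_cast t.den_nz
    have hA' := hom_eval A (4 * k) hA t.num t.den hden
    have hB' := hom_eval B (6 * k) hB t.num t.den hden
    have ht : ((t.num : ℤ) : ℚ) / ((t.den : ℤ) : ℚ) = t := by
      push_cast
      exact Rat.num_div_den t
    rw [ht] at hA' hB'
    set v : ℚ := u / (t.den : ℚ) ^ k with hv
    have hdk : (t.den : ℚ) ^ k ≠ 0 := pow_ne_zero _ (by exact_mod_cast t.den_nz)
    have ha2 : (p.1 : ℚ) = v ^ 4 * ((hom A (4 * k) t.num t.den : ℤ) : ℚ) := by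
      rw [hA', ha, hv, div_pow, ← pow_mul, mul_comm k 4]
      have : (t.den : ℚ) ^ (4 * k) ≠ 0 := pow_ne_zero _ (by exact_mod_cast t.den_nz)
      push_cast
      field_simp
    have hb2 : (p.2 : ℚ) = v ^ 6 * ((hom B (6 * k) t.num t.den : ℤ) : ℚ) := by
      rw [hB', hb, hv, div_pow, ← pow_mul, mul_comm k 6]
      have : (t.den : ℚ) ^ (6 * k) ≠ 0 := pow_ne_zero _ (by exact_mod_cast t.den_nz)
      push_cast
      field_simp
    have hv0 : v ≠ 0 := div_ne_zero hu hdk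
    have hvd : (v.den : ℚ) ≠ 0 := by exact_mod_cast v.den_nz
    have ha3 : p.1 * (v.den : ℤ) ^ 4 = v.num ^ 4 * hom A (4 * k) t.num t.den := by
      have : ((p.1 * (v.den : ℤ) ^ 4 : ℤ) : ℚ) =
          ((v.num ^ 4 * hom A (4 * k) t.num t.den : ℤ) : ℚ) := by
        push_cast
        rw [ha2]
        nth_rewrite 1 [← Rat.num_div_den v]
        field_simp
      exact_mod_cast this
    have hb3 : p.2 * (v.den : ℤ) ^ 6 = v.num ^ 6 * hom B (6 * k) t.num t.den := by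
      have : ((p.2 * (v.den : ℤ) ^ 6 : ℤ) : ℚ) =
          ((v.num ^ 6 * hom B (6 * k) t.num t.den : ℤ) : ℚ) := by
        push_cast
        rw [hb2]
        nth_rewrite 1 [← Rat.num_div_den v]
        field_simp
      exact_mod_cast this
    have hcv : IsCoprime v.num (v.den : ℤ) := by
      rw [Int.isCoprime_iff_gcd_eq_one]
      exact v.reduced
    have hct : IsCoprime t.num (t.den : ℤ) := by
      rw [Int.isCoprime_iff_gcd_eq_one]
      exact t.reduced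
    have d1 : (v.den : ℤ) ^ 4 ∣ hom A (4 * k) t.num t.den :=
      (IsCoprime.pow hcv.symm).dvd_of_dvd_mul_left (ha3 ▸ Dvd.intro_left _ rfl)
    have d2 : (v.den : ℤ) ^ 6 ∣ hom B (6 * k) t.num t.den :=
      (IsCoprime.pow hcv.symm).dvd_of_dvd_mul_left (hb3 ▸ Dvd.intro_left _ rfl)
    have d3 : (v.den : ℤ) ∣ M := by
      refine (hbez _ _ hct).1 _ ?_ ?_
      · exact (dvd_pow_self _ (by norm_num)).trans d1
      · exact (dvd_pow_self _ (by norm_num)).trans d2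
    have d4 : v.num ^ 4 ∣ p.1 :=
      (IsCoprime.pow hcv).dvd_of_dvd_mul_right (by rw [ha3]; exact Dvd.intro _ rfl)
    have d5 : v.num ^ 6 ∣ p.2 :=
      (IsCoprime.pow hcv).dvd_of_dvd_mul_right (by rw [hb3]; exact Dvd.intro _ rfl)
    exact ⟨t, v.num, v.den, v.den_pos, d3, hr _ d4 d5, Rat.num_ne_zero.mpr hv0, ha3, hb3⟩
  choose! t r e he1 hedvd hrΛ hr0 hea heb using hex
  have heM : ∀ p ∈ s, e p ≤ M := fun p hp =>
    Nat.le_of_dvd (by omega) (by exact_mod_cast hedvd p hp)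
  let φ : ℤ × ℤ → ℤ × ℤ := fun p => ((t p).num, ((t p).den : ℤ))
  -- the parameters
  have hφ : ∀ x ∈ s.image φ, IsCoprime x.1 x.2 ∧ |(x.1 : ℝ)| ≤ Y0 * Z ∧ |(x.2 : ℝ)| ≤ Y0 * Z ∧
      hom F q x.1 x.2 ≠ 0 ∧ (radp (6 * M) (hom F q x.1 x.2).natAbs : ℝ) ≤ R := by
    intro x hx
    obtain ⟨p, hp, rfl⟩ := mem_image.mp hx
    obtain ⟨hD, -, -, hsz1, hsz2, hrad⟩ := hs p hp
    have hct : IsCoprime (t p).num ((t p).den : ℤ) := by
      rw [Int.isCoprime_iff_gcd_eq_one]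
      exact (t p).reduced
    have hden : (((t p).den : ℤ) : ℚ) ≠ 0 := by exact_mod_cast (t p).den_nz
    change IsCoprime (t p).num ((t p).den : ℤ) ∧ |((t p).num : ℝ)| ≤ Y0 * Z ∧
      |(((t p).den : ℤ) : ℝ)| ≤ Y0 * Z ∧ hom F q (t p).num (t p).den ≠ 0 ∧
      (radp (6 * M) (hom F q (t p).num (t p).den).natAbs : ℝ) ≤ R
    obtain ⟨b1, b2⟩ := hbez _ _ hct
    have ea := hea p hp
    have eb := heb p hp
    set Ah := hom A (4 * k) (t p).num (t p).den with hAh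
    set Bh := hom B (6 * k) (t p).num (t p).den with hBh
    have hr1 : (1 : ℝ) ≤ |((r p : ℤ) : ℝ)| := by exact_mod_cast Int.one_le_abs (hr0 p hp)
    have heR : ((e p : ℕ) : ℝ) ≤ M := by exact_mod_cast heM p hp
    have heR0 : (0 : ℝ) ≤ ((e p : ℕ) : ℝ) := Nat.cast_nonneg _
    have sA : |((Ah : ℤ) : ℝ)| ≤ (M : ℝ) ^ 6 * Z := by
      have e1 : |(p.1 : ℝ)| * ((e p : ℕ) : ℝ) ^ 4 = |((r p : ℤ) : ℝ)| ^ 4 * |((Ah : ℤ) : ℝ)| := by
        have : (p.1 : ℝ) * ((e p : ℕ) : ℝ) ^ 4 = ((r p : ℤ) : ℝ) ^ 4 * ((Ah : ℤ) : ℝ) := by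
          exact_mod_cast ea
        have h2 := congrArg abs this
        rw [abs_mul, abs_mul, abs_pow, abs_pow, Nat.abs_cast] at h2
        exact h2
      have e2 : (1 : ℝ) ≤ |((r p : ℤ) : ℝ)| ^ 4 := one_le_pow₀ hr1
      have e3 : ((e p : ℕ) : ℝ) ^ 4 ≤ (M : ℝ) ^ 6 :=
        (pow_le_pow_left₀ heR0 heR 4).trans (pow_le_pow_right₀ hM1 (by norm_num))
      calc |((Ah : ℤ) : ℝ)| ≤ |((r p : ℤ) : ℝ)| ^ 4 * |((Ah : ℤ) : ℝ)| :=
            le_mul_of_one_le_left (abs_nonneg _) e2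
        _ = |(p.1 : ℝ)| * ((e p : ℕ) : ℝ) ^ 4 := e1.symm
        _ ≤ Z * (M : ℝ) ^ 6 := by gcongr
        _ = _ := mul_comm _ _
    have sB : |((Bh : ℤ) : ℝ)| ≤ (M : ℝ) ^ 6 * Z := by
      have e1 : |(p.2 : ℝ)| * ((e p : ℕ) : ℝ) ^ 6 = |((r p : ℤ) : ℝ)| ^ 6 * |((Bh : ℤ) : ℝ)| := by
        have : (p.2 : ℝ) * ((e p : ℕ) : ℝ) ^ 6 = ((r p : ℤ) : ℝ) ^ 6 * ((Bh : ℤ) : ℝ) := by
          exact_mod_cast eb
        have h2 := congrArg abs this
        rw [abs_mul, abs_mul, abs_pow, abs_pow, Nat.abs_cast] at h2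
        exact h2
      have e2 : (1 : ℝ) ≤ |((r p : ℤ) : ℝ)| ^ 6 := one_le_pow₀ hr1
      have e3 : ((e p : ℕ) : ℝ) ^ 6 ≤ (M : ℝ) ^ 6 := pow_le_pow_left₀ heR0 heR 6
      calc |((Bh : ℤ) : ℝ)| ≤ |((r p : ℤ) : ℝ)| ^ 6 * |((Bh : ℤ) : ℝ)| :=
            le_mul_of_one_le_left (abs_nonneg _) e2
        _ = |(p.2 : ℝ)| * ((e p : ℕ) : ℝ) ^ 6 := e1.symm
        _ ≤ Z * (M : ℝ) ^ 6 := by gcongr
        _ = _ := mul_comm _ _
    have hH : max |((t p).num : ℝ)| |(((t p).den : ℤ) : ℝ)| ≤ Y0 * Z := by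
      refine b2.trans ?_
      calc K * (|((Ah : ℤ) : ℝ)| + |((Bh : ℤ) : ℝ)|) ≤
            K * ((M : ℝ) ^ 6 * Z + (M : ℝ) ^ 6 * Z) := by gcongr
        _ = Y0 * Z := by rw [hY0]; ring
    -- the discriminant
    have hdisc : (4 * p.1 ^ 3 - 27 * p.2 ^ 2) * (e p : ℤ) ^ 12 =
        r p ^ 12 * (hom F q (t p).num (t p).den * hom G (12 * k - q) (t p).num (t p).den) := by
      have e1 : hom F q (t p).num (t p).den * hom G (12 * k - q) (t p).num (t p).den =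
          4 * Ah ^ 3 - 27 * Bh ^ 2 := by
        have hAe := hom_eval A (4 * k) hA (t p).num (t p).den hden
        have hBe := hom_eval B (6 * k) hB (t p).num (t p).den hden
        have hFe := hom_eval F q hle (t p).num (t p).den hden
        have hGe := hom_eval G (12 * k - q) (by omega) (t p).num (t p).den hden
        have hmap := congrArg (fun f : ℤ[X] => (f.map (Int.castRingHom ℚ)).eval
          (((t p).num : ℚ) / (((t p).den : ℤ) : ℚ))) hFG
        simp only [Polynomial.map_mul, Polynomial.map_sub, Polynomial.map_pow, eval_mul, eval_sub,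
          eval_pow] at hmap
        have h4 : ((4 : ℤ[X]).map (Int.castRingHom ℚ)) = Polynomial.C 4 := by
          rw [Polynomial.map_ofNat]; rfl
        have h27 : ((27 : ℤ[X]).map (Int.castRingHom ℚ)) = Polynomial.C 27 := by
          rw [Polynomial.map_ofNat]; rfl
        rw [h4, h27, eval_C, eval_C] at hmap
        have : ((hom F q (t p).num (t p).den * hom G (12 * k - q) (t p).num (t p).den : ℤ) : ℚ) =
            ((4 * Ah ^ 3 - 27 * Bh ^ 2 : ℤ) : ℚ) := by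
          push_cast
          rw [hAh, hBh, hAe, hBe, hFe, hGe]
          have hq12 : q + (12 * k - q) = 12 * k := by omega
          have e5 : ((((t p).den : ℤ) : ℚ)) ^ q * ((((t p).den : ℤ) : ℚ)) ^ (12 * k - q) =
              ((((t p).den : ℤ) : ℚ)) ^ (12 * k) := by
            rw [← pow_add, hq12]
          have e6 : ((((t p).den : ℤ) : ℚ)) ^ (12 * k) =
              (((((t p).den : ℤ) : ℚ)) ^ (4 * k)) ^ 3 := by
            rw [← pow_mul]; congr 1; ring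
          have e7 : ((((t p).den : ℤ) : ℚ)) ^ (12 * k) =
              (((((t p).den : ℤ) : ℚ)) ^ (6 * k)) ^ 2 := by
            rw [← pow_mul]; congr 1; ring
          set d := (((t p).den : ℤ) : ℚ)
          set x := ((t p).num : ℚ) / d
          calc d ^ q * eval x (F.map (Int.castRingHom ℚ)) * (d ^ (12 * k - q) *
                eval x (G.map (Int.castRingHom ℚ))) = (d ^ q * d ^ (12 * k - q)) *
                (eval x (F.map (Int.castRingHom ℚ)) * eval x (G.map (Int.castRingHom ℚ))) := by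
                ring
            _ = d ^ (12 * k) * (4 * eval x (A.map (Int.castRingHom ℚ)) ^ 3 -
                27 * eval x (B.map (Int.castRingHom ℚ)) ^ 2) := by rw [e5, hmap]
            _ = 4 * (d ^ (12 * k) * eval x (A.map (Int.castRingHom ℚ)) ^ 3) -
                27 * (d ^ (12 * k) * eval x (B.map (Int.castRingHom ℚ)) ^ 2) := by ring
            _ = 4 * ((d ^ (4 * k)) ^ 3 * eval x (A.map (Int.castRingHom ℚ)) ^ 3) -
                27 * ((d ^ (6 * k)) ^ 2 * eval x (B.map (Int.castRingHom ℚ)) ^ 2) := by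
                rw [← e6, ← e7]
            _ = _ := by ring
        exact_mod_cast this
      rw [e1]
      calc (4 * p.1 ^ 3 - 27 * p.2 ^ 2) * (e p : ℤ) ^ 12 =
            4 * (p.1 * (e p : ℤ) ^ 4) ^ 3 - 27 * (p.2 * (e p : ℤ) ^ 6) ^ 2 := by ring
        _ = 4 * (r p ^ 4 * Ah) ^ 3 - 27 * (r p ^ 6 * Bh) ^ 2 := by rw [ea, eb]
        _ = _ := by ring
    have he0 : ((e p : ℕ) : ℤ) ≠ 0 := by
      have := he1 p hp
      exact_mod_cast (by omega : e p ≠ 0)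
    have hF0 : hom F q (t p).num (t p).den ≠ 0 := by
      intro h0
      rw [h0, zero_mul, mul_zero] at hdisc
      rcases mul_eq_zero.mp hdisc with h1 | h1
      · exact hD h1
      · exact pow_ne_zero _ he0 h1
    refine ⟨hct, (le_max_left _ _).trans hH, (le_max_right _ _).trans hH, hF0, ?_⟩
    refine le_trans ?_ hrad
    have hsub : (hom F q (t p).num (t p).den).natAbs.primeFactors.filter
        (fun p => ¬ p ∣ 6 * M) ⊆
        (4 * p.1 ^ 3 - 27 * p.2 ^ 2).natAbs.primeFactors.filter (fun p => 5 ≤ p) := by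
      intro l hl
      obtain ⟨hl1, hl2⟩ := mem_filter.mp hl
      have hlp := Nat.prime_of_mem_primeFactors hl1
      have hld : (l : ℤ) ∣ hom F q (t p).num (t p).den := by
        rw [Int.natCast_dvd]
        exact Nat.dvd_of_mem_primeFactors hl1
      have hlM : ¬ (l : ℤ) ∣ (M : ℤ) := by
        intro h1
        exact hl2 (Dvd.dvd.mul_left (by exact_mod_cast h1) 6)
      have h5 : 5 ≤ l := by
        by_contra hlt
        push Not at hlt
        have h2 := hlp.two_le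
        interval_cases l
        · exact hl2 ⟨3 * M, by ring⟩
        · exact hl2 ⟨2 * M, by ring⟩
        · norm_num at hlp
      have hle' : ¬ (l : ℤ) ∣ (e p : ℤ) := fun h1 => hlM (h1.trans (hedvd p hp))
      refine mem_filter.mpr ⟨Nat.mem_primeFactors.mpr ⟨hlp, ?_, ?_⟩, h5⟩
      · have h1 : (l : ℤ) ∣ (4 * p.1 ^ 3 - 27 * p.2 ^ 2) * (e p : ℤ) ^ 12 := by
          rw [hdisc]
          exact Dvd.dvd.mul_left (Dvd.dvd.mul_right hld _) _
        have hlZ : Prime (l : ℤ) := Nat.prime_iff_prime_int.mp hlp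
        rcases hlZ.dvd_or_dvd h1 with h2 | h2
        · exact Int.natCast_dvd.mp h2
        · exact absurd (hlZ.dvd_of_dvd_pow h2) hle'
      · exact Int.natAbs_ne_zero.mpr hD
    unfold radp rad5
    exact_mod_cast Finset.prod_le_prod_of_subset_of_one_le' hsub fun i hi _ =>
      (Nat.prime_of_mem_primeFactors (mem_filter.mp hi).1).one_le
  have hYZ : 1 ≤ Y0 * Z := by nlinarith
  have hcard := hmain (6 * M) (Y0 * Z) R (by omega) hYZ hR (s.image φ) hφ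
  -- the number of members with a given parameter
  have hinj : s.card ≤ ((s.image φ) ×ˢ (Icc (-(Λ : ℤ)) Λ ×ˢ Icc 1 M)).card := by
    refine Finset.card_le_card_of_injOn (fun p => (φ p, (r p, e p))) ?_ ?_
    · intro p hp
      have hp' : p ∈ s := hp
      rw [mem_coe, mem_product, mem_product, mem_Icc, mem_Icc]
      exact ⟨mem_image_of_mem _ hp', abs_le.mp (hrΛ p hp'), he1 p hp', heM p hp'⟩
    · intro p hp p' hp' heq
      have hp1 : p ∈ s := hp
      have hp2 : p' ∈ s := hp'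
      simp only [Prod.mk.injEq] at heq
      obtain ⟨h1, h2, h3⟩ := heq
      have h4 : (t p).num = (t p').num ∧ ((t p).den : ℤ) = ((t p').den : ℤ) :=
        Prod.mk.injEq _ _ _ _ ▸ h1
      have a1 := hea p hp1
      have a2 := hea p' hp2
      have b1 := heb p hp1
      have b2 := heb p' hp2
      rw [h4.1, h4.2, h2, h3, ← a2] at a1
      rw [h4.1, h4.2, h2, h3, ← b2] at b1
      have he0 : ((e p' : ℕ) : ℤ) ≠ 0 := by
        have := he1 p' hp2
        exact_mod_cast (by omega : e p' ≠ 0)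
      exact Prod.ext (mul_right_cancel₀ (pow_ne_zero _ he0) a1)
        (mul_right_cancel₀ (pow_ne_zero _ he0) b1)
  rw [card_product, card_product, Int.card_Icc, Nat.card_Icc] at hinj
  have hcount : ((s.card : ℕ) : ℝ) ≤ ((s.image φ).card : ℝ) * W := by
    have h1 : (((Λ : ℤ) + 1 - -(Λ : ℤ)).toNat : ℝ) = 2 * (Λ : ℝ) + 1 := by
      have : ((Λ : ℤ) + 1 - -(Λ : ℤ)).toNat = 2 * Λ + 1 := by omega
      rw [this]
      push_cast
      ring
    have h2 : ((M + 1 - 1 : ℕ) : ℝ) = M := by simp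
    have h3 : ((s.card : ℕ) : ℝ) ≤ (((s.image φ).card * (((Λ : ℤ) + 1 - -(Λ : ℤ)).toNat *
        (M + 1 - 1)) : ℕ) : ℝ) := by exact_mod_cast hinj
    refine h3.trans (le_of_eq ?_)
    rw [hW, Nat.cast_mul, Nat.cast_mul, h1, h2]
  have hW0 : 0 ≤ W := by positivity
  have hZ0 : 0 ≤ Z := by linarith
  have hY00 : 0 ≤ Y0 := by linarith
  calc (s.card : ℝ) ≤ ((s.image φ).card : ℝ) * W := hcount
    _ ≤ (C * (((6 * M : ℕ) : ℝ) * (Y0 * Z)) ^ ε * R ^ ((2 : ℝ) / (L + 2 * w))) * W := by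
        gcongr
    _ = W * (C * ((6 * M : ℕ) * Y0) ^ ε) * Z ^ ε * R ^ ((2 : ℝ) / (L + 2 * w)) := by
        rw [← mul_assoc ((6 * M : ℕ) : ℝ) Y0 Z, Real.mul_rpow (by positivity) hZ0]
        ring

end Pool.Agent.TH498.KB
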