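import Pool.Agent.TH498.KB.Core2

/-!
# Families `y² + a₁(t) x y + a₃(t) y = x³ + a₂(t) x²`
-/

set_option autoImplicit false

namespace Pool.Agent.TH498.KB

open Finset Polynomial

noncomputable def c4p (a1 a2 a3 : ℤ[X]) : ℤ[X] := (a1 ^ 2 + 4 * a2) ^ 2 - 24 * (a1 * a3)

noncomputable def c6p (a1 a2 a3 : ℤ[X]) : ℤ[X] :=
  -(a1 ^ 2 + 4 * a2) ^ 3 + 36 * (a1 ^ 2 + 4 * a2) * (a1 * a3) - 216 * a3 ^ 2

noncomputable def Dp (a1 a2 a3 : ℤ[X]) : ℤ[X] :=
  a3 ^ 2 * (-(a1 ^ 2 + 4 * a2) ^ 2 * a2 - 8 * a1 ^ 3 * a3 - 27 * a3 ^ 2 +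
    9 * (a1 ^ 2 + 4 * a2) * (a1 * a3))

theorem disc_id (a1 a2 a3 : ℤ[X]) :
    4 * (27 * c4p a1 a2 a3) ^ 3 - 27 * (54 * c6p a1 a2 a3) ^ 2 = 136048896 * Dp a1 a2 a3 := by
  unfold c4p c6p Dp
  ring

theorem c_id (a1 a2 a3 : ℤ[X]) :
    c4p a1 a2 a3 ^ 3 - c6p a1 a2 a3 ^ 2 = 1728 * Dp a1 a2 a3 := by
  unfold c4p c6p Dp
  ring

theorem cert (p f U V : ℤ[X]) (N : ℕ) (hN : N ≠ 0) (h : U * p + V * f = (N : ℤ[X])) :
    IsCoprime (p.map (Int.castRingHom ℚ)) (f.map (Int.castRingHom ℚ)) := by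
  have h2 := congrArg (Polynomial.map (Int.castRingHom ℚ)) h
  simp only [Polynomial.map_add, Polynomial.map_mul, Polynomial.map_natCast] at h2
  refine ⟨C (1 / (N : ℚ)) * U.map (Int.castRingHom ℚ), C (1 / (N : ℚ)) * V.map (Int.castRingHom ℚ),
    ?_⟩
  have h3 : C (1 / (N : ℚ)) * U.map (Int.castRingHom ℚ) * p.map (Int.castRingHom ℚ) +
      C (1 / (N : ℚ)) * V.map (Int.castRingHom ℚ) * f.map (Int.castRingHom ℚ) =
      C (1 / (N : ℚ)) * (U.map (Int.castRingHom ℚ) * p.map (Int.castRingHom ℚ) +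
        V.map (Int.castRingHom ℚ) * f.map (Int.castRingHom ℚ)) := by ring
  have hN' : (N : ℚ) ≠ 0 := by exact_mod_cast hN
  rw [h3, h2, ← Polynomial.C_eq_natCast, ← C_mul, one_div_mul_cancel hN', C_1]

theorem fam_mk (a1 a2 a3 F G Fd U V : ℤ[X]) (k w L N : ℕ) (g : Fin w → ℤ[X]) (n : Fin w → ℕ)
    (h : Fin L → ℤ[X]) (hk : 1 ≤ k) (h1 : a1.natDegree ≤ k) (h2 : a2.natDegree ≤ 2 * k)
    (h3 : a3.natDegree ≤ 3 * k) (hc4 : (c4p a1 a2 a3).natDegree = 4 * k) (hL : L ≠ 1)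
    (hwL : 1 ≤ w + L) (hg : ∀ j, (g j).natDegree ≤ n j ∧ 2 ≤ n j) (hh : ∀ i, (h i).natDegree ≤ 1)
    (hF : (∏ j, g j) * ∏ i, h i = F) (hdeg : ∑ j, n j + L ≤ F.natDegree + 1)
    (hFd : derivative F = Fd) (hN : N ≠ 0) (hsep : U * F + V * Fd = (N : ℤ[X]))
    (hFG : F * G = Dp a1 a2 a3) (hG : G.natDegree + (∑ j, n j + L) ≤ 12 * k)
    (hcop : IsCoprime ((c4p a1 a2 a3).map (Int.castRingHom ℚ))
      ((Dp a1 a2 a3).map (Int.castRingHom ℚ))) :
    Fam (27 * c4p a1 a2 a3) (54 * c6p a1 a2 a3) k w L := by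
  have hCn : ∀ (m : ℕ) (p : ℤ[X]), m ≠ 0 → ((m : ℤ[X]) * p).natDegree = p.natDegree := by
    intro m p hm
    rw [← Polynomial.C_eq_natCast]
    exact natDegree_C_mul (by exact_mod_cast hm)
  have hA : (27 * c4p a1 a2 a3).natDegree = 4 * k := by
    have := hCn 27 (c4p a1 a2 a3) (by norm_num)
    push_cast at this
    rw [this, hc4]
  have hc6 : (c6p a1 a2 a3).natDegree ≤ 6 * k := by
    have hb : (a1 ^ 2 + 4 * a2).natDegree ≤ 2 * k := by
      refine (natDegree_add_le _ _).trans (max_le ?_ ?_)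
      · exact natDegree_pow_le.trans (Nat.mul_le_mul_left 2 h1)
      · have := hCn 4 a2 (by norm_num)
        push_cast at this
        rw [this]
        exact h2
    unfold c6p
    refine (natDegree_sub_le _ _).trans (max_le ((natDegree_add_le _ _).trans (max_le ?_ ?_)) ?_)
    · rw [natDegree_neg]
      exact natDegree_pow_le.trans (by nlinarith)
    · have := hCn 36 ((a1 ^ 2 + 4 * a2) * (a1 * a3)) (by norm_num)
      push_cast at this
      rw [mul_assoc, this]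
      refine natDegree_mul_le.trans ((add_le_add hb (natDegree_mul_le.trans
        (add_le_add h1 h3))).trans (by omega))
    · have := hCn 216 (a3 ^ 2) (by norm_num)
      push_cast at this
      rw [this]
      exact natDegree_pow_le.trans (by nlinarith)
  refine ⟨hk, hA.le, ?_, Or.inl hA, ?_, hL, hwL, g, n, h, 136048896 * G, hg, hh, ?_, ?_, ?_, ?_⟩
  · have := hCn 54 (c6p a1 a2 a3) (by norm_num)
    push_cast at this
    rw [this]
    exact hc6
  · -- coprimality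
    set φ := Int.castRingHom ℚ with hφ
    obtain ⟨x, y, hxy⟩ := hcop
    have e1 := congrArg (Polynomial.map φ) (c_id a1 a2 a3)
    simp only [Polynomial.map_sub, Polynomial.map_mul, Polynomial.map_pow,
      Polynomial.map_ofNat] at e1
    simp only [Polynomial.map_mul, Polynomial.map_ofNat]
    have e2 : IsCoprime ((c4p a1 a2 a3).map φ) ((c6p a1 a2 a3).map φ) := by
      have e3 : IsCoprime ((c4p a1 a2 a3).map φ) ((c6p a1 a2 a3).map φ ^ 2) := by
        refine ⟨x + y * C (1 / 1728) * (c4p a1 a2 a3).map φ ^ 2, -(y * C (1 / 1728)), ?_⟩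
        have e4 : (Dp a1 a2 a3).map φ = C (1 / 1728) * ((c4p a1 a2 a3).map φ ^ 3 -
            (c6p a1 a2 a3).map φ ^ 2) := by
          have h1728 : (1728 : ℚ[X]) = C 1728 := rfl
          rw [e1, h1728, ← mul_assoc, ← C_mul]
          norm_num
        rw [e4] at hxy
        linear_combination hxy
      exact (IsCoprime.pow_right_iff (by norm_num)).mp e3
    have u1 : IsUnit (27 : ℚ[X]) := by
      have : (27 : ℚ[X]) = C 27 := rfl
      rw [this, isUnit_C]
      norm_num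
    have u2 : IsUnit (54 : ℚ[X]) := by
      have : (54 : ℚ[X]) = C 54 := rfl
      rw [this, isUnit_C]
      norm_num
    rw [isCoprime_mul_unit_left_left u1, isCoprime_mul_unit_left_right u2]
    exact e2
  · rw [hF]
    have h4 := cert F Fd U V N hN hsep
    rw [← hFd, ← derivative_map] at h4
    exact Separable.squarefree h4
  · rw [hF]
    exact hdeg
  · rw [hF, disc_id, ← hFG]
    ring
  · have := hCn 136048896 G (by norm_num)
    push_cast at this
    rw [this]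
    exact hG

end Pool.Agent.TH498.KB
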