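import Pool.Agent.TH498.KB.Kub

/-!
# Kubert's families
-/

set_option autoImplicit false
set_option maxHeartbeats 4000000

namespace Pool.Agent.TH498.KB

open Finset Polynomial

noncomputable def a1_z5 : ℤ[X] := 1 - X
noncomputable def a2_z5 : ℤ[X] := -X
noncomputable def a3_z5 : ℤ[X] := -X

theorem c4_z5 : c4p a1_z5 a2_z5 a3_z5 =
    X ^ 4 - 12 * X ^ 3 + 14 * X ^ 2 + 12 * X + 1 := by
  unfold c4p a1_z5 a2_z5 a3_z5
  ring

theorem D_z5 : Dp a1_z5 a2_z5 a3_z5 =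
    X ^ 5 * (X ^ 2 - 11 * X - 1) := by
  unfold Dp a1_z5 a2_z5 a3_z5
  ring

theorem fam_z5 : Fam (27 * c4p a1_z5 a2_z5 a3_z5) (54 * c6p a1_z5 a2_z5 a3_z5)
    1 1 2 := by
  have c4e := c4_z5
  have De := D_z5
  have k0 : IsCoprime ((c4p a1_z5 a2_z5 a3_z5).map (Int.castRingHom ℚ))
      ((X : ℤ[X]).map (Int.castRingHom ℚ)) :=
    cert _ _ (1) (-X ^ 3 + 12 * X ^ 2 - 14 * X - 12) 1 (by norm_num) (by
      rw [c4e]; push_cast; ring)
  have k1 : IsCoprime ((c4p a1_z5 a2_z5 a3_z5).map (Int.castRingHom ℚ))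
      ((X ^ 2 - 11 * X - 1 : ℤ[X]).map (Int.castRingHom ℚ)) :=
    cert _ _ (-11 * X + 122) (11 * X ^ 3 - 133 * X ^ 2 + 166 * X + 117) 5 (by norm_num) (by
      rw [c4e]; push_cast; ring)
  have hcop : IsCoprime ((c4p a1_z5 a2_z5 a3_z5).map (Int.castRingHom ℚ))
      ((Dp a1_z5 a2_z5 a3_z5).map (Int.castRingHom ℚ)) := by
    rw [De]
    simp only [Polynomial.map_mul, Polynomial.map_pow]
    exact IsCoprime.mul_right (k0.pow_right) (k1)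
  refine fam_mk a1_z5 a2_z5 a3_z5 (X ^ 3 - 11 * X ^ 2 - X)
    (X ^ 4) (3 * X ^ 2 - 22 * X - 1)
    (-744 * X + 5489)
    (248 * X ^ 2 - 2739 * X - 125) 1 1 2 125
    ![X ^ 2 - 11 * X - 1] ![2]
    ![X, 1]
    (by norm_num) ?_ ?_ ?_ ?_ (by norm_num) (by norm_num) ?_ ?_ ?_ ?_ ?_ (by norm_num) ?_ ?_ ?_ hcop
  · unfold a1_z5; compute_degree <;> norm_num
  · unfold a2_z5; compute_degree <;> norm_num
  · unfold a3_z5; compute_degree <;> norm_num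
  · rw [c4e]; compute_degree!
  · intro j
    fin_cases j <;> refine ⟨?_, by norm_num⟩ <;> simp <;> compute_degree <;> norm_num
  · intro j
    fin_cases j <;> simp <;> compute_degree <;> norm_num
  · simp [Fin.prod_univ_succ] <;> ring
  · have : (X ^ 3 - 11 * X ^ 2 - X : ℤ[X]).natDegree = 3 := by compute_degree!
    rw [this]
    decide
  · simp <;> ring
  · push_cast; ring
  · rw [De]; ring
  · have : (X ^ 4 : ℤ[X]).natDegree ≤ 8 := by compute_degree <;> norm_num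
    refine (Nat.add_le_add_right this _).trans ?_
    decide

noncomputable def a1_z6 : ℤ[X] := 1 - X
noncomputable def a2_z6 : ℤ[X] := -(X ^ 2 + X)
noncomputable def a3_z6 : ℤ[X] := -(X ^ 2 + X)

theorem c4_z6 : c4p a1_z6 a2_z6 a3_z6 =
    9 * X ^ 4 + 12 * X ^ 3 + 30 * X ^ 2 + 12 * X + 1 := by
  unfold c4p a1_z6 a2_z6 a3_z6
  ring

theorem D_z6 : Dp a1_z6 a2_z6 a3_z6 =
    X ^ 6 * (X + 1) ^ 3 * (9 * X + 1) := by
  unfold Dp a1_z6 a2_z6 a3_z6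
  ring

theorem fam_z6 : Fam (27 * c4p a1_z6 a2_z6 a3_z6) (54 * c6p a1_z6 a2_z6 a3_z6)
    1 0 4 := by
  have c4e := c4_z6
  have De := D_z6
  have k0 : IsCoprime ((c4p a1_z6 a2_z6 a3_z6).map (Int.castRingHom ℚ))
      ((X : ℤ[X]).map (Int.castRingHom ℚ)) :=
    cert _ _ (1) (-9 * X ^ 3 - 12 * X ^ 2 - 30 * X - 12) 1 (by norm_num) (by
      rw [c4e]; push_cast; ring)
  have k1 : IsCoprime ((c4p a1_z6 a2_z6 a3_z6).map (Int.castRingHom ℚ))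
      ((X + 1 : ℤ[X]).map (Int.castRingHom ℚ)) :=
    cert _ _ (1) (-9 * X ^ 3 - 3 * X ^ 2 - 27 * X + 15) 16 (by norm_num) (by
      rw [c4e]; push_cast; ring)
  have k2 : IsCoprime ((c4p a1_z6 a2_z6 a3_z6).map (Int.castRingHom ℚ))
      ((9 * X + 1 : ℤ[X]).map (Int.castRingHom ℚ)) :=
    cert _ _ (729) (-729 * X ^ 3 - 891 * X ^ 2 - 2331 * X - 713) 16 (by norm_num) (by
      rw [c4e]; push_cast; ring)
  have hcop : IsCoprime ((c4p a1_z6 a2_z6 a3_z6).map (Int.castRingHom ℚ))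
      ((Dp a1_z6 a2_z6 a3_z6).map (Int.castRingHom ℚ)) := by
    rw [De]
    simp only [Polynomial.map_mul, Polynomial.map_pow]
    exact IsCoprime.mul_right (IsCoprime.mul_right (k0.pow_right) (k1.pow_right)) (k2)
  refine fam_mk a1_z6 a2_z6 a3_z6 (9 * X ^ 3 + 10 * X ^ 2 + X)
    (X ^ 5 * (X + 1) ^ 2) (27 * X ^ 2 + 20 * X + 1)
    (-1971 * X - 1325)
    (657 * X ^ 2 + 685 * X + 32) 1 0 4 32
    ![] ![]
    ![X, X + 1, 9 * X + 1, 1]
    (by norm_num) ?_ ?_ ?_ ?_ (by norm_num) (by norm_num) ?_ ?_ ?_ ?_ ?_ (by norm_num) ?_ ?_ ?_ hcop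
  · unfold a1_z6; compute_degree <;> norm_num
  · unfold a2_z6; compute_degree <;> norm_num
  · unfold a3_z6; compute_degree <;> norm_num
  · rw [c4e]; compute_degree!
  · intro j; exact j.elim0
  · intro j
    fin_cases j <;> simp <;> compute_degree <;> norm_num
  · simp [Fin.prod_univ_succ] <;> ring
  · have : (9 * X ^ 3 + 10 * X ^ 2 + X : ℤ[X]).natDegree = 3 := by compute_degree!
    rw [this]
    decide
  · simp <;> ring
  · push_cast; ring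
  · rw [De]; ring
  · have : (X ^ 5 * (X + 1) ^ 2 : ℤ[X]).natDegree ≤ 8 := by compute_degree <;> norm_num
    refine (Nat.add_le_add_right this _).trans ?_
    decide

noncomputable def a1_z7 : ℤ[X] := 1 + X - X ^ 2
noncomputable def a2_z7 : ℤ[X] := -(X ^ 2 * (X - 1))
noncomputable def a3_z7 : ℤ[X] := -(X ^ 2 * (X - 1))

theorem c4_z7 : c4p a1_z7 a2_z7 a3_z7 =
    X ^ 8 - 12 * X ^ 7 + 42 * X ^ 6 - 56 * X ^ 5 + 35 * X ^ 4 - 14 * X ^ 2 + 4 * X + 1 := by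
  unfold c4p a1_z7 a2_z7 a3_z7
  ring

theorem D_z7 : Dp a1_z7 a2_z7 a3_z7 =
    X ^ 7 * (X - 1) ^ 7 * (X ^ 3 - 8 * X ^ 2 + 5 * X + 1) := by
  unfold Dp a1_z7 a2_z7 a3_z7
  ring

theorem fam_z7 : Fam (27 * c4p a1_z7 a2_z7 a3_z7) (54 * c6p a1_z7 a2_z7 a3_z7)
    2 1 3 := by
  have c4e := c4_z7
  have De := D_z7
  have k0 : IsCoprime ((c4p a1_z7 a2_z7 a3_z7).map (Int.castRingHom ℚ))
      ((X : ℤ[X]).map (Int.castRingHom ℚ)) :=
    cert _ _ (1) (-X ^ 7 + 12 * X ^ 6 - 42 * X ^ 5 + 56 * X ^ 4 - 35 * X ^ 3 + 14 * X - 4) 1 (by norm_num) (by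
      rw [c4e]; push_cast; ring)
  have k1 : IsCoprime ((c4p a1_z7 a2_z7 a3_z7).map (Int.castRingHom ℚ))
      ((X - 1 : ℤ[X]).map (Int.castRingHom ℚ)) :=
    cert _ _ (1) (-X ^ 7 + 11 * X ^ 6 - 31 * X ^ 5 + 25 * X ^ 4 - 10 * X ^ 3 - 10 * X ^ 2 + 4 * X) 1 (by norm_num) (by
      rw [c4e]; push_cast; ring)
  have k2 : IsCoprime ((c4p a1_z7 a2_z7 a3_z7).map (Int.castRingHom ℚ))
      ((X ^ 3 - 8 * X ^ 2 + 5 * X + 1 : ℤ[X]).map (Int.castRingHom ℚ)) :=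
    cert _ _ (-444 * X ^ 2 + 3005 * X + 1710) (444 * X ^ 7 - 4781 * X ^ 6 + 12530 * X ^ 5 - 6853 * X ^ 4 - 693 * X ^ 3 + 6776 * X ^ 2 - 1540 * X - 1661) 49 (by norm_num) (by
      rw [c4e]; push_cast; ring)
  have hcop : IsCoprime ((c4p a1_z7 a2_z7 a3_z7).map (Int.castRingHom ℚ))
      ((Dp a1_z7 a2_z7 a3_z7).map (Int.castRingHom ℚ)) := by
    rw [De]
    simp only [Polynomial.map_mul, Polynomial.map_pow]
    exact IsCoprime.mul_right (IsCoprime.mul_right (k0.pow_right) (k1.pow_right)) (k2)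
  refine fam_mk a1_z7 a2_z7 a3_z7 (X ^ 5 - 9 * X ^ 4 + 13 * X ^ 3 - 4 * X ^ 2 - X)
    (X ^ 6 * (X - 1) ^ 6) (5 * X ^ 4 - 36 * X ^ 3 + 39 * X ^ 2 - 8 * X - 1)
    (-1020 * X ^ 3 + 6769 * X ^ 2 - 4366 * X + 602)
    (204 * X ^ 4 - 1721 * X ^ 3 + 1727 * X ^ 2 - 210 * X - 49) 2 1 3 49
    ![X ^ 3 - 8 * X ^ 2 + 5 * X + 1] ![3]
    ![X, X - 1, 1]
    (by norm_num) ?_ ?_ ?_ ?_ (by norm_num) (by norm_num) ?_ ?_ ?_ ?_ ?_ (by norm_num) ?_ ?_ ?_ hcop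
  · unfold a1_z7; compute_degree <;> norm_num
  · unfold a2_z7; compute_degree <;> norm_num
  · unfold a3_z7; compute_degree <;> norm_num
  · rw [c4e]; compute_degree!
  · intro j
    fin_cases j <;> refine ⟨?_, by norm_num⟩ <;> simp <;> compute_degree <;> norm_num
  · intro j
    fin_cases j <;> simp <;> compute_degree <;> norm_num
  · simp [Fin.prod_univ_succ] <;> ring
  · have : (X ^ 5 - 9 * X ^ 4 + 13 * X ^ 3 - 4 * X ^ 2 - X : ℤ[X]).natDegree = 5 := by compute_degree!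
    rw [this]
    decide
  · simp <;> ring
  · push_cast; ring
  · rw [De]; ring
  · have : (X ^ 6 * (X - 1) ^ 6 : ℤ[X]).natDegree ≤ 18 := by compute_degree <;> norm_num
    refine (Nat.add_le_add_right this _).trans ?_
    decide

noncomputable def a1_z8 : ℤ[X] := X - (2 * X - 1) * (X - 1)
noncomputable def a2_z8 : ℤ[X] := -((2 * X - 1) * (X - 1) * X ^ 2)
noncomputable def a3_z8 : ℤ[X] := -((2 * X - 1) * (X - 1) * X ^ 3)

theorem c4_z8 : c4p a1_z8 a2_z8 a3_z8 =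
    16 * X ^ 8 - 64 * X ^ 7 + 224 * X ^ 6 - 448 * X ^ 5 + 480 * X ^ 4 - 288 * X ^ 3 + 96 * X ^ 2 - 16 * X + 1 := by
  unfold c4p a1_z8 a2_z8 a3_z8
  ring

theorem D_z8 : Dp a1_z8 a2_z8 a3_z8 =
    X ^ 8 * (X - 1) ^ 8 * (2 * X - 1) ^ 4 * (8 * X ^ 2 - 8 * X + 1) := by
  unfold Dp a1_z8 a2_z8 a3_z8
  ring

theorem fam_z8 : Fam (27 * c4p a1_z8 a2_z8 a3_z8) (54 * c6p a1_z8 a2_z8 a3_z8)
    2 1 4 := by
  have c4e := c4_z8
  have De := D_z8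
  have k0 : IsCoprime ((c4p a1_z8 a2_z8 a3_z8).map (Int.castRingHom ℚ))
      ((X : ℤ[X]).map (Int.castRingHom ℚ)) :=
    cert _ _ (1) (-16 * X ^ 7 + 64 * X ^ 6 - 224 * X ^ 5 + 448 * X ^ 4 - 480 * X ^ 3 + 288 * X ^ 2 - 96 * X + 16) 1 (by norm_num) (by
      rw [c4e]; push_cast; ring)
  have k1 : IsCoprime ((c4p a1_z8 a2_z8 a3_z8).map (Int.castRingHom ℚ))
      ((X - 1 : ℤ[X]).map (Int.castRingHom ℚ)) :=
    cert _ _ (1) (-16 * X ^ 7 + 48 * X ^ 6 - 176 * X ^ 5 + 272 * X ^ 4 - 208 * X ^ 3 + 80 * X ^ 2 - 16 * X) 1 (by norm_num) (by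
      rw [c4e]; push_cast; ring)
  have k2 : IsCoprime ((c4p a1_z8 a2_z8 a3_z8).map (Int.castRingHom ℚ))
      ((2 * X - 1 : ℤ[X]).map (Int.castRingHom ℚ)) :=
    cert _ _ (16) (-128 * X ^ 7 + 448 * X ^ 6 - 1568 * X ^ 5 + 2800 * X ^ 4 - 2440 * X ^ 3 + 1084 * X ^ 2 - 226 * X + 15) 1 (by norm_num) (by
      rw [c4e]; push_cast; ring)
  have k3 : IsCoprime ((c4p a1_z8 a2_z8 a3_z8).map (Int.castRingHom ℚ))
      ((8 * X ^ 2 - 8 * X + 1 : ℤ[X]).map (Int.castRingHom ℚ)) :=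
    cert _ _ (256) (-512 * X ^ 6 + 1536 * X ^ 5 - 5568 * X ^ 4 + 8576 * X ^ 3 - 6088 * X ^ 2 + 2056 * X - 255) 1 (by norm_num) (by
      rw [c4e]; push_cast; ring)
  have hcop : IsCoprime ((c4p a1_z8 a2_z8 a3_z8).map (Int.castRingHom ℚ))
      ((Dp a1_z8 a2_z8 a3_z8).map (Int.castRingHom ℚ)) := by
    rw [De]
    simp only [Polynomial.map_mul, Polynomial.map_pow]
    exact IsCoprime.mul_right (IsCoprime.mul_right (IsCoprime.mul_right (k0.pow_right) (k1.pow_right)) (k2.pow_right)) (k3)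
  refine fam_mk a1_z8 a2_z8 a3_z8 (16 * X ^ 5 - 40 * X ^ 4 + 34 * X ^ 3 - 11 * X ^ 2 + X)
    (X ^ 7 * (X - 1) ^ 7 * (2 * X - 1) ^ 3) (80 * X ^ 4 - 160 * X ^ 3 + 102 * X ^ 2 - 22 * X + 1)
    (-1120 * X ^ 3 + 1680 * X ^ 2 - 708 * X + 74)
    (224 * X ^ 4 - 448 * X ^ 3 + 276 * X ^ 2 - 52 * X + 1) 2 1 4 1
    ![8 * X ^ 2 - 8 * X + 1] ![2]
    ![X, X - 1, 2 * X - 1, 1]
    (by norm_num) ?_ ?_ ?_ ?_ (by norm_num) (by norm_num) ?_ ?_ ?_ ?_ ?_ (by norm_num) ?_ ?_ ?_ hcop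
  · unfold a1_z8; compute_degree <;> norm_num
  · unfold a2_z8; compute_degree <;> norm_num
  · unfold a3_z8; compute_degree <;> norm_num
  · rw [c4e]; compute_degree!
  · intro j
    fin_cases j <;> refine ⟨?_, by norm_num⟩ <;> simp <;> compute_degree <;> norm_num
  · intro j
    fin_cases j <;> simp <;> compute_degree <;> norm_num
  · simp [Fin.prod_univ_succ] <;> ring
  · have : (16 * X ^ 5 - 40 * X ^ 4 + 34 * X ^ 3 - 11 * X ^ 2 + X : ℤ[X]).natDegree = 5 := by compute_degree!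
    rw [this]
    decide
  · simp <;> ring
  · push_cast; ring
  · rw [De]; ring
  · have : (X ^ 7 * (X - 1) ^ 7 * (2 * X - 1) ^ 3 : ℤ[X]).natDegree ≤ 18 := by compute_degree <;> norm_num
    refine (Nat.add_le_add_right this _).trans ?_
    decide

noncomputable def a1_z2x4 : ℤ[X] := 4
noncomputable def a2_z2x4 : ℤ[X] := 1 - X ^ 2
noncomputable def a3_z2x4 : ℤ[X] := 4 * (1 - X ^ 2)

theorem c4_z2x4 : c4p a1_z2x4 a2_z2x4 a3_z2x4 =
    16 * X ^ 4 + 224 * X ^ 2 + 16 := by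
  unfold c4p a1_z2x4 a2_z2x4 a3_z2x4
  ring

theorem D_z2x4 : Dp a1_z2x4 a2_z2x4 a3_z2x4 =
    256 * X ^ 2 * (X - 1) ^ 4 * (X + 1) ^ 4 := by
  unfold Dp a1_z2x4 a2_z2x4 a3_z2x4
  ring

theorem fam_z2x4 : Fam (27 * c4p a1_z2x4 a2_z2x4 a3_z2x4) (54 * c6p a1_z2x4 a2_z2x4 a3_z2x4)
    1 0 4 := by
  have c4e := c4_z2x4
  have De := D_z2x4
  have k0 : IsCoprime ((c4p a1_z2x4 a2_z2x4 a3_z2x4).map (Int.castRingHom ℚ))
      ((X : ℤ[X]).map (Int.castRingHom ℚ)) :=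
    cert _ _ (1) (-16 * X ^ 3 - 224 * X) 16 (by norm_num) (by
      rw [c4e]; push_cast; ring)
  have k1 : IsCoprime ((c4p a1_z2x4 a2_z2x4 a3_z2x4).map (Int.castRingHom ℚ))
      ((X - 1 : ℤ[X]).map (Int.castRingHom ℚ)) :=
    cert _ _ (1) (-16 * X ^ 3 - 16 * X ^ 2 - 240 * X - 240) 256 (by norm_num) (by
      rw [c4e]; push_cast; ring)
  have k2 : IsCoprime ((c4p a1_z2x4 a2_z2x4 a3_z2x4).map (Int.castRingHom ℚ))
      ((X + 1 : ℤ[X]).map (Int.castRingHom ℚ)) :=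
    cert _ _ (1) (-16 * X ^ 3 + 16 * X ^ 2 - 240 * X + 240) 256 (by norm_num) (by
      rw [c4e]; push_cast; ring)
  have kc : IsCoprime ((c4p a1_z2x4 a2_z2x4 a3_z2x4).map (Int.castRingHom ℚ))
      ((256 : ℤ[X]).map (Int.castRingHom ℚ)) :=
    cert _ _ 0 1 256 (by norm_num) (by push_cast; ring)
  have hcop : IsCoprime ((c4p a1_z2x4 a2_z2x4 a3_z2x4).map (Int.castRingHom ℚ))
      ((Dp a1_z2x4 a2_z2x4 a3_z2x4).map (Int.castRingHom ℚ)) := by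
    rw [De]
    simp only [Polynomial.map_mul, Polynomial.map_pow]
    exact IsCoprime.mul_right (IsCoprime.mul_right (IsCoprime.mul_right (kc) (k0.pow_right)) (k1.pow_right)) (k2.pow_right)
  refine fam_mk a1_z2x4 a2_z2x4 a3_z2x4 (X ^ 3 - X)
    (256 * X ^ 1 * (X - 1) ^ 3 * (X + 1) ^ 3) (3 * X ^ 2 - 1)
    (-9 * X)
    (3 * X ^ 2 - 2) 1 0 4 2
    ![] ![]
    ![X, X - 1, X + 1, 1]
    (by norm_num) ?_ ?_ ?_ ?_ (by norm_num) (by norm_num) ?_ ?_ ?_ ?_ ?_ (by norm_num) ?_ ?_ ?_ hcop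
  · unfold a1_z2x4; compute_degree <;> norm_num
  · unfold a2_z2x4; compute_degree <;> norm_num
  · unfold a3_z2x4; compute_degree <;> norm_num
  · rw [c4e]; compute_degree!
  · intro j; exact j.elim0
  · intro j
    fin_cases j <;> simp <;> compute_degree <;> norm_num
  · simp [Fin.prod_univ_succ] <;> ring
  · have : (X ^ 3 - X : ℤ[X]).natDegree = 3 := by compute_degree!
    rw [this]
    decide
  · simp <;> ring
  · push_cast; ring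
  · rw [De]; ring
  · have : (256 * X ^ 1 * (X - 1) ^ 3 * (X + 1) ^ 3 : ℤ[X]).natDegree ≤ 8 := by compute_degree <;> norm_num
    refine (Nat.add_le_add_right this _).trans ?_
    decide

end Pool.Agent.TH498.KB
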