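import Pool.Agent.TH498.KB.Kub

/-!
# Kubert's families
-/

set_option autoImplicit false
set_option maxHeartbeats 4000000

namespace Pool.Agent.TH498.KB

open Finset Polynomial

noncomputable def a1_z9 : ℤ[X] := 1 - X ^ 2 * (X - 1)
noncomputable def a2_z9 : ℤ[X] := -(X ^ 2 * (X - 1) * (X ^ 2 - X + 1))
noncomputable def a3_z9 : ℤ[X] := -(X ^ 2 * (X - 1) * (X ^ 2 - X + 1))

theorem c4_z9 : c4p a1_z9 a2_z9 a3_z9 =
    X ^ 12 - 12 * X ^ 11 + 54 * X ^ 10 - 128 * X ^ 9 + 189 * X ^ 8 - 180 * X ^ 7 + 114 * X ^ 6 - 36 * X ^ 5 - 18 * X ^ 4 + 28 * X ^ 3 - 12 * X ^ 2 + 1 := by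
  unfold c4p a1_z9 a2_z9 a3_z9
  ring

theorem D_z9 : Dp a1_z9 a2_z9 a3_z9 =
    X ^ 9 * (X - 1) ^ 9 * (X ^ 2 - X + 1) ^ 3 * (X ^ 3 - 6 * X ^ 2 + 3 * X + 1) := by
  unfold Dp a1_z9 a2_z9 a3_z9
  ring

theorem fam_z9 : Fam (27 * c4p a1_z9 a2_z9 a3_z9) (54 * c6p a1_z9 a2_z9 a3_z9)
    3 2 3 := by
  have c4e := c4_z9
  have De := D_z9
  have k0 : IsCoprime ((c4p a1_z9 a2_z9 a3_z9).map (Int.castRingHom ℚ))
      ((X : ℤ[X]).map (Int.castRingHom ℚ)) :=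
    cert _ _ (1) (-X ^ 11 + 12 * X ^ 10 - 54 * X ^ 9 + 128 * X ^ 8 - 189 * X ^ 7 + 180 * X ^ 6 - 114 * X ^ 5 + 36 * X ^ 4 + 18 * X ^ 3 - 28 * X ^ 2 + 12 * X) 1 (by norm_num) (by
      rw [c4e]; push_cast; ring)
  have k1 : IsCoprime ((c4p a1_z9 a2_z9 a3_z9).map (Int.castRingHom ℚ))
      ((X - 1 : ℤ[X]).map (Int.castRingHom ℚ)) :=
    cert _ _ (1) (-X ^ 11 + 11 * X ^ 10 - 43 * X ^ 9 + 85 * X ^ 8 - 104 * X ^ 7 + 76 * X ^ 6 - 38 * X ^ 5 - 2 * X ^ 4 + 16 * X ^ 3 - 12 * X ^ 2) 1 (by norm_num) (by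
      rw [c4e]; push_cast; ring)
  have k2 : IsCoprime ((c4p a1_z9 a2_z9 a3_z9).map (Int.castRingHom ℚ))
      ((X ^ 2 - X + 1 : ℤ[X]).map (Int.castRingHom ℚ)) :=
    cert _ _ (-X) (X ^ 11 - 11 * X ^ 10 + 42 * X ^ 9 - 75 * X ^ 8 + 72 * X ^ 7 - 33 * X ^ 6 + 9 * X ^ 5 + 6 * X ^ 4 - 21 * X ^ 3 + X ^ 2 + 10 * X + 9) 9 (by norm_num) (by
      rw [c4e]; push_cast; ring)
  have k3 : IsCoprime ((c4p a1_z9 a2_z9 a3_z9).map (Int.castRingHom ℚ))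
      ((X ^ 3 - 6 * X ^ 2 + 3 * X + 1 : ℤ[X]).map (Int.castRingHom ℚ)) :=
    cert _ _ (-377 * X ^ 2 + 1925 * X + 623) (377 * X ^ 11 - 4187 * X ^ 10 + 16582 * X ^ 9 - 33054 * X ^ 8 + 40128 * X ^ 7 - 28593 * X ^ 6 + 12843 * X ^ 5 + 1827 * X ^ 4 - 7482 * X ^ 3 + 4418 * X ^ 2 - 83 * X - 614) 9 (by norm_num) (by
      rw [c4e]; push_cast; ring)
  have hcop : IsCoprime ((c4p a1_z9 a2_z9 a3_z9).map (Int.castRingHom ℚ))
      ((Dp a1_z9 a2_z9 a3_z9).map (Int.castRingHom ℚ)) := by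
    rw [De]
    simp only [Polynomial.map_mul, Polynomial.map_pow]
    exact IsCoprime.mul_right (IsCoprime.mul_right (IsCoprime.mul_right (k0.pow_right) (k1.pow_right)) (k2.pow_right)) (k3)
  refine fam_mk a1_z9 a2_z9 a3_z9 (X ^ 7 - 8 * X ^ 6 + 17 * X ^ 5 - 18 * X ^ 4 + 10 * X ^ 3 - X ^ 2 - X)
    (X ^ 8 * (X - 1) ^ 8 * (X ^ 2 - X + 1) ^ 2) (7 * X ^ 6 - 48 * X ^ 5 + 85 * X ^ 4 - 72 * X ^ 3 + 30 * X ^ 2 - 2 * X - 1)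
    (-8302 * X ^ 5 + 51601 * X ^ 4 - 69056 * X ^ 3 + 49271 * X ^ 2 - 13832 * X - 56)
    (1186 * X ^ 6 - 8727 * X ^ 5 + 14756 * X ^ 4 - 13271 * X ^ 3 + 5514 * X ^ 2 + 542 * X - 243) 3 2 3 243
    ![X ^ 2 - X + 1, X ^ 3 - 6 * X ^ 2 + 3 * X + 1] ![2, 3]
    ![X, X - 1, 1]
    (by norm_num) ?_ ?_ ?_ ?_ (by norm_num) (by norm_num) ?_ ?_ ?_ ?_ ?_ (by norm_num) ?_ ?_ ?_ hcop
  · unfold a1_z9; compute_degree <;> norm_num
  · unfold a2_z9; compute_degree <;> norm_num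
  · unfold a3_z9; compute_degree <;> norm_num
  · rw [c4e]; compute_degree!
  · intro j
    fin_cases j <;> refine ⟨?_, by norm_num⟩ <;> simp <;> compute_degree <;> norm_num
  · intro j
    fin_cases j <;> simp <;> compute_degree <;> norm_num
  · simp [Fin.prod_univ_succ] <;> ring
  · have : (X ^ 7 - 8 * X ^ 6 + 17 * X ^ 5 - 18 * X ^ 4 + 10 * X ^ 3 - X ^ 2 - X : ℤ[X]).natDegree = 7 := by compute_degree!
    rw [this]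
    decide
  · simp <;> ring
  · push_cast; ring
  · rw [De]; ring
  · have : (X ^ 8 * (X - 1) ^ 8 * (X ^ 2 - X + 1) ^ 2 : ℤ[X]).natDegree ≤ 28 := by compute_degree <;> norm_num
    refine (Nat.add_le_add_right this _).trans ?_
    decide

noncomputable def a1_z10 : ℤ[X] := -X ^ 2 + 3 * X - 1 - X * (2 * X - 1) * (X - 1)
noncomputable def a2_z10 : ℤ[X] := -(X ^ 3 * (2 * X - 1) * (X - 1))
noncomputable def a3_z10 : ℤ[X] := -(X ^ 3 * (2 * X - 1) * (X - 1) * (-X ^ 2 + 3 * X - 1))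

theorem c4_z10 : c4p a1_z10 a2_z10 a3_z10 =
    16 * X ^ 12 - 128 * X ^ 11 + 416 * X ^ 10 - 720 * X ^ 9 + 720 * X ^ 8 - 288 * X ^ 7 - 256 * X ^ 6 + 432 * X ^ 5 - 240 * X ^ 4 + 40 * X ^ 3 + 16 * X ^ 2 - 8 * X + 1 := by
  unfold c4p a1_z10 a2_z10 a3_z10
  ring

theorem D_z10 : Dp a1_z10 a2_z10 a3_z10 =
    X ^ 10 * (X - 1) ^ 10 * (2 * X - 1) ^ 5 * (X ^ 2 - 3 * X + 1) ^ 2 * (4 * X ^ 2 - 2 * X - 1) := by
  unfold Dp a1_z10 a2_z10 a3_z10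
  ring

theorem fam_z10 : Fam (27 * c4p a1_z10 a2_z10 a3_z10) (54 * c6p a1_z10 a2_z10 a3_z10)
    3 2 4 := by
  have c4e := c4_z10
  have De := D_z10
  have k0 : IsCoprime ((c4p a1_z10 a2_z10 a3_z10).map (Int.castRingHom ℚ))
      ((X : ℤ[X]).map (Int.castRingHom ℚ)) :=
    cert _ _ (1) (-16 * X ^ 11 + 128 * X ^ 10 - 416 * X ^ 9 + 720 * X ^ 8 - 720 * X ^ 7 + 288 * X ^ 6 + 256 * X ^ 5 - 432 * X ^ 4 + 240 * X ^ 3 - 40 * X ^ 2 - 16 * X + 8) 1 (by norm_num) (by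
      rw [c4e]; push_cast; ring)
  have k1 : IsCoprime ((c4p a1_z10 a2_z10 a3_z10).map (Int.castRingHom ℚ))
      ((X - 1 : ℤ[X]).map (Int.castRingHom ℚ)) :=
    cert _ _ (1) (-16 * X ^ 11 + 112 * X ^ 10 - 304 * X ^ 9 + 416 * X ^ 8 - 304 * X ^ 7 - 16 * X ^ 6 + 240 * X ^ 5 - 192 * X ^ 4 + 48 * X ^ 3 + 8 * X ^ 2 - 8 * X) 1 (by norm_num) (by
      rw [c4e]; push_cast; ring)
  have k2 : IsCoprime ((c4p a1_z10 a2_z10 a3_z10).map (Int.castRingHom ℚ))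
      ((2 * X - 1 : ℤ[X]).map (Int.castRingHom ℚ)) :=
    cert _ _ (256) (-2048 * X ^ 11 + 15360 * X ^ 10 - 45568 * X ^ 9 + 69376 * X ^ 8 - 57472 * X ^ 7 + 8128 * X ^ 6 + 36832 * X ^ 5 - 36880 * X ^ 4 + 12280 * X ^ 3 + 1020 * X ^ 2 - 1538 * X + 255) 1 (by norm_num) (by
      rw [c4e]; push_cast; ring)
  have k3 : IsCoprime ((c4p a1_z10 a2_z10 a3_z10).map (Int.castRingHom ℚ))
      ((X ^ 2 - 3 * X + 1 : ℤ[X]).map (Int.castRingHom ℚ)) :=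
    cert _ _ (-2584 * X + 6765) (41344 * X ^ 11 - 314960 * X ^ 10 + 954640 * X ^ 9 - 1495840 * X ^ 8 + 1289120 * X ^ 7 - 251792 * X ^ 6 - 757680 * X ^ 5 + 826880 * X ^ 4 - 304320 * X ^ 3 - 12880 * X ^ 2 + 36424 * X - 6760) 5 (by norm_num) (by
      rw [c4e]; push_cast; ring)
  have k4 : IsCoprime ((c4p a1_z10 a2_z10 a3_z10).map (Int.castRingHom ℚ))
      ((4 * X ^ 2 - 2 * X - 1 : ℤ[X]).map (Int.castRingHom ℚ)) :=
    cert _ _ (4096 * X + 1280) (-16384 * X ^ 11 + 117760 * X ^ 10 - 330240 * X ^ 9 + 468480 * X ^ 8 - 355200 * X ^ 7 + 4032 * X ^ 6 + 267520 * X ^ 5 - 225680 * X ^ 4 + 61560 * X ^ 3 + 10200 * X ^ 2 - 8694 * X + 1275) 5 (by norm_num) (by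
      rw [c4e]; push_cast; ring)
  have hcop : IsCoprime ((c4p a1_z10 a2_z10 a3_z10).map (Int.castRingHom ℚ))
      ((Dp a1_z10 a2_z10 a3_z10).map (Int.castRingHom ℚ)) := by
    rw [De]
    simp only [Polynomial.map_mul, Polynomial.map_pow]
    exact IsCoprime.mul_right (IsCoprime.mul_right (IsCoprime.mul_right (IsCoprime.mul_right (k0.pow_right) (k1.pow_right)) (k2.pow_right)) (k3.pow_right)) (k4)
  refine fam_mk a1_z10 a2_z10 a3_z10 (8 * X ^ 7 - 40 * X ^ 6 + 64 * X ^ 5 - 39 * X ^ 4 + 4 * X ^ 3 + 4 * X ^ 2 - X)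
    (X ^ 9 * (X - 1) ^ 9 * (2 * X - 1) ^ 4 * (X ^ 2 - 3 * X + 1) ^ 1) (56 * X ^ 6 - 240 * X ^ 5 + 320 * X ^ 4 - 156 * X ^ 3 + 12 * X ^ 2 + 8 * X - 1)
    (-170016 * X ^ 5 + 647328 * X ^ 4 - 664704 * X ^ 3 + 164520 * X ^ 2 + 36752 * X - 6832)
    (24288 * X ^ 6 - 109824 * X ^ 5 + 142176 * X ^ 4 - 51948 * X ^ 3 - 11324 * X ^ 2 + 6632 * X - 25) 3 2 4 25
    ![X ^ 2 - 3 * X + 1, 4 * X ^ 2 - 2 * X - 1] ![2, 2]
    ![X, X - 1, 2 * X - 1, 1]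
    (by norm_num) ?_ ?_ ?_ ?_ (by norm_num) (by norm_num) ?_ ?_ ?_ ?_ ?_ (by norm_num) ?_ ?_ ?_ hcop
  · unfold a1_z10; compute_degree <;> norm_num
  · unfold a2_z10; compute_degree <;> norm_num
  · unfold a3_z10; compute_degree <;> norm_num
  · rw [c4e]; compute_degree!
  · intro j
    fin_cases j <;> refine ⟨?_, by norm_num⟩ <;> simp <;> compute_degree <;> norm_num
  · intro j
    fin_cases j <;> simp <;> compute_degree <;> norm_num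
  · simp [Fin.prod_univ_succ] <;> ring
  · have : (8 * X ^ 7 - 40 * X ^ 6 + 64 * X ^ 5 - 39 * X ^ 4 + 4 * X ^ 3 + 4 * X ^ 2 - X : ℤ[X]).natDegree = 7 := by compute_degree!
    rw [this]
    decide
  · simp <;> ring
  · push_cast; ring
  · rw [De]; ring
  · have : (X ^ 9 * (X - 1) ^ 9 * (2 * X - 1) ^ 4 * (X ^ 2 - 3 * X + 1) ^ 1 : ℤ[X]).natDegree ≤ 28 := by compute_degree <;> norm_num
    refine (Nat.add_le_add_right this _).trans ?_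
    decide

noncomputable def a1_z2x6 : ℤ[X] := X ^ 2 + 2 * X - 19
noncomputable def a2_z2x6 : ℤ[X] := 2 * (X - 5) * (X - 1) ^ 2
noncomputable def a3_z2x6 : ℤ[X] := 2 * (X - 5) * (X - 1) ^ 2 * (X ^ 2 - 9)

theorem c4_z2x6 : c4p a1_z2x6 a2_z2x6 a3_z2x6 =
    X ^ 8 - 24 * X ^ 7 + 204 * X ^ 6 - 648 * X ^ 5 - 330 * X ^ 4 + 6552 * X ^ 3 + 2604 * X ^ 2 - 86904 * X + 144081 := by
  unfold c4p a1_z2x6 a2_z2x6 a3_z2x6
  ring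

theorem D_z2x6 : Dp a1_z2x6 a2_z2x6 a3_z2x6 =
    64 * (X - 1) ^ 6 * (X - 3) ^ 2 * (X + 3) ^ 2 * (X - 5) ^ 6 * (X - 9) ^ 2 := by
  unfold Dp a1_z2x6 a2_z2x6 a3_z2x6
  ring

theorem fam_z2x6 : Fam (27 * c4p a1_z2x6 a2_z2x6 a3_z2x6) (54 * c6p a1_z2x6 a2_z2x6 a3_z2x6)
    2 0 6 := by
  have c4e := c4_z2x6
  have De := D_z2x6
  have k0 : IsCoprime ((c4p a1_z2x6 a2_z2x6 a3_z2x6).map (Int.castRingHom ℚ))
      ((X - 1 : ℤ[X]).map (Int.castRingHom ℚ)) :=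
    cert _ _ (1) (-X ^ 7 + 23 * X ^ 6 - 181 * X ^ 5 + 467 * X ^ 4 + 797 * X ^ 3 - 5755 * X ^ 2 - 8359 * X + 78545) 65536 (by norm_num) (by
      rw [c4e]; push_cast; ring)
  have k1 : IsCoprime ((c4p a1_z2x6 a2_z2x6 a3_z2x6).map (Int.castRingHom ℚ))
      ((X - 3 : ℤ[X]).map (Int.castRingHom ℚ)) :=
    cert _ _ (1) (-X ^ 7 + 21 * X ^ 6 - 141 * X ^ 5 + 225 * X ^ 4 + 1005 * X ^ 3 - 3537 * X ^ 2 - 13215 * X + 47259) 2304 (by norm_num) (by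
      rw [c4e]; push_cast; ring)
  have k2 : IsCoprime ((c4p a1_z2x6 a2_z2x6 a3_z2x6).map (Int.castRingHom ℚ))
      ((X + 3 : ℤ[X]).map (Int.castRingHom ℚ)) :=
    cert _ _ (1) (-X ^ 7 + 27 * X ^ 6 - 285 * X ^ 5 + 1503 * X ^ 4 - 4179 * X ^ 3 + 5985 * X ^ 2 - 20559 * X + 148581) 589824 (by norm_num) (by
      rw [c4e]; push_cast; ring)
  have k3 : IsCoprime ((c4p a1_z2x6 a2_z2x6 a3_z2x6).map (Int.castRingHom ℚ))
      ((X - 5 : ℤ[X]).map (Int.castRingHom ℚ)) :=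
    cert _ _ (1) (-X ^ 7 + 19 * X ^ 6 - 109 * X ^ 5 + 103 * X ^ 4 + 845 * X ^ 3 - 2327 * X ^ 2 - 14239 * X + 15709) 65536 (by norm_num) (by
      rw [c4e]; push_cast; ring)
  have k4 : IsCoprime ((c4p a1_z2x6 a2_z2x6 a3_z2x6).map (Int.castRingHom ℚ))
      ((X - 9 : ℤ[X]).map (Int.castRingHom ℚ)) :=
    cert _ _ (1) (-X ^ 7 + 15 * X ^ 6 - 69 * X ^ 5 + 27 * X ^ 4 + 573 * X ^ 3 - 1395 * X ^ 2 - 15159 * X - 49527) 589824 (by norm_num) (by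
      rw [c4e]; push_cast; ring)
  have kc : IsCoprime ((c4p a1_z2x6 a2_z2x6 a3_z2x6).map (Int.castRingHom ℚ))
      ((64 : ℤ[X]).map (Int.castRingHom ℚ)) :=
    cert _ _ 0 1 64 (by norm_num) (by push_cast; ring)
  have hcop : IsCoprime ((c4p a1_z2x6 a2_z2x6 a3_z2x6).map (Int.castRingHom ℚ))
      ((Dp a1_z2x6 a2_z2x6 a3_z2x6).map (Int.castRingHom ℚ)) := by
    rw [De]
    simp only [Polynomial.map_mul, Polynomial.map_pow]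
    exact IsCoprime.mul_right (IsCoprime.mul_right (IsCoprime.mul_right (IsCoprime.mul_right (IsCoprime.mul_right (kc) (k0.pow_right)) (k1.pow_right)) (k2.pow_right)) (k3.pow_right)) (k4.pow_right)
  refine fam_mk a1_z2x6 a2_z2x6 a3_z2x6 (X ^ 5 - 15 * X ^ 4 + 50 * X ^ 3 + 90 * X ^ 2 - 531 * X + 405)
    (64 * (X - 1) ^ 5 * (X - 3) ^ 1 * (X + 3) ^ 1 * (X - 5) ^ 5 * (X - 9) ^ 1) (5 * X ^ 4 - 60 * X ^ 3 + 150 * X ^ 2 + 180 * X - 531)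
    (-175 * X ^ 3 + 1575 * X ^ 2 - 825 * X - 6975)
    (35 * X ^ 4 - 420 * X ^ 3 + 550 * X ^ 2 + 4260 * X - 6153) 2 0 6 442368
    ![] ![]
    ![X - 1, X - 3, X + 3, X - 5, X - 9, 1]
    (by norm_num) ?_ ?_ ?_ ?_ (by norm_num) (by norm_num) ?_ ?_ ?_ ?_ ?_ (by norm_num) ?_ ?_ ?_ hcop
  · unfold a1_z2x6; compute_degree <;> norm_num
  · unfold a2_z2x6; compute_degree <;> norm_num
  · unfold a3_z2x6; compute_degree <;> norm_num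
  · rw [c4e]; compute_degree!
  · intro j; exact j.elim0
  · intro j
    fin_cases j <;> simp <;> compute_degree <;> norm_num
  · simp [Fin.prod_univ_succ] <;> ring
  · have : (X ^ 5 - 15 * X ^ 4 + 50 * X ^ 3 + 90 * X ^ 2 - 531 * X + 405 : ℤ[X]).natDegree = 5 := by compute_degree!
    rw [this]
    decide
  · simp <;> ring
  · push_cast; ring
  · rw [De]; ring
  · have : (64 * (X - 1) ^ 5 * (X - 3) ^ 1 * (X + 3) ^ 1 * (X - 5) ^ 5 * (X - 9) ^ 1 : ℤ[X]).natDegree ≤ 18 := by compute_degree <;> norm_num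
    refine (Nat.add_le_add_right this _).trans ?_
    decide

end Pool.Agent.TH498.KB
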