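import Pool.Agent.TH498.KB.Kub

/-!
# Kubert's families
-/

set_option autoImplicit false
set_option maxHeartbeats 4000000

namespace Pool.Agent.TH498.KB

open Finset Polynomial

noncomputable def a1_z12 : ℤ[X] := (X - 1) ^ 3 + X * (2 * X - 1) * (3 * X ^ 2 - 3 * X + 1)
noncomputable def a2_z12 : ℤ[X] := -(X * (2 * X - 1) * (3 * X ^ 2 - 3 * X + 1) * (2 * X ^ 2 - 2 * X + 1) * (X - 1) ^ 2)
noncomputable def a3_z12 : ℤ[X] := -(X * (2 * X - 1) * (3 * X ^ 2 - 3 * X + 1) * (2 * X ^ 2 - 2 * X + 1) * (X - 1) ^ 5)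

theorem c4_z12 : c4p a1_z12 a2_z12 a3_z12 =
    144 * X ^ 16 - 1152 * X ^ 15 + 7200 * X ^ 14 - 30240 * X ^ 13 + 84048 * X ^ 12 - 163584 * X ^ 11 + 234000 * X ^ 10 - 253920 * X ^ 9 + 212880 * X ^ 8 - 139008 * X ^ 7 + 70656 * X ^ 6 - 27696 * X ^ 5 + 8208 * X ^ 4 - 1776 * X ^ 3 + 264 * X ^ 2 - 24 * X + 1 := by
  unfold c4p a1_z12 a2_z12 a3_z12
  ring

theorem D_z12 : Dp a1_z12 a2_z12 a3_z12 =
    X ^ 12 * (X - 1) ^ 12 * (2 * X - 1) ^ 6 * (2 * X ^ 2 - 2 * X + 1) ^ 3 * (3 * X ^ 2 - 3 * X + 1) ^ 4 * (6 * X ^ 2 - 6 * X + 1) := by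
  unfold Dp a1_z12 a2_z12 a3_z12
  ring

theorem fam_z12 : Fam (27 * c4p a1_z12 a2_z12 a3_z12) (54 * c6p a1_z12 a2_z12 a3_z12)
    4 3 4 := by
  have c4e := c4_z12
  have De := D_z12
  have k0 : IsCoprime ((c4p a1_z12 a2_z12 a3_z12).map (Int.castRingHom ℚ))
      ((X : ℤ[X]).map (Int.castRingHom ℚ)) :=
    cert _ _ (1) (-144 * X ^ 15 + 1152 * X ^ 14 - 7200 * X ^ 13 + 30240 * X ^ 12 - 84048 * X ^ 11 + 163584 * X ^ 10 - 234000 * X ^ 9 + 253920 * X ^ 8 - 212880 * X ^ 7 + 139008 * X ^ 6 - 70656 * X ^ 5 + 27696 * X ^ 4 - 8208 * X ^ 3 + 1776 * X ^ 2 - 264 * X + 24) 1 (by norm_num) (by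
      rw [c4e]; push_cast; ring)
  have k1 : IsCoprime ((c4p a1_z12 a2_z12 a3_z12).map (Int.castRingHom ℚ))
      ((X - 1 : ℤ[X]).map (Int.castRingHom ℚ)) :=
    cert _ _ (1) (-144 * X ^ 15 + 1008 * X ^ 14 - 6192 * X ^ 13 + 24048 * X ^ 12 - 60000 * X ^ 11 + 103584 * X ^ 10 - 130416 * X ^ 9 + 123504 * X ^ 8 - 89376 * X ^ 7 + 49632 * X ^ 6 - 21024 * X ^ 5 + 6672 * X ^ 4 - 1536 * X ^ 3 + 240 * X ^ 2 - 24 * X) 1 (by norm_num) (by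
      rw [c4e]; push_cast; ring)
  have k2 : IsCoprime ((c4p a1_z12 a2_z12 a3_z12).map (Int.castRingHom ℚ))
      ((2 * X - 1 : ℤ[X]).map (Int.castRingHom ℚ)) :=
    cert _ _ (4096) (-294912 * X ^ 15 + 2211840 * X ^ 14 - 13639680 * X ^ 13 + 55111680 * X ^ 12 - 144574464 * X ^ 11 + 262732800 * X ^ 10 - 347865600 * X ^ 9 + 346095360 * X ^ 8 - 262930560 * X ^ 7 + 153223104 * X ^ 6 - 68091936 * X ^ 5 + 22675440 * X ^ 4 - 5472264 * X ^ 3 + 901116 * X ^ 2 - 90114 * X + 4095) 1 (by norm_num) (by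
      rw [c4e]; push_cast; ring)
  have k3 : IsCoprime ((c4p a1_z12 a2_z12 a3_z12).map (Int.castRingHom ℚ))
      ((2 * X ^ 2 - 2 * X + 1 : ℤ[X]).map (Int.castRingHom ℚ)) :=
    cert _ _ (16) (-1152 * X ^ 14 + 8064 * X ^ 13 - 48960 * X ^ 12 + 188928 * X ^ 11 - 458976 * X ^ 10 + 755232 * X ^ 9 - 887280 * X ^ 8 + 766464 * X ^ 7 - 492936 * X ^ 6 + 235896 * X ^ 5 - 82884 * X ^ 4 + 20736 * X ^ 3 - 3486 * X ^ 2 + 354 * X - 15) 1 (by norm_num) (by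
      rw [c4e]; push_cast; ring)
  have k4 : IsCoprime ((c4p a1_z12 a2_z12 a3_z12).map (Int.castRingHom ℚ))
      ((3 * X ^ 2 - 3 * X + 1 : ℤ[X]).map (Int.castRingHom ℚ)) :=
    cert _ _ (729) (-34992 * X ^ 14 + 244944 * X ^ 13 - 1492992 * X ^ 12 + 5773680 * X ^ 11 - 14152320 * X ^ 10 + 23674032 * X ^ 9 - 28470528 * X ^ 8 + 25340688 * X ^ 7 - 16898976 * X ^ 6 + 8433072 * X ^ 5 - 3103344 * X ^ 4 + 815760 * X ^ 3 - 144336 * X ^ 2 + 15312 * X - 728) 1 (by norm_num) (by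
      rw [c4e]; push_cast; ring)
  have k5 : IsCoprime ((c4p a1_z12 a2_z12 a3_z12).map (Int.castRingHom ℚ))
      ((6 * X ^ 2 - 6 * X + 1 : ℤ[X]).map (Int.castRingHom ℚ)) :=
    cert _ _ (11664) (-279936 * X ^ 14 + 1959552 * X ^ 13 - 11990592 * X ^ 12 + 46469376 * X ^ 11 - 114921504 * X ^ 10 + 195340896 * X ^ 9 - 240401520 * X ^ 8 + 220662144 * X ^ 7 - 153109656 * X ^ 6 + 80344872 * X ^ 5 - 31492116 * X ^ 4 + 8958096 * X ^ 3 - 1749570 * X ^ 2 + 209958 * X - 11663) 1 (by norm_num) (by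
      rw [c4e]; push_cast; ring)
  have hcop : IsCoprime ((c4p a1_z12 a2_z12 a3_z12).map (Int.castRingHom ℚ))
      ((Dp a1_z12 a2_z12 a3_z12).map (Int.castRingHom ℚ)) := by
    rw [De]
    simp only [Polynomial.map_mul, Polynomial.map_pow]
    exact IsCoprime.mul_right (IsCoprime.mul_right (IsCoprime.mul_right (IsCoprime.mul_right (IsCoprime.mul_right (k0.pow_right) (k1.pow_right)) (k2.pow_right)) (k3.pow_right)) (k4.pow_right)) (k5)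
  refine fam_mk a1_z12 a2_z12 a3_z12 (72 * X ^ 9 - 324 * X ^ 8 + 648 * X ^ 7 - 756 * X ^ 6 + 562 * X ^ 5 - 271 * X ^ 4 + 82 * X ^ 3 - 14 * X ^ 2 + X)
    (X ^ 11 * (X - 1) ^ 11 * (2 * X - 1) ^ 5 * (2 * X ^ 2 - 2 * X + 1) ^ 2 * (3 * X ^ 2 - 3 * X + 1) ^ 3) (648 * X ^ 8 - 2592 * X ^ 7 + 4536 * X ^ 6 - 4536 * X ^ 5 + 2810 * X ^ 4 - 1084 * X ^ 3 + 246 * X ^ 2 - 28 * X + 1)
    (-876096 * X ^ 7 + 3066336 * X ^ 6 - 4599504 * X ^ 5 + 3832920 * X ^ 4 - 1884280 * X ^ 3 + 526668 * X ^ 2 - 71688 * X + 2822)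
    (97344 * X ^ 8 - 389376 * X ^ 7 + 681408 * X ^ 6 - 681408 * X ^ 5 + 419300 * X ^ 4 - 157192 * X ^ 3 + 32718 * X ^ 2 - 2794 * X + 1) 4 3 4 1
    ![2 * X ^ 2 - 2 * X + 1, 3 * X ^ 2 - 3 * X + 1, 6 * X ^ 2 - 6 * X + 1] ![2, 2, 2]
    ![X, X - 1, 2 * X - 1, 1]
    (by norm_num) ?_ ?_ ?_ ?_ (by norm_num) (by norm_num) ?_ ?_ ?_ ?_ ?_ (by norm_num) ?_ ?_ ?_ hcop
  · unfold a1_z12; compute_degree <;> norm_num
  · unfold a2_z12; compute_degree <;> norm_num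
  · unfold a3_z12; compute_degree <;> norm_num
  · rw [c4e]; compute_degree!
  · intro j
    fin_cases j <;> refine ⟨?_, by norm_num⟩ <;> simp <;> compute_degree <;> norm_num
  · intro j
    fin_cases j <;> simp <;> compute_degree <;> norm_num
  · simp [Fin.prod_univ_succ] <;> ring
  · have : (72 * X ^ 9 - 324 * X ^ 8 + 648 * X ^ 7 - 756 * X ^ 6 + 562 * X ^ 5 - 271 * X ^ 4 + 82 * X ^ 3 - 14 * X ^ 2 + X : ℤ[X]).natDegree = 9 := by compute_degree!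
    rw [this]
    decide
  · simp <;> ring
  · push_cast; ring
  · rw [De]; ring
  · have : (X ^ 11 * (X - 1) ^ 11 * (2 * X - 1) ^ 5 * (2 * X ^ 2 - 2 * X + 1) ^ 2 * (3 * X ^ 2 - 3 * X + 1) ^ 3 : ℤ[X]).natDegree ≤ 38 := by compute_degree <;> norm_num
    refine (Nat.add_le_add_right this _).trans ?_
    decide

end Pool.Agent.TH498.KB
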