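import Pool.Agent.TH498.KB.Kub

/-!
# Kubert's families
-/

set_option autoImplicit false
set_option maxHeartbeats 4000000

namespace Pool.Agent.TH498.KB

open Finset Polynomial

noncomputable def a1_z2x8 : ℤ[X] := X * (2 * X + 1) * (2 * X ^ 2 - 1) - (X + 1) * (2 * X ^ 2 + 2 * X + 1)
noncomputable def a2_z2x8 : ℤ[X] := -((X + 1) * (2 * X ^ 2 + 2 * X + 1) * (X * (2 * X + 1)) ^ 2)
noncomputable def a3_z2x8 : ℤ[X] := -((X + 1) * (2 * X ^ 2 + 2 * X + 1) * (X * (2 * X + 1)) ^ 3 * (2 * X ^ 2 - 1))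

theorem c4_z2x8 : c4p a1_z2x8 a2_z2x8 a3_z2x8 =
    256 * X ^ 16 + 2048 * X ^ 15 + 7168 * X ^ 14 + 14336 * X ^ 13 + 17664 * X ^ 12 + 12800 * X ^ 11 + 3200 * X ^ 10 - 3712 * X ^ 9 - 4624 * X ^ 8 - 1856 * X ^ 7 + 800 * X ^ 6 + 1600 * X ^ 5 + 1104 * X ^ 4 + 448 * X ^ 3 + 112 * X ^ 2 + 16 * X + 1 := by
  unfold c4p a1_z2x8 a2_z2x8 a3_z2x8
  ring

theorem D_z2x8 : Dp a1_z2x8 a2_z2x8 a3_z2x8 =
    X ^ 8 * (X + 1) ^ 8 * (2 * X + 1) ^ 8 * (2 * X ^ 2 - 1) ^ 2 * (2 * X ^ 2 + 2 * X + 1) ^ 4 * (2 * X ^ 2 + 4 * X + 1) ^ 2 := by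
  unfold Dp a1_z2x8 a2_z2x8 a3_z2x8
  ring

theorem fam_z2x8 : Fam (27 * c4p a1_z2x8 a2_z2x8 a3_z2x8) (54 * c6p a1_z2x8 a2_z2x8 a3_z2x8)
    4 3 4 := by
  have c4e := c4_z2x8
  have De := D_z2x8
  have k0 : IsCoprime ((c4p a1_z2x8 a2_z2x8 a3_z2x8).map (Int.castRingHom ℚ))
      ((X : ℤ[X]).map (Int.castRingHom ℚ)) :=
    cert _ _ (1) (-256 * X ^ 15 - 2048 * X ^ 14 - 7168 * X ^ 13 - 14336 * X ^ 12 - 17664 * X ^ 11 - 12800 * X ^ 10 - 3200 * X ^ 9 + 3712 * X ^ 8 + 4624 * X ^ 7 + 1856 * X ^ 6 - 800 * X ^ 5 - 1600 * X ^ 4 - 1104 * X ^ 3 - 448 * X ^ 2 - 112 * X - 16) 1 (by norm_num) (by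
      rw [c4e]; push_cast; ring)
  have k1 : IsCoprime ((c4p a1_z2x8 a2_z2x8 a3_z2x8).map (Int.castRingHom ℚ))
      ((X + 1 : ℤ[X]).map (Int.castRingHom ℚ)) :=
    cert _ _ (1) (-256 * X ^ 15 - 1792 * X ^ 14 - 5376 * X ^ 13 - 8960 * X ^ 12 - 8704 * X ^ 11 - 4096 * X ^ 10 + 896 * X ^ 9 + 2816 * X ^ 8 + 1808 * X ^ 7 + 48 * X ^ 6 - 848 * X ^ 5 - 752 * X ^ 4 - 352 * X ^ 3 - 96 * X ^ 2 - 16 * X) 1 (by norm_num) (by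
      rw [c4e]; push_cast; ring)
  have k2 : IsCoprime ((c4p a1_z2x8 a2_z2x8 a3_z2x8).map (Int.castRingHom ℚ))
      ((2 * X + 1 : ℤ[X]).map (Int.castRingHom ℚ)) :=
    cert _ _ (256) (-32768 * X ^ 15 - 245760 * X ^ 14 - 794624 * X ^ 13 - 1437696 * X ^ 12 - 1542144 * X ^ 11 - 867328 * X ^ 10 + 24064 * X ^ 9 + 463104 * X ^ 8 + 360320 * X ^ 7 + 57408 * X ^ 6 - 131104 * X ^ 5 - 139248 * X ^ 4 - 71688 * X ^ 3 - 21500 * X ^ 2 - 3586 * X - 255) 1 (by norm_num) (by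
      rw [c4e]; push_cast; ring)
  have k3 : IsCoprime ((c4p a1_z2x8 a2_z2x8 a3_z2x8).map (Int.castRingHom ℚ))
      ((2 * X ^ 2 - 1 : ℤ[X]).map (Int.castRingHom ℚ)) :=
    cert _ _ (-816 * X + 577) (104448 * X ^ 15 + 761728 * X ^ 14 + 2385920 * X ^ 13 + 4161984 * X ^ 12 + 4263936 * X ^ 11 + 2207328 * X ^ 10 - 255232 * X ^ 9 - 1334032 * X ^ 8 - 943296 * X ^ 7 - 90240 * X ^ 6 + 390208 * X ^ 5 + 376880 * X ^ 4 + 183936 * X ^ 3 + 52720 * X ^ 2 + 8416 * X + 576) 1 (by norm_num) (by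
      rw [c4e]; push_cast; ring)
  have k4 : IsCoprime ((c4p a1_z2x8 a2_z2x8 a3_z2x8).map (Int.castRingHom ℚ))
      ((2 * X ^ 2 + 2 * X + 1 : ℤ[X]).map (Int.castRingHom ℚ)) :=
    cert _ _ (1) (-128 * X ^ 14 - 896 * X ^ 13 - 2624 * X ^ 12 - 4096 * X ^ 11 - 3424 * X ^ 10 - 928 * X ^ 9 + 1040 * X ^ 8 + 1280 * X ^ 7 + 512 * X ^ 6 - 224 * X ^ 5 - 432 * X ^ 4 - 256 * X ^ 3 - 80 * X ^ 2 - 16 * X) 1 (by norm_num) (by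
      rw [c4e]; push_cast; ring)
  have k5 : IsCoprime ((c4p a1_z2x8 a2_z2x8 a3_z2x8).map (Int.castRingHom ℚ))
      ((2 * X ^ 2 + 4 * X + 1 : ℤ[X]).map (Int.castRingHom ℚ)) :=
    cert _ _ (816 * X + 1393) (-104448 * X ^ 15 - 804992 * X ^ 14 - 2688768 * X ^ 13 - 5061568 * X ^ 12 - 5724416 * X ^ 11 - 3545760 * X ^ 10 - 267072 * X ^ 9 + 1592720 * X ^ 8 + 1420096 * X ^ 7 + 341312 * X ^ 6 - 426368 * X ^ 5 - 527920 * X ^ 4 - 295808 * X ^ 3 - 96144 * X ^ 2 - 17536 * X - 1392) 1 (by norm_num) (by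
      rw [c4e]; push_cast; ring)
  have hcop : IsCoprime ((c4p a1_z2x8 a2_z2x8 a3_z2x8).map (Int.castRingHom ℚ))
      ((Dp a1_z2x8 a2_z2x8 a3_z2x8).map (Int.castRingHom ℚ)) := by
    rw [De]
    simp only [Polynomial.map_mul, Polynomial.map_pow]
    exact IsCoprime.mul_right (IsCoprime.mul_right (IsCoprime.mul_right (IsCoprime.mul_right (IsCoprime.mul_right (k0.pow_right) (k1.pow_right)) (k2.pow_right)) (k3.pow_right)) (k4.pow_right)) (k5.pow_right)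
  refine fam_mk a1_z2x8 a2_z2x8 a3_z2x8 (16 * X ^ 9 + 72 * X ^ 8 + 120 * X ^ 7 + 84 * X ^ 6 - 42 * X ^ 4 - 30 * X ^ 3 - 9 * X ^ 2 - X)
    (X ^ 7 * (X + 1) ^ 7 * (2 * X + 1) ^ 7 * (2 * X ^ 2 - 1) ^ 1 * (2 * X ^ 2 + 2 * X + 1) ^ 3 * (2 * X ^ 2 + 4 * X + 1) ^ 1) (144 * X ^ 8 + 576 * X ^ 7 + 840 * X ^ 6 + 504 * X ^ 5 - 168 * X ^ 3 - 90 * X ^ 2 - 18 * X - 1)
    (-231984 * X ^ 7 - 811944 * X ^ 6 - 951048 * X ^ 5 - 347760 * X ^ 4 + 163872 * X ^ 3 + 187596 * X ^ 2 + 54162 * X + 3555)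
    (25776 * X ^ 8 + 103104 * X ^ 7 + 142188 * X ^ 6 + 65700 * X ^ 5 - 31248 * X ^ 4 - 51708 * X ^ 3 - 23103 * X ^ 2 - 3483 * X - 4) 4 3 4 4
    ![2 * X ^ 2 - 1, 2 * X ^ 2 + 2 * X + 1, 2 * X ^ 2 + 4 * X + 1] ![2, 2, 2]
    ![X, X + 1, 2 * X + 1, 1]
    (by norm_num) ?_ ?_ ?_ ?_ (by norm_num) (by norm_num) ?_ ?_ ?_ ?_ ?_ (by norm_num) ?_ ?_ ?_ hcop
  · unfold a1_z2x8; compute_degree <;> norm_num
  · unfold a2_z2x8; compute_degree <;> norm_num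
  · unfold a3_z2x8; compute_degree <;> norm_num
  · rw [c4e]; compute_degree!
  · intro j
    fin_cases j <;> refine ⟨?_, by norm_num⟩ <;> simp <;> compute_degree <;> norm_num
  · intro j
    fin_cases j <;> simp <;> compute_degree <;> norm_num
  · simp [Fin.prod_univ_succ] <;> ring
  · have : (16 * X ^ 9 + 72 * X ^ 8 + 120 * X ^ 7 + 84 * X ^ 6 - 42 * X ^ 4 - 30 * X ^ 3 - 9 * X ^ 2 - X : ℤ[X]).natDegree = 9 := by compute_degree!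
    rw [this]
    decide
  · simp <;> ring
  · push_cast; ring
  · rw [De]; ring
  · have : (X ^ 7 * (X + 1) ^ 7 * (2 * X + 1) ^ 7 * (2 * X ^ 2 - 1) ^ 1 * (2 * X ^ 2 + 2 * X + 1) ^ 3 * (2 * X ^ 2 + 4 * X + 1) ^ 1 : ℤ[X]).natDegree ≤ 38 := by compute_degree <;> norm_num
    refine (Nat.add_le_add_right this _).trans ?_
    decide

end Pool.Agent.TH498.KB
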