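import Pool.Agent.TH498.KB.Appl
import Pool.Agent.TH498.KB.Kub1
import Pool.Agent.TH498.KB.Kub2
import Pool.Agent.TH498.KB.Kub3
import Pool.Agent.TH498.KB.Kub4

/-!
# Counting members of Kubert's families
-/

set_option autoImplicit false

namespace Pool.Agent.TH498.KB

open Finset Polynomial

/-- the curve `y² + a₁(t) x y + a₃(t) y = x³ + a₂(t) x²` -/
noncomputable def crv (a1 a2 a3 : ℤ[X]) (t : ℚ) : WeierstrassCurve ℚ :=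
  ⟨(a1.map (Int.castRingHom ℚ)).eval t, (a2.map (Int.castRingHom ℚ)).eval t,
    (a3.map (Int.castRingHom ℚ)).eval t, 0, 0⟩

theorem crv_c4 (a1 a2 a3 : ℤ[X]) (t : ℚ) :
    (crv a1 a2 a3 t).c₄ = ((c4p a1 a2 a3).map (Int.castRingHom ℚ)).eval t := by
  unfold crv c4p
  simp only [WeierstrassCurve.c₄, WeierstrassCurve.b₂, WeierstrassCurve.b₄, Polynomial.map_sub,
    Polynomial.map_mul, Polynomial.map_pow, Polynomial.map_add, Polynomial.map_ofNat, eval_sub,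
    eval_mul, eval_pow, eval_add, eval_ofNat]
  ring

theorem crv_c6 (a1 a2 a3 : ℤ[X]) (t : ℚ) :
    (crv a1 a2 a3 t).c₆ = ((c6p a1 a2 a3).map (Int.castRingHom ℚ)).eval t := by
  unfold crv c6p
  simp only [WeierstrassCurve.c₆, WeierstrassCurve.b₂, WeierstrassCurve.b₄, WeierstrassCurve.b₆,
    Polynomial.map_sub, Polynomial.map_neg, eval_neg,
    Polynomial.map_mul, Polynomial.map_pow, Polynomial.map_add, Polynomial.map_ofNat, eval_sub,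
    eval_mul, eval_pow, eval_add, eval_ofNat]
  ring

theorem mem_inv (a1 a2 a3 : ℤ[X]) (t : ℚ) (C : WeierstrassCurve.VariableChange ℚ)
    (W : WeierstrassCurve ℤ) (h : C • crv a1 a2 a3 t = W.map (Int.castRingHom ℚ)) :
    Mem (27 * c4p a1 a2 a3) (54 * c6p a1 a2 a3) (27 * W.c₄) (54 * W.c₆) := by
  have h4 := congrArg WeierstrassCurve.c₄ h
  have h6 := congrArg WeierstrassCurve.c₆ h
  rw [WeierstrassCurve.variableChange_c₄, WeierstrassCurve.map_c₄, crv_c4, eq_intCast] at h4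
  rw [WeierstrassCurve.variableChange_c₆, WeierstrassCurve.map_c₆, crv_c6, eq_intCast] at h6
  refine ⟨t, ((C.u⁻¹ : ℚˣ) : ℚ), Units.ne_zero _, ?_, ?_⟩
  · simp only [Polynomial.map_mul, Polynomial.map_ofNat, eval_mul, eval_ofNat]
    push_cast
    push_cast at h4
    rw [← h4]
    ring
  · simp only [Polynomial.map_mul, Polynomial.map_ofNat, eval_mul, eval_ofNat]
    push_cast
    push_cast at h6
    rw [← h6]
    ring

theorem mem_short (a1 a2 a3 : ℤ[X]) (t : ℚ) (C : WeierstrassCurve.VariableChange ℚ)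
    (a b : ℤ) (h : C • crv a1 a2 a3 t = ⟨0, 0, 0, -(a : ℚ), -(b : ℚ)⟩) :
    Mem (27 * c4p a1 a2 a3) (54 * c6p a1 a2 a3) a b := by
  have h4 := congrArg WeierstrassCurve.c₄ h
  have h6 := congrArg WeierstrassCurve.c₆ h
  rw [WeierstrassCurve.variableChange_c₄, crv_c4] at h4
  rw [WeierstrassCurve.variableChange_c₆, crv_c6] at h6
  simp only [WeierstrassCurve.c₄, WeierstrassCurve.b₂, WeierstrassCurve.b₄] at h4
  simp only [WeierstrassCurve.c₆, WeierstrassCurve.b₂, WeierstrassCurve.b₄,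
    WeierstrassCurve.b₆] at h6
  refine ⟨t, ((C.u⁻¹ : ℚˣ) : ℚ) / 6, div_ne_zero (Units.ne_zero _) (by norm_num), ?_, ?_⟩
  · simp only [Polynomial.map_mul, Polynomial.map_ofNat, eval_mul, eval_ofNat]
    linear_combination (-1 / 48 : ℚ) * h4
  · simp only [Polynomial.map_mul, Polynomial.map_ofNat, eval_mul, eval_ofNat]
    linear_combination (-1 / 864 : ℚ) * h6

theorem kub_short (a1 a2 a3 : ℤ[X]) (k w L e : ℕ)
    (hF : Fam (27 * c4p a1 a2 a3) (54 * c6p a1 a2 a3) k w L) (he : L + 2 * w = e)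
    (V : ℚ → WeierstrassCurve ℚ) (hV : ∀ t, V t = crv a1 a2 a3 t) (κ K ε : ℝ) (hκ : 0 < κ)
    (hK : 0 < K) (hε : 0 < ε) :
    ∃ C : ℝ, 0 < C ∧ ∀ X : ℕ, 1 ≤ X → ∀ S : Set (ℤ × ℤ),
      (∀ p ∈ S, MinS p.1 p.2 ∧ (∃ (t : ℚ) (C : WeierstrassCurve.VariableChange ℚ),
          C • V t = ⟨0, 0, 0, -(p.1 : ℚ), -(p.2 : ℚ)⟩) ∧
        |p.1| ≤ (X : ℤ) ^ 2 ∧ |p.2| ≤ (X : ℤ) ^ 3 ∧
        (Cond p.1 p.2 : ℝ) ^ κ < K * |((4 * p.1 ^ 3 - 27 * p.2 ^ 2 : ℤ) : ℝ)|) →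
      S.Finite ∧ (S.ncard : ℝ) ≤ C * (X : ℝ) ^ (12 / (κ * (e : ℝ)) + ε) := by
  obtain ⟨C, hC, h⟩ := short_count _ _ k w L hF κ K ε hκ hK hε
  refine ⟨C, hC, fun X hX S hS => ?_⟩
  have h1 := h X hX S fun p hp => by
    obtain ⟨g1, ⟨t, D, hD⟩, g2, g3, g4⟩ := hS p hp
    rw [hV t] at hD
    exact ⟨g1, mem_short a1 a2 a3 t D _ _ hD, g2, g3, g4⟩
  have he' : (L : ℝ) + 2 * w = (e : ℝ) := by exact_mod_cast he
  rwa [he'] at h1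

theorem kub_inv (a1 a2 a3 : ℤ[X]) (k w L e : ℕ)
    (hF : Fam (27 * c4p a1 a2 a3) (54 * c6p a1 a2 a3) k w L) (he : L + 2 * w = e)
    (V : ℚ → WeierstrassCurve ℚ) (hV : ∀ t, V t = crv a1 a2 a3 t) (κ c ε : ℝ) (hκ : 0 < κ)
    (hc : 0 < c) (hε : 0 < ε) :
    ∃ C : ℝ, 0 < C ∧ ∀ X : ℕ, 1 ≤ X → ∀ S : Set (ℤ × ℤ),
      (∀ q ∈ S, ∃ W : WeierstrassCurve ℤ, W.Δ ≠ 0 ∧
        (∀ r : ℤ, r ^ 4 ∣ 27 * W.c₄ → r ^ 6 ∣ 54 * W.c₆ → |r| ≤ (6 : ℕ)) ∧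
        (∃ (t : ℚ) (C : WeierstrassCurve.VariableChange ℚ),
          C • V t = W.map (Int.castRingHom ℚ)) ∧ q = (W.c₄, W.c₆) ∧ |W.c₄| ^ 3 ≤ (X : ℤ) ^ 6 ∧
        W.c₆ ^ 2 ≤ (X : ℤ) ^ 6 ∧ c * (rad5 W.Δ : ℝ) ^ κ ≤ (X : ℝ) ^ 6) →
      S.Finite ∧ (S.ncard : ℝ) ≤ C * (X : ℝ) ^ (12 / (κ * (e : ℝ)) + ε) := by
  obtain ⟨C, hC, h⟩ := inv_count _ _ k w L hF κ c ε hκ hc hε
  refine ⟨C, hC, fun X hX S hS => ?_⟩
  have h1 := h X hX S fun q hq => by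
    obtain ⟨W, g1, g2, ⟨t, D, hD⟩, g3, g4, g5, g6⟩ := hS q hq
    rw [hV t] at hD
    exact ⟨W, g1, g2, mem_inv a1 a2 a3 t D _ hD, g3, g4, g5, g6⟩
  have he' : (L : ℝ) + 2 * w = (e : ℝ) := by exact_mod_cast he
  rwa [he'] at h1

end Pool.Agent.TH498.KB
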