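import Pool.Agent.TH498.KB.Core2
import Pool.Agent.H39R3.Model

/-!
# Szpiro's inequality in one-parameter families
-/

set_option autoImplicit false

namespace Pool.Agent.TH498.KB

open Finset Polynomial

theorem count (A B : ℤ[X]) (k w L : ℕ) (hF : Fam A B k w L) (Λ : ℕ) (c1 c2 κ ε : ℝ)
    (hc1 : 1 ≤ c1) (hc2 : 1 ≤ c2) (hκ : 0 < κ) (hε : 0 < ε) :
    ∃ C : ℝ, 0 < C ∧ ∀ X : ℝ, 1 ≤ X → ∀ S : Set (ℤ × ℤ),
      (∀ p ∈ S, 4 * p.1 ^ 3 - 27 * p.2 ^ 2 ≠ 0 ∧ Mem A B p.1 p.2 ∧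
        (∀ r : ℤ, r ^ 4 ∣ p.1 → r ^ 6 ∣ p.2 → |r| ≤ Λ) ∧
        |(p.1 : ℝ)| ≤ c1 * X ^ 3 ∧ |(p.2 : ℝ)| ≤ c1 * X ^ 3 ∧
        (rad5 (4 * p.1 ^ 3 - 27 * p.2 ^ 2) : ℝ) ≤ c2 * X ^ (6 / κ)) →
      S.Finite ∧ (S.ncard : ℝ) ≤ C * X ^ (12 / (κ * (L + 2 * w)) + ε) := by
  obtain ⟨C, hC, h⟩ := core A B k w L hF Λ (ε / 3) (by positivity)
  have hwL := hF.hwL
  have hLw : (0 : ℝ) < (L : ℝ) + 2 * w := by
    have : (1 : ℝ) ≤ (w : ℝ) + L := by exact_mod_cast hwL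
    have h1 : (0 : ℝ) ≤ w := Nat.cast_nonneg w
    linarith
  refine ⟨C * c1 ^ (ε / 3) * c2 ^ ((2 : ℝ) / (L + 2 * w)), by positivity, ?_⟩
  intro X hX S hS
  have hX0 : 0 < X := by linarith
  have hfin : S.Finite := by
    refine ((Finset.finite_toSet (Icc (-⌈c1 * X ^ 3⌉) (⌈c1 * X ^ 3⌉) ×ˢ
      Icc (-⌈c1 * X ^ 3⌉) (⌈c1 * X ^ 3⌉)))).subset ?_
    intro p hp
    obtain ⟨-, -, -, b1, b2, -⟩ := hS p hp
    have b1' : |(p.1 : ℝ)| ≤ (⌈c1 * X ^ 3⌉ : ℝ) := b1.trans (Int.le_ceil _)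
    have b2' : |(p.2 : ℝ)| ≤ (⌈c1 * X ^ 3⌉ : ℝ) := b2.trans (Int.le_ceil _)
    rw [Finset.mem_coe, mem_product, mem_Icc, mem_Icc]
    refine ⟨abs_le.mp ?_, abs_le.mp ?_⟩
    · exact_mod_cast b1'
    · exact_mod_cast b2'
  refine ⟨hfin, ?_⟩
  rw [Set.ncard_eq_toFinset_card _ hfin]
  have hX3 : 1 ≤ X ^ 3 := one_le_pow₀ hX
  have hXk : 1 ≤ X ^ (6 / κ) := Real.one_le_rpow hX (by positivity)
  have := h (c1 * X ^ 3) (c2 * X ^ (6 / κ)) (by nlinarith) (by nlinarith) hfin.toFinset (by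
    intro p hp
    rw [Set.Finite.mem_toFinset] at hp
    exact hS p hp)
  refine this.trans (le_of_eq ?_)
  rw [Real.mul_rpow (by linarith) (by positivity), Real.mul_rpow (by linarith) (by positivity),
    ← Real.rpow_natCast X 3, ← Real.rpow_mul hX0.le, ← Real.rpow_mul hX0.le, Real.rpow_add hX0]
  have e1 : ((3 : ℕ) : ℝ) * (ε / 3) = ε := by push_cast; ring
  have e2 : 6 / κ * ((2 : ℝ) / (L + 2 * w)) = 12 / (κ * (L + 2 * w)) := by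
    field_simp
    ring
  rw [e1, e2]
  ring

/-- from `N ^ κ < c X ^ 6` to a bound for `N` -/
theorem root_le (κ c N X : ℝ) (hκ : 0 < κ) (hc : 1 ≤ c) (hN : 0 ≤ N) (hX : 1 ≤ X)
    (h : N ^ κ ≤ c * X ^ 6) : N ≤ c ^ (1 / κ) * X ^ (6 / κ) := by
  have hX0 : 0 < X := by linarith
  have h1 : N = (N ^ κ) ^ (1 / κ) := by
    rw [← Real.rpow_mul hN, mul_one_div_cancel hκ.ne', Real.rpow_one]
  rw [h1]
  refine (Real.rpow_le_rpow (by positivity) h (by positivity)).trans (le_of_eq ?_)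
  rw [Real.mul_rpow (by linarith) (by positivity), ← Real.rpow_natCast X 6, ← Real.rpow_mul hX0.le]
  congr 2
  push_cast
  ring

/-- minimal models `y² = x³ - a x - b` -/
def MinS (a b : ℤ) : Prop :=
  4 * a ^ 3 - 27 * b ^ 2 ≠ 0 ∧ ∀ (u : ℚ) (a' b' : ℤ), u ≠ 0 → (a' : ℚ) = u ^ 4 * a →
    (b' : ℚ) = u ^ 6 * b → |4 * a ^ 3 - 27 * b ^ 2| ≤ |4 * a' ^ 3 - 27 * b' ^ 2|

theorem prim_of_minS (a b : ℤ) (h : MinS a b) (r : ℤ) (h4 : r ^ 4 ∣ a) (h6 : r ^ 6 ∣ b) :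
    |r| ≤ (1 : ℕ) := by
  obtain ⟨a', ha⟩ := h4
  obtain ⟨b', hb⟩ := h6
  have hr0 : r ≠ 0 := by
    rintro rfl
    apply h.1
    rw [ha, hb]
    ring
  have hrQ : (r : ℚ) ≠ 0 := by exact_mod_cast hr0
  have h1 := h.2 ((r : ℚ)⁻¹) a' b' (inv_ne_zero hrQ) (by rw [ha]; push_cast; field_simp)
    (by rw [hb]; push_cast; field_simp)
  by_contra hcon
  push Not at hcon
  have h2 : 2 ≤ |r| := by
    push_cast at hcon
    omega
  have h3 : 4 * a ^ 3 - 27 * b ^ 2 = r ^ 12 * (4 * a' ^ 3 - 27 * b' ^ 2) := by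
    rw [ha, hb]; ring
  have h4 : 4 * a' ^ 3 - 27 * b' ^ 2 ≠ 0 := by
    intro h0
    rw [h0, mul_zero] at h3
    exact h.1 h3
  rw [h3, abs_mul, abs_pow] at h1
  have h5 : (2 : ℤ) ^ 12 ≤ |r| ^ 12 := pow_le_pow_left₀ (by norm_num) h2 12
  have h6 : 0 < |4 * a' ^ 3 - 27 * b' ^ 2| := abs_pos.mpr h4
  nlinarith

/-- the prime-to-6 part of the conductor -/
def Cond (a b : ℤ) : ℕ :=
  ∏ p ∈ (4 * a ^ 3 - 27 * b ^ 2).natAbs.primeFactors.filter (fun p : ℕ => 5 ≤ p),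
    if ((p : ℕ) : ℤ) ∣ a then (p : ℕ) ^ 2 else p

theorem rad5_le_cond (a b : ℤ) : rad5 (4 * a ^ 3 - 27 * b ^ 2) ≤ Cond a b := by
  unfold rad5 Cond
  refine Finset.prod_le_prod' fun p hp => ?_
  have h1 := (Nat.prime_of_mem_primeFactors (mem_filter.mp hp).1).one_le
  split_ifs
  · nlinarith
  · exact le_rfl

theorem short_count (A B : ℤ[X]) (k w L : ℕ) (hF : Fam A B k w L) (κ K ε : ℝ) (hκ : 0 < κ)
    (hK : 0 < K) (hε : 0 < ε) :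
    ∃ C : ℝ, 0 < C ∧ ∀ X : ℕ, 1 ≤ X → ∀ S : Set (ℤ × ℤ),
      (∀ p ∈ S, MinS p.1 p.2 ∧ Mem A B p.1 p.2 ∧ |p.1| ≤ (X : ℤ) ^ 2 ∧ |p.2| ≤ (X : ℤ) ^ 3 ∧
        (Cond p.1 p.2 : ℝ) ^ κ < K * |((4 * p.1 ^ 3 - 27 * p.2 ^ 2 : ℤ) : ℝ)|) →
      S.Finite ∧ (S.ncard : ℝ) ≤ C * (X : ℝ) ^ (12 / (κ * (L + 2 * w)) + ε) := by
  set c : ℝ := max 1 (31 * K) with hc
  have hc1 : 1 ≤ c := le_max_left _ _
  obtain ⟨C, hC, h⟩ := count A B k w L hF 1 1 (c ^ (1 / κ)) κ ε le_rfl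
    (Real.one_le_rpow hc1 (by positivity)) hκ hε
  refine ⟨C, hC, fun X hX S hS => h X (by exact_mod_cast hX) S fun p hp => ?_⟩
  obtain ⟨h1, h2, h3, h4, h5⟩ := hS p hp
  have hX1 : (1 : ℝ) ≤ X := by exact_mod_cast hX
  have h3' : |(p.1 : ℝ)| ≤ (X : ℝ) ^ 2 := by exact_mod_cast h3
  have h4' : |(p.2 : ℝ)| ≤ (X : ℝ) ^ 3 := by exact_mod_cast h4
  refine ⟨h1.1, h2, prim_of_minS _ _ h1, ?_, ?_, ?_⟩
  · rw [one_mul]
    exact h3'.trans (pow_le_pow_right₀ hX1 (by norm_num))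
  · rw [one_mul]
    exact h4'
  · refine root_le κ c _ X hκ hc1 (Nat.cast_nonneg _) hX1 ?_
    have e1 : |((4 * p.1 ^ 3 - 27 * p.2 ^ 2 : ℤ) : ℝ)| ≤ 31 * (X : ℝ) ^ 6 := by
      push_cast
      calc |4 * (p.1 : ℝ) ^ 3 - 27 * (p.2 : ℝ) ^ 2| ≤ |4 * (p.1 : ℝ) ^ 3| + |27 * (p.2 : ℝ) ^ 2| :=
            abs_sub _ _
        _ = 4 * |(p.1 : ℝ)| ^ 3 + 27 * |(p.2 : ℝ)| ^ 2 := by
            rw [abs_mul, abs_mul, abs_pow, abs_pow]
            norm_num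
        _ ≤ 4 * ((X : ℝ) ^ 2) ^ 3 + 27 * ((X : ℝ) ^ 3) ^ 2 := by gcongr
        _ = 31 * (X : ℝ) ^ 6 := by ring
    have e2 : (rad5 (4 * p.1 ^ 3 - 27 * p.2 ^ 2) : ℝ) ^ κ ≤ (Cond p.1 p.2 : ℝ) ^ κ :=
      Real.rpow_le_rpow (Nat.cast_nonneg _) (by exact_mod_cast rad5_le_cond p.1 p.2) hκ.le
    calc (rad5 (4 * p.1 ^ 3 - 27 * p.2 ^ 2) : ℝ) ^ κ ≤ (Cond p.1 p.2 : ℝ) ^ κ := e2
      _ ≤ K * |((4 * p.1 ^ 3 - 27 * p.2 ^ 2 : ℤ) : ℝ)| := h5.le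
      _ ≤ K * (31 * (X : ℝ) ^ 6) := by gcongr
      _ = (31 * K) * (X : ℝ) ^ 6 := by ring
      _ ≤ c * (X : ℝ) ^ 6 := by
          gcongr
          exact le_max_right _ _

/-- the family relation for the invariants of a Weierstrass equation -/
theorem prim_of_gmin (W : WeierstrassCurve ℤ) (hW : Pool.Agent.H39R3.GMin W) (r : ℤ)
    (h4 : r ^ 4 ∣ 27 * W.c₄) (h6 : r ^ 6 ∣ 54 * W.c₆) : |r| ≤ (6 : ℕ) := by
  obtain ⟨a, ha⟩ := h4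
  obtain ⟨b, hb⟩ := h6
  have hD := Pool.Agent.H39R3.D_c W
  have hr0 : r ≠ 0 := by
    rintro rfl
    apply hW.1
    have h1 : W.c₄ = 0 := by
      have : 27 * W.c₄ = 0 := by rw [ha]; ring
      omega
    have h2 : W.c₆ = 0 := by
      have : 54 * W.c₆ = 0 := by rw [hb]; ring
      omega
    have h3 := W.c_relation
    rw [h1, h2] at h3
    omega
  have hrQ : (r : ℚ) ≠ 0 := by exact_mod_cast hr0
  have haQ : (27 : ℚ) * W.c₄ = r ^ 4 * a := by exact_mod_cast ha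
  have hbQ : (54 : ℚ) * W.c₆ = r ^ 6 * b := by exact_mod_cast hb
  have h1 := hW.2 (Pool.Agent.H39R3.shortW a b) (Pool.Agent.H39R3.iso_short W (6 / r)
    (div_ne_zero (by norm_num) hrQ) a b (by
      rw [div_pow]
      field_simp
      linear_combination (-48 : ℚ) * haQ) (by
      rw [div_pow]
      field_simp
      linear_combination (-864 : ℚ) * hbQ))
  rw [Pool.Agent.H39R3.shortW_Δ] at h1
  by_contra hcon
  push Not at hcon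
  have h2 : 7 ≤ |r| := by
    push_cast at hcon
    omega
  have h3 : 78732 * 1728 * W.Δ = r ^ 12 * Pool.Agent.H925R.Szpiro.D a b := by
    rw [← hD, ha, hb]
    unfold Pool.Agent.H925R.Szpiro.D
    ring
  have h5 : (7 : ℤ) ^ 12 ≤ |r| ^ 12 := pow_le_pow_left₀ (by norm_num) h2 12
  have h6 : 0 < |W.Δ| := abs_pos.mpr hW.1
  have h7 : 78732 * 1728 * |W.Δ| = |r| ^ 12 * |Pool.Agent.H925R.Szpiro.D a b| := by
    rw [← abs_pow, ← abs_mul, ← h3, abs_mul]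
    norm_num
  have h8 : |16 * Pool.Agent.H925R.Szpiro.D a b| = 16 * |Pool.Agent.H925R.Szpiro.D a b| := by
    rw [abs_mul]
    norm_num
  rw [h8] at h1
  nlinarith [abs_nonneg (Pool.Agent.H925R.Szpiro.D a b)]

theorem prim_of_coprime (W : WeierstrassCurve ℤ) (hco : IsCoprime W.c₄ W.Δ) (r : ℤ)
    (h4 : r ^ 4 ∣ 27 * W.c₄) (h6 : r ^ 6 ∣ 54 * W.c₆) : |r| ≤ (6 : ℕ) := by
  obtain ⟨x, y, hxy⟩ : IsCoprime (W.c₄ ^ 3) W.Δ := hco.pow_left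
  have h1 : r ^ 12 ∣ (27 * W.c₄) ^ 3 := by
    have := pow_dvd_pow_of_dvd h4 3
    rwa [← pow_mul] at this
  have h2 : r ^ 12 ∣ (54 * W.c₆) ^ 2 := by
    have := pow_dvd_pow_of_dvd h6 2
    rwa [← pow_mul] at this
  have h3 : (4 * (27 * W.c₄) ^ 3 - 27 * (54 * W.c₆) ^ 2 : ℤ) = 136048896 * W.Δ := by
    have := W.c_relation
    linear_combination (-78732) * this
  have h5 : r ^ 12 ∣ 136048896 * W.Δ := by
    rw [← h3]
    exact dvd_sub (Dvd.dvd.mul_left h1 _) (Dvd.dvd.mul_left h2 _)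
  have h7 : r ^ 12 ∣ 6 ^ 12 := by
    have e : (6 : ℤ) ^ 12 = 110592 * x * (27 * W.c₄) ^ 3 + 16 * y * (136048896 * W.Δ) := by
      linear_combination (-(6 : ℤ) ^ 12) * hxy
    rw [e]
    exact dvd_add (Dvd.dvd.mul_left h1 _) (Dvd.dvd.mul_left h5 _)
  have h8 : |r| ^ 12 ≤ 6 ^ 12 := by
    rw [← abs_pow]
    exact Int.le_of_dvd (by norm_num) ((abs_dvd _ _).mpr h7)
  exact le_of_pow_le_pow_left₀ (by norm_num) (by norm_num) h8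

/-- counting Weierstrass equations by their invariants -/
theorem inv_count (A B : ℤ[X]) (k w L : ℕ) (hF : Fam A B k w L) (κ c ε : ℝ) (hκ : 0 < κ)
    (hc : 0 < c) (hε : 0 < ε) :
    ∃ C : ℝ, 0 < C ∧ ∀ X : ℕ, 1 ≤ X → ∀ S : Set (ℤ × ℤ),
      (∀ q ∈ S, ∃ W : WeierstrassCurve ℤ, W.Δ ≠ 0 ∧
        (∀ r : ℤ, r ^ 4 ∣ 27 * W.c₄ → r ^ 6 ∣ 54 * W.c₆ → |r| ≤ (6 : ℕ)) ∧
        Mem A B (27 * W.c₄) (54 * W.c₆) ∧ q = (W.c₄, W.c₆) ∧ |W.c₄| ^ 3 ≤ (X : ℤ) ^ 6 ∧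
        W.c₆ ^ 2 ≤ (X : ℤ) ^ 6 ∧ c * (rad5 W.Δ : ℝ) ^ κ ≤ (X : ℝ) ^ 6) →
      S.Finite ∧ (S.ncard : ℝ) ≤ C * (X : ℝ) ^ (12 / (κ * (L + 2 * w)) + ε) := by
  set c' : ℝ := max 1 (1 / c) with hc'
  have hc1 : 1 ≤ c' := le_max_left _ _
  obtain ⟨C, hC, h⟩ := count A B k w L hF 6 54 (c' ^ (1 / κ)) κ ε (by norm_num)
    (Real.one_le_rpow hc1 (by positivity)) hκ hε
  refine ⟨C, hC, fun X hX S hS => ?_⟩
  have hX1 : (1 : ℝ) ≤ X := by exact_mod_cast hX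
  let φ : ℤ × ℤ → ℤ × ℤ := fun q => (27 * q.1, 54 * q.2)
  have hφ : Function.Injective φ := by
    rintro ⟨a, b⟩ ⟨a', b'⟩ hab
    simp only [φ, Prod.mk.injEq] at hab
    obtain ⟨h1, h2⟩ := hab
    ext
    · simp only; omega
    · simp only; omega
  obtain ⟨hfin, hcard⟩ := h X hX1 (φ '' S) (by
    rintro _ ⟨q, hq, rfl⟩
    obtain ⟨W, hΔ, hprim, hmem, rfl, h4, h6, hrad⟩ := hS q hq
    have h3 : (4 * (27 * W.c₄) ^ 3 - 27 * (54 * W.c₆) ^ 2 : ℤ) = 136048896 * W.Δ := by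
      have := W.c_relation
      linear_combination (-78732) * this
    have hs4 : |(W.c₄ : ℝ)| ≤ (X : ℝ) ^ 2 := by
      have : |(W.c₄ : ℝ)| ^ 3 ≤ ((X : ℝ) ^ 2) ^ 3 := by
        rw [← pow_mul]
        exact_mod_cast h4
      exact le_of_pow_le_pow_left₀ (by norm_num) (by positivity) this
    have hs6 : |(W.c₆ : ℝ)| ≤ (X : ℝ) ^ 3 := by
      have : |(W.c₆ : ℝ)| ^ 2 ≤ ((X : ℝ) ^ 3) ^ 2 := by
        rw [← pow_mul, sq_abs]
        exact_mod_cast h6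
      exact le_of_pow_le_pow_left₀ (by norm_num) (by positivity) this
    have hX23 : (X : ℝ) ^ 2 ≤ (X : ℝ) ^ 3 := pow_le_pow_right₀ hX1 (by norm_num)
    refine ⟨?_, hmem, hprim, ?_, ?_, ?_⟩
    · change (4 * (27 * W.c₄) ^ 3 - 27 * (54 * W.c₆) ^ 2 : ℤ) ≠ 0
      rw [h3]
      exact mul_ne_zero (by norm_num) hΔ
    · change |((27 * W.c₄ : ℤ) : ℝ)| ≤ 54 * (X : ℝ) ^ 3
      push_cast
      rw [abs_mul, abs_of_pos (by norm_num : (0 : ℝ) < 27)]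
      have : 0 ≤ (X : ℝ) ^ 3 := by positivity
      linarith
    · change |((54 * W.c₆ : ℤ) : ℝ)| ≤ 54 * (X : ℝ) ^ 3
      push_cast
      rw [abs_mul, abs_of_pos (by norm_num : (0 : ℝ) < 54)]
      linarith
    · change (rad5 (4 * (27 * W.c₄) ^ 3 - 27 * (54 * W.c₆) ^ 2) : ℝ) ≤ _
      have hle : rad5 (4 * (27 * W.c₄) ^ 3 - 27 * (54 * W.c₆) ^ 2) ≤ rad5 W.Δ := by
        rw [h3]
        unfold rad5
        have hsub : (136048896 * W.Δ).natAbs.primeFactors.filter (fun p => 5 ≤ p) ⊆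
            W.Δ.natAbs.primeFactors.filter (fun p => 5 ≤ p) := by
          intro p hp
          obtain ⟨hp1, hp2⟩ := mem_filter.mp hp
          have hpp := Nat.prime_of_mem_primeFactors hp1
          refine mem_filter.mpr ⟨?_, hp2⟩
          have hd := Nat.dvd_of_mem_primeFactors hp1
          rw [Int.natAbs_mul] at hd
          rcases (Nat.Prime.dvd_mul hpp).mp hd with h | h
          · exfalso
            have h' : p ∣ 2 ^ 8 * 3 ^ 12 := by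
              have e : (136048896 : ℤ).natAbs = 2 ^ 8 * 3 ^ 12 := by norm_num
              rwa [e] at h
            rcases (Nat.Prime.dvd_mul hpp).mp h' with h | h
            · have := Nat.le_of_dvd (by norm_num) (hpp.dvd_of_dvd_pow h)
              omega
            · have := Nat.le_of_dvd (by norm_num) (hpp.dvd_of_dvd_pow h)
              omega
          · exact Nat.mem_primeFactors.mpr ⟨hpp, h, Int.natAbs_ne_zero.mpr hΔ⟩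
        exact Finset.prod_le_prod_of_subset_of_one_le' hsub fun i hi _ =>
          (Nat.prime_of_mem_primeFactors (mem_filter.mp hi).1).one_le
      refine le_trans (by exact_mod_cast hle) (root_le κ c' _ X hκ hc1 (Nat.cast_nonneg _) hX1 ?_)
      have e1 : (rad5 W.Δ : ℝ) ^ κ ≤ 1 / c * (X : ℝ) ^ 6 := by
        rw [one_div, ← div_eq_inv_mul, le_div_iff₀ hc]
        linarith
      refine e1.trans ?_
      gcongr
      exact le_max_right _ _)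
  refine ⟨Set.Finite.of_finite_image hfin hφ.injOn, ?_⟩
  rw [Set.ncard_image_of_injective _ hφ] at hcard
  exact hcard

end Pool.Agent.TH498.KB
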