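import Pool.Agent.W4.VC.Stms
import Pool.Agent.W349.VC.LAT
import Pool.Agent.W101.VC.CLS
import Pool.Agent.W177.VC.ROOT
import Pool.Agent.W349.VC.SEP
import Pool.Agent.W505.VC.HOM
import Pool.Agent.W505.VC.REV
import Pool.Agent.W290.VC.Res
import Pool.Agent.W335.CF.RAD

/-!
# Pairs of coprime integers where a form has a small radical: blocks
-/

set_option autoImplicit false

namespace Pool.Agent.TH498.KB

open Finset Polynomial Pool.Agent.W4.CF Pool.Agent.W4.VC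

theorem lat : S_LAT :=
  Pool.Agent.W349.VC.t_LAT
    (Pool.Agent.W101.VC.t_CLS Pool.Agent.W177.VC.ROOT.t_ROOT Pool.Agent.W505.VC.t_REV)
    Pool.Agent.W349.VC.t_SEP

theorem hom_prod {ι : Type} [DecidableEq ι]
    (s : Finset ι) (f : ι → ℤ[X]) (n : ι → ℕ) (hf : ∀ i ∈ s, (f i).natDegree ≤ n i) (a b : ℤ) :
    (∏ i ∈ s, f i).natDegree ≤ ∑ i ∈ s, n i ∧
    hom (∏ i ∈ s, f i) (∑ i ∈ s, n i) a b = ∏ i ∈ s, hom (f i) (n i) a b := by
  have h1 := Pool.Agent.W505.VC.t_HOM.1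
  induction s using Finset.induction_on with
  | empty =>
    refine ⟨by simp, ?_⟩
    simp [hom]
  | insert i s hi ih =>
    obtain ⟨ih1, ih2⟩ := ih (fun j hj => hf j (mem_insert_of_mem hj))
    rw [prod_insert hi, sum_insert hi, prod_insert hi]
    refine ⟨?_, ?_⟩
    · refine natDegree_mul_le.trans ?_
      exact add_le_add (hf i (mem_insert_self i s)) ih1
    · rw [h1 _ _ _ _ (hf i (mem_insert_self i s)) ih1, ih2]

theorem radp_pos (m n : ℕ) : 0 < radp m n := Pool.W335.CF.radp_pos m n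

/-- few coprime pairs in a box have a given value -/
theorem fibre (f : ℤ[X]) (n : ℕ) (hf : Sqf f n) (hn : 2 ≤ n) (ε : ℝ) (hε : 0 < ε) :
    ∃ C : ℝ, 0 < C ∧ ∀ (Y : ℝ) (t : ℕ), 1 ≤ Y → 1 ≤ t → ∀ s : Finset (ℤ × ℤ),
      (∀ p ∈ s, IsCoprime p.1 p.2 ∧ |(p.1 : ℝ)| ≤ Y ∧ |(p.2 : ℝ)| ≤ Y ∧
        (hom f n p.1 p.2).natAbs = t) →
      (s.card : ℝ) ≤ C * Y ^ ε := by
  obtain ⟨C1, hC1, h1⟩ := lat f n hf (by omega) (ε / (2 * n)) (by positivity)
  obtain ⟨C2, hC2, h2⟩ := Pool.Agent.W505.VC.t_HOM.2.1 f n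
  -- number of dyadic scales
  obtain ⟨C3, hC3, h3⟩ : ∃ C : ℝ, 0 < C ∧ ∀ Y : ℝ, 1 ≤ Y →
      (Real.log Y / Real.log 2 + 2) ≤ C * Y ^ (ε / 2) := by
    refine ⟨1 / (Real.log 2 * (ε / 2)) + 2, ?_, fun Y hY => ?_⟩
    · have := Real.log_pos one_lt_two
      positivity
    have hl2 := Real.log_pos one_lt_two
    have hY0 : 0 < Y := by linarith
    have e1 : Real.log Y ≤ Y ^ (ε / 2) / (ε / 2) := Real.log_le_rpow_div hY0.le (by positivity)
    have e2 : (1 : ℝ) ≤ Y ^ (ε / 2) := Real.one_le_rpow hY (by positivity)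
    calc Real.log Y / Real.log 2 + 2 ≤ (Y ^ (ε / 2) / (ε / 2)) / Real.log 2 + 2 * Y ^ (ε / 2) := by
          have := div_le_div_of_nonneg_right e1 hl2.le
          linarith
      _ = _ := by field_simp
  refine ⟨C3 * (2 * C1 * C2 ^ (ε / (2 * n))), by positivity, ?_⟩
  intro Y t hY ht s hs
  have hY0 : 0 < Y := by linarith
  have ht0 : (0 : ℝ) < t := by exact_mod_cast ht
  -- the scale of a pair
  let κ : ℤ × ℤ → ℕ := fun p => Nat.clog 2 (max p.1.natAbs p.2.natAbs)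
  set N : ℕ := ⌊Real.log Y / Real.log 2⌋₊ + 1 with hN
  have hmax : ∀ p ∈ s, 1 ≤ max p.1.natAbs p.2.natAbs ∧
      ((max p.1.natAbs p.2.natAbs : ℕ) : ℝ) = max |(p.1 : ℝ)| |(p.2 : ℝ)| := by
    intro p hp
    obtain ⟨hc, -, -, -⟩ := hs p hp
    refine ⟨?_, ?_⟩
    · by_contra hlt
      have hz : max p.1.natAbs p.2.natAbs = 0 := by omega
      have z1 : p.1 = 0 := by
        have := le_max_left p.1.natAbs p.2.natAbs
        omega
      have z2 : p.2 = 0 := by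
        have := le_max_right p.1.natAbs p.2.natAbs
        omega
      rw [z1, z2] at hc
      exact not_isCoprime_zero_zero hc
    · rw [Nat.cast_max, Nat.cast_natAbs, Nat.cast_natAbs]
      push_cast
      rfl
  have hmem : ∀ p ∈ s, κ p ∈ range (N + 1) := by
    intro p hp
    obtain ⟨m1, m2⟩ := hmax p hp
    obtain ⟨hc, b1, b2, -⟩ := hs p hp
    rw [mem_range]
    have hle : ((max p.1.natAbs p.2.natAbs : ℕ) : ℝ) ≤ Y := by rw [m2]; exact max_le b1 b2
    have hN2 : Y ≤ (2 : ℝ) ^ N := by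
      have hl2 := Real.log_pos one_lt_two
      have : Real.log Y / Real.log 2 ≤ N := by
        rw [hN]
        push_cast
        exact (Nat.lt_floor_add_one _).le
      rw [div_le_iff₀ hl2] at this
      calc Y = Real.exp (Real.log Y) := (Real.exp_log hY0).symm
        _ ≤ Real.exp (N * Real.log 2) := Real.exp_le_exp.mpr this
        _ = (2 : ℝ) ^ N := by
            rw [← Real.rpow_natCast, Real.rpow_def_of_pos two_pos, mul_comm]
    have : max p.1.natAbs p.2.natAbs ≤ 2 ^ N := by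
      have := hle.trans hN2
      exact_mod_cast this
    have h5 : Nat.clog 2 (max p.1.natAbs p.2.natAbs) ≤ N := Nat.clog_le_of_le_pow this
    have h6 : κ p = Nat.clog 2 (max p.1.natAbs p.2.natAbs) := rfl
    omega
  have hfib : ∀ j ∈ range (N + 1), (((s.filter (fun p => κ p = j)).card : ℕ) : ℝ) ≤
      2 * C1 * (t : ℝ) ^ (ε / (2 * n)) := by
    intro j hj
    have hY1 : (1 : ℝ) ≤ (2 : ℝ) ^ j := one_le_pow₀ one_le_two
    have := h1 ((2 : ℝ) ^ j) t t hY1 ht0.le ht (s.filter (fun p => κ p = j)) ?_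
    · refine this.trans ?_
      have e1 : (t : ℝ) * ((2 : ℝ) ^ j) ^ 2 / (((2 : ℝ) ^ j) ^ n * t) ≤ 1 := by
        rw [div_le_one (by positivity)]
        have : ((2 : ℝ) ^ j) ^ 2 ≤ ((2 : ℝ) ^ j) ^ n := pow_le_pow_right₀ hY1 hn
        nlinarith
      have e2 : 0 < C1 * (t : ℝ) ^ (ε / (2 * n)) := by positivity
      nlinarith
    · intro p hp
      rw [mem_filter] at hp
      obtain ⟨hp, hκ⟩ := hp
      obtain ⟨hc, b1, b2, b3⟩ := hs p hp
      obtain ⟨m1, m2⟩ := hmax p hp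
      have hκ' : Nat.clog 2 (max p.1.natAbs p.2.natAbs) = j := hκ
      have up : max p.1.natAbs p.2.natAbs ≤ 2 ^ j := by
        rw [← hκ']
        exact Nat.le_pow_clog one_lt_two _
      have upR : max |(p.1 : ℝ)| |(p.2 : ℝ)| ≤ (2 : ℝ) ^ j := by
        rw [← m2]
        exact_mod_cast up
      have lo : (2 : ℝ) ^ j ≤ 2 * max |(p.1 : ℝ)| |(p.2 : ℝ)| := by
        rw [← m2]
        rcases Nat.eq_zero_or_pos j with hj0 | hj0
        · rw [hj0, pow_zero]
          have : (1 : ℝ) ≤ ((max p.1.natAbs p.2.natAbs : ℕ) : ℝ) := by exact_mod_cast m1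
          linarith
        · have hgt : 1 < max p.1.natAbs p.2.natAbs := by
            by_contra hle
            have : max p.1.natAbs p.2.natAbs = 1 := by omega
            rw [this] at hκ'
            simp at hκ'
            omega
          have := Nat.pow_pred_clog_lt_self one_lt_two hgt
          rw [hκ'] at this
          have e : (2 : ℝ) ^ j = 2 * (2 : ℝ) ^ (j.pred) := by
            rw [← pow_succ']
            congr 1
            rw [Nat.pred_eq_sub_one]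
            omega
          rw [e]
          have : ((2 : ℝ) ^ j.pred) ≤ ((max p.1.natAbs p.2.natAbs : ℕ) : ℝ) := by
            exact_mod_cast this.le
          linarith
      refine ⟨⟨hc, (le_max_left _ _).trans upR, (le_max_right _ _).trans upR, lo⟩, ?_, ?_⟩
      · rw [← b3]
        exact Int.natAbs_dvd.mpr dvd_rfl
      · rw [← b3, Nat.cast_natAbs]
        push_cast
        exact le_rfl
  have hcard : (s.card : ℝ) ≤ ∑ j ∈ range (N + 1), 2 * C1 * (t : ℝ) ^ (ε / (2 * n)) := by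
    have := card_eq_sum_card_fiberwise (f := κ) (s := s) (t := range (N + 1)) (fun p hp => hmem p hp)
    rw [this]
    push_cast
    exact sum_le_sum hfib
  rcases s.eq_empty_or_nonempty with rfl | ⟨p, hp⟩
  · simp
    positivity
  have htY : (t : ℝ) ≤ C2 * Y ^ n := by
    obtain ⟨hc, b1, b2, b3⟩ := hs p hp
    have e1 := h2 p.1 p.2
    rw [← b3, Nat.cast_natAbs]
    push_cast
    refine e1.trans ?_
    have e2 : max |(p.1 : ℝ)| |(p.2 : ℝ)| ≤ Y := max_le b1 b2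
    have e3 : 0 ≤ max |(p.1 : ℝ)| |(p.2 : ℝ)| := (abs_nonneg _).trans (le_max_left _ _)
    gcongr
  have hn0 : (0 : ℝ) < n := by exact_mod_cast (by omega : 0 < n)
  have htp : (t : ℝ) ^ (ε / (2 * n)) ≤ C2 ^ (ε / (2 * n)) * Y ^ (ε / 2) := by
    calc (t : ℝ) ^ (ε / (2 * n)) ≤ (C2 * Y ^ n) ^ (ε / (2 * n)) :=
          Real.rpow_le_rpow ht0.le htY (by positivity)
      _ = C2 ^ (ε / (2 * n)) * Y ^ (ε / 2) := by
          rw [Real.mul_rpow (by linarith) (by positivity), ← Real.rpow_natCast Y n,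
            ← Real.rpow_mul hY0.le]
          congr 2
          field_simp
  rw [sum_const, card_range, nsmul_eq_mul] at hcard
  have hN' : ((N + 1 : ℕ) : ℝ) ≤ C3 * Y ^ (ε / 2) := by
    refine le_trans ?_ (h3 Y hY)
    rw [hN]
    push_cast
    have := Nat.floor_le (a := Real.log Y / Real.log 2)
      (div_nonneg (Real.log_nonneg hY) (Real.log_nonneg one_le_two))
    linarith
  calc (s.card : ℝ) ≤ ((N + 1 : ℕ) : ℝ) * (2 * C1 * (t : ℝ) ^ (ε / (2 * n))) := hcard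
    _ ≤ (C3 * Y ^ (ε / 2)) * (2 * C1 * (C2 ^ (ε / (2 * n)) * Y ^ (ε / 2))) := by
        gcongr
    _ = C3 * (2 * C1 * C2 ^ (ε / (2 * n))) * (Y ^ (ε / 2) * Y ^ (ε / 2)) := by ring
    _ = C3 * (2 * C1 * C2 ^ (ε / (2 * n))) * Y ^ ε := by
        rw [← Real.rpow_add hY0]
        congr 2
        ring

/-- few coprime pairs in a box have a value with a small radical -/
theorem small (f : ℤ[X]) (n : ℕ) (hf : Sqf f n) (hn : 2 ≤ n) (ε : ℝ) (hε : 0 < ε) :
    ∃ C : ℝ, 0 < C ∧ ∀ (m : ℕ) (Y S : ℝ), 1 ≤ m → 1 ≤ Y → 0 ≤ S → ∀ s : Finset (ℤ × ℤ),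
      (∀ p ∈ s, IsCoprime p.1 p.2 ∧ |(p.1 : ℝ)| ≤ Y ∧ |(p.2 : ℝ)| ≤ Y ∧
        hom f n p.1 p.2 ≠ 0 ∧ (radp m (hom f n p.1 p.2).natAbs : ℝ) ≤ S) →
      (s.card : ℝ) ≤ C * ((m : ℝ) * Y) ^ ε * S := by
  obtain ⟨C1, hC1, h1⟩ := fibre f n hf hn (ε / 2) (by positivity)
  obtain ⟨C2, hC2, h2⟩ := Pool.Agent.W505.VC.t_HOM.2.1 f n
  have hn0 : (0 : ℝ) < n := by exact_mod_cast (by omega : 0 < n)
  obtain ⟨C3, hC3, h3⟩ := Pool.W335.CF.t_RAD (ε / (2 * n)) (by positivity)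
  refine ⟨C1 * C3 * C2 ^ (ε / (2 * n)), by positivity, ?_⟩
  intro m Y S hm hY hS s hs
  have hY0 : 0 < Y := by linarith
  have hm0 : (1 : ℝ) ≤ m := by exact_mod_cast hm
  set T : ℕ := ⌊C2 * Y ^ n⌋₊ with hT
  have hYn : (1 : ℝ) ≤ Y ^ n := one_le_pow₀ hY
  have hT1 : 1 ≤ T := by
    apply Nat.le_floor
    push_cast
    nlinarith
  have hTle : (T : ℝ) ≤ C2 * Y ^ n := Nat.floor_le (by positivity)
  let κ : ℤ × ℤ → ℕ := fun p => (hom f n p.1 p.2).natAbs
  have hmem : ∀ p ∈ s, κ p ∈ Icc 1 T := by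
    intro p hp
    obtain ⟨hc, b1, b2, b3, -⟩ := hs p hp
    rw [mem_Icc]
    refine ⟨Int.natAbs_pos.mpr b3, ?_⟩
    apply Nat.le_floor
    have e1 := h2 p.1 p.2
    have e4 : ((κ p : ℕ) : ℝ) = |((hom f n p.1 p.2 : ℤ) : ℝ)| := by
      show (((hom f n p.1 p.2).natAbs : ℕ) : ℝ) = _
      rw [Nat.cast_natAbs]
      push_cast
      rfl
    rw [e4]
    refine e1.trans ?_
    have e2 : max |(p.1 : ℝ)| |(p.2 : ℝ)| ≤ Y := max_le b1 b2
    have e3 : 0 ≤ max |(p.1 : ℝ)| |(p.2 : ℝ)| := (abs_nonneg _).trans (le_max_left _ _)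
    gcongr
  have hfib : ∀ t ∈ Icc 1 T, (((s.filter (fun p => κ p = t)).card : ℕ) : ℝ) ≤
      C1 * Y ^ (ε / 2) * S * (1 / (radp m t : ℝ)) := by
    intro t ht
    have hr0 : (0 : ℝ) < (radp m t : ℝ) := by exact_mod_cast radp_pos m t
    rcases (s.filter (fun p => κ p = t)).eq_empty_or_nonempty with h0 | ⟨p, hp⟩
    · rw [h0]
      simp
      positivity
    · have hcard := h1 Y t hY (mem_Icc.mp ht).1 (s.filter (fun p => κ p = t)) (by
        intro p hp
        rw [mem_filter] at hp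
        obtain ⟨hc, b1, b2, b3, -⟩ := hs p hp.1
        exact ⟨hc, b1, b2, hp.2⟩)
      rw [mem_filter] at hp
      obtain ⟨hp, hκ⟩ := hp
      have hκ' : (hom f n p.1 p.2).natAbs = t := hκ
      have b4 := (hs p hp).2.2.2.2
      rw [hκ'] at b4
      have : 1 ≤ S * (1 / (radp m t : ℝ)) := by
        rw [mul_one_div, le_div_iff₀ hr0]
        linarith
      calc _ ≤ C1 * Y ^ (ε / 2) := hcard
        _ = C1 * Y ^ (ε / 2) * 1 := by ring
        _ ≤ C1 * Y ^ (ε / 2) * (S * (1 / (radp m t : ℝ))) := by gcongr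
        _ = _ := by ring
  have hcard : (s.card : ℝ) ≤ ∑ t ∈ Icc 1 T, C1 * Y ^ (ε / 2) * S * (1 / (radp m t : ℝ)) := by
    rw [card_eq_sum_card_fiberwise (f := κ) (s := s) (t := Icc 1 T) (fun p hp => hmem p hp)]
    push_cast
    exact sum_le_sum hfib
  rw [← mul_sum] at hcard
  have h4 := h3 m T hm hT1
  have h5 : ((m : ℝ) * T) ^ (ε / (2 * n)) ≤ (m : ℝ) ^ (ε / 2) * (C2 ^ (ε / (2 * n)) * Y ^ (ε / 2)) := by
    have hexp : ε / (2 * (n : ℝ)) ≤ ε / 2 := by
      have h2n : (2 : ℝ) ≤ n := by exact_mod_cast hn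
      apply div_le_div_of_nonneg_left hε.le (by norm_num)
      nlinarith
    rw [Real.mul_rpow (by positivity) (by positivity)]
    refine mul_le_mul (Real.rpow_le_rpow_of_exponent_le hm0 hexp) ?_ (by positivity) (by positivity)
    calc (T : ℝ) ^ (ε / (2 * n)) ≤ (C2 * Y ^ n) ^ (ε / (2 * n)) :=
          Real.rpow_le_rpow (by positivity) hTle (by positivity)
      _ = C2 ^ (ε / (2 * n)) * Y ^ (ε / 2) := by
          rw [Real.mul_rpow (by linarith) (by positivity), ← Real.rpow_natCast Y n,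
            ← Real.rpow_mul hY0.le]
          congr 2
          field_simp
  calc (s.card : ℝ) ≤ C1 * Y ^ (ε / 2) * S * ∑ t ∈ Icc 1 T, (1 / (radp m t : ℝ)) := hcard
    _ ≤ C1 * Y ^ (ε / 2) * S * (C3 * ((m : ℝ) * T) ^ (ε / (2 * n))) := by gcongr
    _ ≤ C1 * Y ^ (ε / 2) * S *
        (C3 * ((m : ℝ) ^ (ε / 2) * (C2 ^ (ε / (2 * n)) * Y ^ (ε / 2)))) := by gcongr
    _ = C1 * C3 * C2 ^ (ε / (2 * n)) * ((m : ℝ) ^ (ε / 2) * (Y ^ (ε / 2) * Y ^ (ε / 2))) * S := by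
        ring
    _ ≤ C1 * C3 * C2 ^ (ε / (2 * n)) * ((m : ℝ) ^ ε * Y ^ ε) * S := by
        have e1 : (m : ℝ) ^ (ε / 2) ≤ (m : ℝ) ^ ε :=
          Real.rpow_le_rpow_of_exponent_le hm0 (by linarith)
        have e2 : Y ^ (ε / 2) * Y ^ (ε / 2) = Y ^ ε := by
          rw [← Real.rpow_add hY0]
          congr 1
          ring
        rw [e2]
        gcongr
    _ = C1 * C3 * C2 ^ (ε / (2 * n)) * ((m : ℝ) * Y) ^ ε * S := by
        rw [Real.mul_rpow (by positivity) hY0.le]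

end Pool.Agent.TH498.KB
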