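import Pool.Agent.TH498.KB.Blocks

/-!
# Members of a one-parameter family of elliptic curves with a small product of bad primes
-/

set_option autoImplicit false

namespace Pool.Agent.TH498.KB

open Finset Polynomial Pool.Agent.W4.CF Pool.Agent.W4.VC

/-- a polynomial over `ℚ` with denominators cleared -/
theorem clear (P : ℚ[X]) : ∃ (N : ℤ) (P' : ℤ[X]), N ≠ 0 ∧
    P'.map (Int.castRingHom ℚ) = C (N : ℚ) * P := by
  obtain ⟨b, hb0, hb⟩ := IsLocalization.integerNormalization_spec (nonZeroDivisors ℤ) P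
  refine ⟨b, IsLocalization.integerNormalization (nonZeroDivisors ℤ) P,
    nonZeroDivisors.ne_zero hb0, ?_⟩
  have h1 : (algebraMap ℤ ℚ) = Int.castRingHom ℚ := rfl
  rw [← h1, hb]
  ext j
  simp

theorem hom_add (f g : ℤ[X]) (n : ℕ) (a b : ℤ) : hom (f + g) n a b = hom f n a b + hom g n a b := by
  unfold hom
  rw [← sum_add_distrib]
  exact sum_congr rfl fun j _ => by rw [coeff_add]; ring

theorem hom_C (N : ℤ) (n : ℕ) (a b : ℤ) : hom (C N) n a b = N * b ^ n := by
  unfold hom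
  rw [sum_eq_single 0]
  · simp
  · intro j _ hj
    rw [coeff_C_of_ne_zero hj]
    ring
  · intro h
    exact absurd (mem_range.mpr (Nat.succ_pos n)) h

theorem hom_top (f : ℤ[X]) (n : ℕ) (hn : 1 ≤ n) (a b : ℤ) :
    hom f n a b = f.coeff n * a ^ n + b * hom f (n - 1) a b := by
  unfold hom
  rw [sum_range_succ, Nat.sub_self, pow_zero, mul_one, add_comm, mul_sum,
    Nat.sub_add_cancel hn]
  congr 1
  refine sum_congr rfl fun j hj => ?_
  have h1 : n - j = (n - 1 - j) + 1 := by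
    have := mem_range.mp hj
    omega
  rw [h1, pow_succ]
  ring

theorem hom_eval (f : ℤ[X]) (n : ℕ) (hf : f.natDegree ≤ n) (a b : ℤ) (hb : (b : ℚ) ≠ 0) :
    ((hom f n a b : ℤ) : ℚ) = (b : ℚ) ^ n * (f.map (Int.castRingHom ℚ)).eval ((a : ℚ) / b) := by
  rw [eval_eq_sum_range' (n := n + 1) (by
    exact lt_of_le_of_lt (natDegree_map_le.trans hf) (Nat.lt_succ_self n))]
  unfold hom
  push_cast
  rw [mul_sum]
  refine sum_congr rfl fun j hj => ?_
  have hjn : j ≤ n := Nat.lt_succ_iff.mp (mem_range.mp hj)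
  rw [coeff_map, div_pow]
  have h1 : (b : ℚ) ^ n = (b : ℚ) ^ (n - j) * (b : ℚ) ^ j := by
    rw [← pow_add, Nat.sub_add_cancel hjn]
  rw [h1, eq_intCast]
  field_simp

/-- two coprime forms: common divisors and size of the values -/
theorem bez (f g : ℤ[X]) (α β : ℕ) (hα : 1 ≤ α) (hβ : 1 ≤ β) (hf : f.natDegree ≤ α)
    (hg : g.natDegree ≤ β)
    (hfg : IsCoprime (f.map (Int.castRingHom ℚ)) (g.map (Int.castRingHom ℚ)))
    (hlead : f.coeff α ≠ 0) :
    ∃ (M : ℕ) (K : ℝ), 1 ≤ M ∧ 1 ≤ K ∧ ∀ a b : ℤ, IsCoprime a b →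
      (∀ d : ℤ, d ∣ hom f α a b → d ∣ hom g β a b → d ∣ M) ∧
      max |(a : ℝ)| |(b : ℝ)| ≤ K * (|((hom f α a b : ℤ) : ℝ)| + |((hom g β a b : ℤ) : ℝ)|) := by
  obtain ⟨P, Q, hPQ⟩ := hfg
  obtain ⟨N1, P', hN1, hP'⟩ := clear P
  obtain ⟨N2, Q', hN2, hQ'⟩ := clear Q
  -- an identity over the integers
  set U : ℤ[X] := C N2 * P' with hU
  set V : ℤ[X] := C N1 * Q' with hV
  set N : ℤ := N1 * N2 with hN
  have hN0 : N ≠ 0 := mul_ne_zero hN1 hN2
  have hid : U * f + V * g = C N := by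
    apply Polynomial.map_injective (Int.castRingHom ℚ) Int.cast_injective
    simp only [hU, hV, Polynomial.map_add, Polynomial.map_mul, hP', hQ', map_C]
    have h1 : C ((Int.castRingHom ℚ) N) = C ((N1 : ℚ)) * C ((N2 : ℚ)) * (P * f.map (Int.castRingHom ℚ)
        + Q * g.map (Int.castRingHom ℚ)) := by
      rw [hPQ, mul_one, ← C_mul, hN]
      simp
    rw [h1]
    simp only [eq_intCast]
    ring
  set e : ℕ := max (U.natDegree + α) (V.natDegree + β) with he
  have he1 : U.natDegree ≤ e - α := by omega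
  have he2 : V.natDegree ≤ e - β := by omega
  have he3 : e - α + α = e := by omega
  have he4 : e - β + β = e := by omega
  have hmul := Pool.Agent.W505.VC.t_HOM.1
  have hidh : ∀ a b : ℤ, hom U (e - α) a b * hom f α a b + hom V (e - β) a b * hom g β a b =
      N * b ^ e := by
    intro a b
    rw [← hmul U f (e - α) α he1 hf a b, ← hmul V g (e - β) β he2 hg a b, he3, he4, ← hom_add, hid,
      hom_C]
  obtain ⟨C1, hC1, h1⟩ := Pool.Agent.W505.VC.t_HOM.2.1 U (e - α)
  obtain ⟨C2, hC2, h2⟩ := Pool.Agent.W505.VC.t_HOM.2.1 V (e - β)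
  obtain ⟨C3, hC3, h3⟩ := Pool.Agent.W505.VC.t_HOM.2.1 f (α - 1)
  refine ⟨(N * f.coeff α ^ e).natAbs, (2 * C3) ^ e * (C1 + C2) + 2, ?_, ?_, ?_⟩
  · have : N * f.coeff α ^ e ≠ 0 := mul_ne_zero hN0 (pow_ne_zero _ hlead)
    exact Nat.one_le_iff_ne_zero.mpr (Int.natAbs_ne_zero.mpr this)
  · have : 0 ≤ (2 * C3) ^ e * (C1 + C2) := by positivity
    linarith
  intro a b hab
  have htop := hom_top f α hα a b
  refine ⟨?_, ?_⟩
  · intro d hd1 hd2
    have k1 : d ∣ N * b ^ e := by
      rw [← hidh a b]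
      exact dvd_add (Dvd.dvd.mul_left hd1 _) (Dvd.dvd.mul_left hd2 _)
    have k2 : d ∣ N * (f.coeff α * a ^ α) ^ e := by
      have e1 : (f.coeff α * a ^ α) = hom f α a b - b * hom f (α - 1) a b := by
        rw [htop]; ring
      have e2 : d ∣ (f.coeff α * a ^ α) ^ e - (-(b * hom f (α - 1) a b)) ^ e := by
        refine dvd_trans ?_ (sub_dvd_pow_sub_pow _ _ e)
        rw [e1]
        have : hom f α a b - b * hom f (α - 1) a b - -(b * hom f (α - 1) a b) = hom f α a b := by
          ring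
        rw [this]
        exact hd1
      have e3 : N * (f.coeff α * a ^ α) ^ e = N * ((f.coeff α * a ^ α) ^ e -
          (-(b * hom f (α - 1) a b)) ^ e) + (N * b ^ e) * (-hom f (α - 1) a b) ^ e := by
        have : (-(b * hom f (α - 1) a b)) ^ e = b ^ e * (-hom f (α - 1) a b) ^ e := by
          rw [← mul_pow]; congr 1; ring
        rw [this]; ring
      rw [e3]
      exact dvd_add (Dvd.dvd.mul_left e2 _) (Dvd.dvd.mul_right k1 _)
    rw [Int.dvd_natAbs]
    obtain ⟨x, y, hxy⟩ : IsCoprime ((a ^ α) ^ e) (b ^ e) := (hab.pow_left.pow_left).pow_right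
    have e4 : N * f.coeff α ^ e = x * (N * (f.coeff α * a ^ α) ^ e) +
        y * f.coeff α ^ e * (N * b ^ e) := by
      rw [mul_pow]
      linear_combination (-(N * f.coeff α ^ e)) * hxy
    rw [e4]
    exact dvd_add (Dvd.dvd.mul_left k2 _) (Dvd.dvd.mul_left k1 _)
  · set H : ℝ := max |(a : ℝ)| |(b : ℝ)| with hH
    have hH1 : 1 ≤ H := by
      rcases eq_or_ne a 0 with ha | ha
      · have hb : b ≠ 0 := by
          rintro rfl
          rw [ha] at hab
          exact not_isCoprime_zero_zero hab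
        refine le_trans ?_ (le_max_right _ _)
        exact_mod_cast Int.one_le_abs hb
      · refine le_trans ?_ (le_max_left _ _)
        exact_mod_cast Int.one_le_abs ha
    have hH0 : 0 < H := by linarith
    set S : ℝ := |((hom f α a b : ℤ) : ℝ)| + |((hom g β a b : ℤ) : ℝ)| with hS
    have hS0 : 0 ≤ S := by positivity
    have hS1 : |((hom f α a b : ℤ) : ℝ)| ≤ S := by rw [hS]; linarith [abs_nonneg ((hom g β a b : ℤ) : ℝ)]
    have hS2 : |((hom g β a b : ℤ) : ℝ)| ≤ S := by rw [hS]; linarith [abs_nonneg ((hom f α a b : ℤ) : ℝ)]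
    by_cases hcase : |(a : ℝ)| ≤ 2 * C3 * |(b : ℝ)|
    · have hHb : H ≤ 2 * C3 * |(b : ℝ)| := by
        rw [hH]
        refine max_le hcase ?_
        nlinarith [abs_nonneg (b : ℝ)]
      have key : |(b : ℝ)| ^ e ≤ (C1 + C2) * H ^ (e - 1) * S := by
        have e1 : |((N * b ^ e : ℤ) : ℝ)| ≤ (C1 + C2) * H ^ (e - 1) * S := by
          rw [← hidh a b]
          push_cast
          refine (abs_add_le _ _).trans ?_
          rw [abs_mul, abs_mul]
          have g1 := h1 a b
          have g2 := h2 a b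
          rw [← hH] at g1 g2
          have g3 : H ^ (e - α) ≤ H ^ (e - 1) := pow_le_pow_right₀ hH1 (by omega)
          have g4 : H ^ (e - β) ≤ H ^ (e - 1) := pow_le_pow_right₀ hH1 (by omega)
          calc |((hom U (e - α) a b : ℤ) : ℝ)| * |((hom f α a b : ℤ) : ℝ)| +
                |((hom V (e - β) a b : ℤ) : ℝ)| * |((hom g β a b : ℤ) : ℝ)| ≤
                (C1 * H ^ (e - 1)) * S + (C2 * H ^ (e - 1)) * S := by
                gcongr
                · exact g1.trans (by gcongr)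
                · exact g2.trans (by gcongr)
            _ = (C1 + C2) * H ^ (e - 1) * S := by ring
        refine le_trans ?_ e1
        push_cast
        rw [abs_mul, abs_pow]
        have : (1 : ℝ) ≤ |(N : ℝ)| := by exact_mod_cast Int.one_le_abs hN0
        nlinarith [pow_nonneg (abs_nonneg (b : ℝ)) e]
      have e5 : H ^ e ≤ (2 * C3) ^ e * |(b : ℝ)| ^ e := by
        rw [← mul_pow]
        exact pow_le_pow_left₀ hH0.le hHb e
      have e6 : H ^ e = H ^ (e - 1) * H := by
        rw [← pow_succ, Nat.sub_add_cancel (by omega)]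
      have e7 : H ^ (e - 1) * H ≤ H ^ (e - 1) * ((2 * C3) ^ e * (C1 + C2) * S) := by
        rw [← e6]
        refine e5.trans ?_
        calc (2 * C3) ^ e * |(b : ℝ)| ^ e ≤ (2 * C3) ^ e * ((C1 + C2) * H ^ (e - 1) * S) := by
              gcongr
          _ = _ := by ring
      have e8 : H ≤ (2 * C3) ^ e * (C1 + C2) * S := le_of_mul_le_mul_left e7 (by positivity)
      refine e8.trans ?_
      have : 0 ≤ 2 * S := by linarith
      linarith
    · push Not at hcase
      have hab' : |(b : ℝ)| ≤ |(a : ℝ)| := by nlinarith [abs_nonneg (b : ℝ)]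
      have hHa : H = |(a : ℝ)| := by rw [hH]; exact max_eq_left hab'
      have g3 := h3 a b
      rw [← hH, hHa] at g3
      have ha1 : 1 ≤ |(a : ℝ)| := by rw [← hHa]; exact hH1
      have g4 : |(a : ℝ)| ^ α ≤ 2 * |((hom f α a b : ℤ) : ℝ)| := by
        have g5 : |(a : ℝ)| ^ α ≤ |((f.coeff α * a ^ α : ℤ) : ℝ)| := by
          push_cast
          rw [abs_mul, abs_pow]
          have : (1 : ℝ) ≤ |((f.coeff α : ℤ) : ℝ)| := by exact_mod_cast Int.one_le_abs hlead
          nlinarith [pow_nonneg (abs_nonneg (a : ℝ)) α]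
        have g6 : ((f.coeff α * a ^ α : ℤ) : ℝ) = ((hom f α a b : ℤ) : ℝ) -
            (b : ℝ) * ((hom f (α - 1) a b : ℤ) : ℝ) := by
          rw [htop]; push_cast; ring
        have g7 : |((f.coeff α * a ^ α : ℤ) : ℝ)| ≤ |((hom f α a b : ℤ) : ℝ)| +
            |(b : ℝ)| * (C3 * |(a : ℝ)| ^ (α - 1)) := by
          rw [g6]
          refine (abs_sub _ _).trans ?_
          rw [abs_mul]
          gcongr
        have g8 : |(b : ℝ)| * (C3 * |(a : ℝ)| ^ (α - 1)) ≤ |(a : ℝ)| ^ α / 2 := by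
          have g9 : |(a : ℝ)| ^ α = |(a : ℝ)| * |(a : ℝ)| ^ (α - 1) := by
            rw [← pow_succ', Nat.sub_add_cancel hα]
          rw [g9]
          nlinarith [pow_nonneg (abs_nonneg (a : ℝ)) (α - 1)]
        linarith
      have g10 : |(a : ℝ)| ≤ |(a : ℝ)| ^ α := le_self_pow₀ ha1 (by omega)
      rw [hHa]
      have : 0 ≤ (2 * C3) ^ e * (C1 + C2) * S := by positivity
      linarith

end Pool.Agent.TH498.KB
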