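import Pool.Agent.TH498.KB.Blocks
import Pool.Agent.W4.QD.Conj
import Pool.Agent.W462.QD.CntQ
import Pool.Agent.W4.CF.Htq

/-!
# Rational points close to a divisor on the projective line: pieces of degree at least two and
rational points
-/

set_option autoImplicit false

namespace Pool.Agent.TH498.KB

open NumberField IsDedekindDomain Finset Polynomial Pool.Agent.W4.CF Pool.Agent.W4.VC
  Pool.Agent.W4.QD

theorem p1_main (K : Type) [Field K] [NumberField K]
    (T : Set (HeightOneSpectrum (RingOfIntegers K)))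
    (hT : T.Finite) (q : ℕ) (α : Fin q → K × K) (hα0 : ∀ i, α i ≠ 0)
    (hα : ∀ i j, i ≠ j → (α i).1 * (α j).2 - (α i).2 * (α j).1 ≠ 0)
    (w L : ℕ) (hL : L ≠ 1) (hwL : 1 ≤ w + L) (g : Fin w → ℤ[X]) (n : Fin w → ℕ)
    (hgn : ∀ j, (g j).natDegree ≤ n j) (hn : ∀ j, 2 ≤ n j)
    (h : Fin L → ℤ[X]) (hh : ∀ i, (h i).natDegree ≤ 1)
    (hq : ∑ j, n j + L = q)
    (hsq : Sqf ((∏ j, g j) * ∏ i, h i) q)
    (hF : ∀ i, ∑ j ∈ range (q + 1), (((∏ j, g j) * ∏ i, h i).coeff j : K) * (α i).1 ^ j *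
      (α i).2 ^ (q - j) = 0)
    (κ c0 δ : ℝ) (h3 : κ ≤ q) (hδ : 0 < δ) :
    ∃ C : ℝ, 0 < C ∧ ∀ B : ℝ, 1 ≤ B → (EQ T α κ c0 B).Finite ∧
      ((EQ T α κ c0 B).ncard : ℝ) ≤ C * B ^ (2 * (q - κ) / (L + 2 * w) + δ) := by
  classical
  set f : ℤ[X] := (∏ j, g j) * ∏ i, h i with hf
  have hf0 : f ≠ 0 := by
    rintro h0
    have := hsq.1.ne_zero
    rw [h0, Polynomial.map_zero] at this
    exact this rfl
  obtain ⟨m, hm, hcnt⟩ := Pool.Agent.W462.QD.t_CNTQ K T hT q α hα0 hα f hf0 hsq.2.1 hF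
  obtain ⟨C, hC, hmain⟩ := paired w L hL hwL g n hgn hn h hh
    (by rw [hq]; exact hsq) δ hδ
  rw [hq, ← hf] at hmain
  set lam : ℝ := q - κ with hlam
  have hlam0 : 0 ≤ lam := by rw [hlam]; linarith
  set C0 : ℝ := max 1 (Real.exp c0) with hC0
  have hC01 : 1 ≤ C0 := le_max_left _ _
  have hLw : (0 : ℝ) < (L : ℝ) + 2 * w := by
    have : 1 ≤ (w : ℝ) + L := by exact_mod_cast hwL
    have h1 : (0 : ℝ) ≤ w := Nat.cast_nonneg w
    linarith
  refine ⟨C * (m : ℝ) ^ δ * C0 ^ ((2 : ℝ) / (L + 2 * w)), by positivity, fun B hB => ?_⟩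
  have hB0 : 0 < B := by linarith
  let G : ℚ → ℤ × ℤ := fun x => (x.num, (x.den : ℤ))
  have hinj : Function.Injective G := by
    intro x y h
    have h1 : x.num = y.num := congrArg Prod.fst h
    have h2 : (x.den : ℤ) = (y.den : ℤ) := congrArg Prod.snd h
    exact Rat.ext h1 (by exact_mod_cast h2)
  -- the form vanishes only at the points
  have hzero : ∀ x : ℚ, (∀ l, (x : K) * (α l).2 - 1 * (α l).1 ≠ 0) →
      hom f q x.num (x.den : ℤ) ≠ 0 := by
    intro x hx h0
    have hinjK : Function.Injective (Int.castRingHom K) := Int.cast_injective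
    obtain ⟨c, hc, hfac⟩ := Pool.Agent.W462.QD.fac α hα0 hα (f.map (Int.castRingHom K))
      ((Polynomial.map_ne_zero_iff hinjK).mpr hf0)
      ((natDegree_map_le).trans hsq.2.1) (by
        intro i
        have := hF i
        unfold Pool.Agent.W462.QD.hK
        simpa [coeff_map] using this)
    have h1 := hfac (x.num : K) (x.den : K)
    have h4 : Pool.Agent.W462.QD.hK (f.map (Int.castRingHom K)) q (x.num : K) (x.den : K) = 0 := by
      have h5 : ((hom f q x.num (x.den : ℤ) : ℤ) : K) = 0 := by rw [h0]; exact Int.cast_zero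
      unfold hom at h5
      unfold Pool.Agent.W462.QD.hK
      push_cast at h5
      simpa [coeff_map] using h5
    rw [h4] at h1
    rcases mul_eq_zero.mp h1.symm with h6 | h6
    · exact hc h6
    · obtain ⟨l, -, hl⟩ := prod_eq_zero_iff.mp h6
      apply hx l
      have hd : (x.den : K) ≠ 0 := by exact_mod_cast x.den_nz
      have e : (x : K) = (x.num : K) / (x.den : K) := Rat.cast_def x
      rw [e]
      have : (x.num : K) / (x.den : K) * (α l).2 - 1 * (α l).1 =
          ((x.num : K) * (α l).2 - (x.den : K) * (α l).1) / (x.den : K) := by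
        field_simp
      rw [this, hl, zero_div]
  have key : ∀ x ∈ EQ T α κ c0 B, IsCoprime (G x).1 (G x).2 ∧
      |((G x).1 : ℝ)| ≤ B ∧ |((G x).2 : ℝ)| ≤ B ∧ hom f q (G x).1 (G x).2 ≠ 0 ∧
      (radp m (hom f q (G x).1 (G x).2).natAbs : ℝ) ≤ C0 * B ^ lam := by
    rintro x ⟨hx1, hx2, hx3⟩
    have hgx : G x = (x.num, (x.den : ℤ)) := rfl
    rw [hgx]
    simp only
    have hcop : IsCoprime x.num (x.den : ℤ) := by
      rw [Int.isCoprime_iff_gcd_eq_one]
      exact x.reduced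
    have hden : (x.den : ℤ) ≠ 0 := by exact_mod_cast x.den_nz
    have hxeq : (x : K) = ((x.num : ℤ) : K) / (((x.den : ℤ)) : K) := by
      push_cast
      exact (Rat.cast_def x)
    have hhq : heightK (x : K) = Real.log (max |(x.num : ℝ)| |((x.den : ℤ) : ℝ)|) := by
      rw [hxeq]
      exact Pool.Agent.W4.CF.t_HTQ K _ _ hcop hden
    set mx : ℝ := max |(x.num : ℝ)| |((x.den : ℤ) : ℝ)| with hmx
    have hmaxpos : 0 < mx := by
      refine lt_of_lt_of_le ?_ (le_max_right _ _)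
      have : ((x.den : ℤ) : ℝ) ≠ 0 := by exact_mod_cast x.den_nz
      positivity
    have hhom0 := hzero x hx1
    rw [hhq, Real.exp_log hmaxpos] at hx2
    refine ⟨hcop, (le_max_left _ _).trans hx2, (le_max_right _ _).trans hx2, hhom0, ?_⟩
    have h1 := hcnt x.num (x.den : ℤ) hcop hden hhom0
    rw [← hxeq] at h1
    rw [hhq] at hx3
    have h4 : Real.log (radp m (hom f q x.num (x.den : ℤ)).natAbs : ℝ) ≤
        lam * Real.log mx + c0 := by
      unfold radp
      rw [Nat.cast_prod, Real.log_prod (fun p hp => by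
        have := (Nat.prime_of_mem_primeFactors (mem_filter.mp hp).1).ne_zero
        exact_mod_cast this)]
      exact h1.trans hx3.le
    have hrad0 : (0 : ℝ) < (radp m (hom f q x.num (x.den : ℤ)).natAbs : ℝ) := by
      exact_mod_cast radp_pos _ _
    calc (radp m (hom f q x.num (x.den : ℤ)).natAbs : ℝ) =
          Real.exp (Real.log (radp m (hom f q x.num (x.den : ℤ)).natAbs : ℝ)) :=
          (Real.exp_log hrad0).symm
      _ ≤ Real.exp (lam * Real.log mx + c0) := Real.exp_le_exp.mpr h4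
      _ = Real.exp c0 * mx ^ lam := by
          rw [Real.exp_add, Real.rpow_def_of_pos hmaxpos, mul_comm (Real.log mx) lam]
          ring
      _ ≤ C0 * B ^ lam := by
          gcongr
          exact le_max_right _ _
  have hfin : (EQ T α κ c0 B).Finite := by
    refine Set.Finite.of_finite_image ?_ hinj.injOn
    refine ((Finset.finite_toSet (Icc (-⌈B⌉) (⌈B⌉) ×ˢ Icc (-⌈B⌉) (⌈B⌉)))).subset ?_
    rintro _ ⟨x, hx, rfl⟩
    obtain ⟨-, hb1, hb2, -⟩ := key x hx
    have b1 : |((G x).1 : ℝ)| ≤ (⌈B⌉ : ℝ) := hb1.trans (Int.le_ceil _)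
    have b2 : |((G x).2 : ℝ)| ≤ (⌈B⌉ : ℝ) := hb2.trans (Int.le_ceil _)
    rw [Finset.mem_coe, mem_product, mem_Icc, mem_Icc]
    refine ⟨abs_le.mp ?_, abs_le.mp ?_⟩
    · exact_mod_cast b1
    · exact_mod_cast b2
  refine ⟨hfin, ?_⟩
  rw [Set.ncard_eq_toFinset_card _ hfin, ← card_image_of_injective _ hinj]
  have hBl : 1 ≤ B ^ lam := Real.one_le_rpow hB hlam0
  have hR1 : 1 ≤ C0 * B ^ lam := by nlinarith
  have := hmain m B (C0 * B ^ lam) hm hB hR1 (hfin.toFinset.image G) (by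
    intro p hp
    obtain ⟨x, hx, rfl⟩ := mem_image.mp hp
    rw [Set.Finite.mem_toFinset] at hx
    exact key x hx)
  refine this.trans (le_of_eq ?_)
  have hm0 : (0 : ℝ) ≤ m := Nat.cast_nonneg m
  rw [Real.mul_rpow hm0 hB0.le, Real.mul_rpow (by linarith) (by positivity),
    ← Real.rpow_mul hB0.le, Real.rpow_add hB0]
  have e : lam * (2 / ((L : ℝ) + 2 * w)) = 2 * lam / ((L : ℝ) + 2 * w) := by ring
  rw [e]
  ring

end Pool.Agent.TH498.KB
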